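import Pool.Agent.W_448fc_h67.FcA

/-!
Decomposition of a window sum by the set of the elements with labels at least `k`, and the
change of the window by `k` on this set.
-/

namespace Pool.Agent.GaussPoset

set_option linter.unusedSectionVars false

open Polynomial Finset

universe u

variable {Q : Type u} [Fintype Q] [PartialOrder Q] [DecidableEq Q]

section Shift

lemma rho_shift (i k : ℕ) (e : Q → ℕ) (x : Q) :
    rho i (fun x => e x + min k (lev x - i)) x = rho (i + k) e x + k := by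
  unfold rho
  have h0 : (((e x + min k (lev x - i) : ℕ) : ℤ)) = (e x : ℤ) + ((min k (lev x - i) : ℕ) : ℤ) := by
    push_cast; ring
  rw [h0]
  have h2 : ((min k (lev x - i) : ℕ) : ℤ) - ((i - lev x : ℕ) : ℤ) =
      k - ((i + k - lev x : ℕ) : ℤ) := by
    rcases le_total (lev x) i with h | h
    · have h1 : min k (lev x - i) = 0 := by
        rw [Nat.sub_eq_zero_of_le h, Nat.min_zero]
      rw [h1]
      omega
    · rcases le_total (lev x) (i + k) with h' | h'
      · have h1 : min k (lev x - i) = lev x - i := min_eq_right (by omega)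
        rw [h1]
        omega
      · have h1 : min k (lev x - i) = k := min_eq_left (by omega)
        rw [h1]
        omega
  linarith

lemma cst_const_iff {i k : ℕ} (e : Q → ℕ) (F : Finset Q) :
    Cst i ∅ 0 (fun _ => k) (fun x => e x + min k (lev x - i)) F ↔ Vd (i + k) e F := by
  have hr := rho_shift i k e
  rw [cst_empty_iff]
  unfold Vd
  constructor
  · rintro ⟨⟨h1, h2, h3, h4⟩, h5⟩
    refine ⟨h1, ?_, ?_, ?_⟩
    · intro x hx
      have := h5 x hx
      rw [hr] at this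
      omega
    · intro x y hxy hx hy
      have := h3 x y hxy hx hy
      rw [hr, hr] at this
      omega
    · intro x y hxy hx hy
      have := h4 x y hxy hx hy
      rw [hr, hr] at this
      omega
  · rintro ⟨h1, h2, h3, h4⟩
    refine ⟨⟨h1, ?_, ?_, ?_⟩, ?_⟩
    · intro x hx
      have := h2 x hx
      rw [hr]
      omega
    · intro x y hxy hx hy
      have := h3 x y hxy hx hy
      rw [hr, hr]
      omega
    · intro x y hxy hx hy
      have := h4 x y hxy hx hy
      rw [hr, hr]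
      omega
    · intro x hx
      have := h2 x hx
      rw [hr]
      omega

lemma le_of_cst_const {i k : ℕ} {e : Q → ℕ} {F : Finset Q}
    (h : Cst i ∅ 0 (fun _ => k) e F) (x : Q) : min k (lev x - i) ≤ e x := by
  rw [cst_empty_iff] at h
  by_cases hx : x ∈ F
  · exact (min_le_right _ _).trans (sub_le_of_mem h.1 hx)
  · have h1 := h.2 x hx
    have h2 : rho i e x ≤ e x := by unfold rho; omega
    have : k ≤ e x := by omega
    exact (min_le_left _ _).trans this

/-- cost of the change of the window -/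
noncomputable def cw (Q : Type u) [Fintype Q] [PartialOrder Q] (i k : ℕ) : ℕ :=
  ∑ x : Q, min k (lev x - i)

theorem ZB_const (i k n : ℕ) :
    ZB (P := Q) i ∅ 0 (fun _ => k) (n + cw Q i k) = Z Q (i + k) n := by
  classical
  rw [ZB_eq_SC, Z_eq_SC, SC_eq_cfg, SC_eq_cfg]
  symm
  refine Finset.sum_bij (fun (x : Finset Q × (Q → ℕ)) _ =>
    ((x.1, fun y => x.2 y + min k (lev y - i)) : Finset Q × (Q → ℕ))) ?_ ?_ ?_
    (fun _ _ => rfl)
  · rintro ⟨F, e⟩ hx
    rw [mem_cfg] at hx ⊢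
    simp only at hx ⊢
    refine ⟨?_, (cst_const_iff _ _).mpr hx.2⟩
    rw [Finset.sum_add_distrib, hx.1, cw]
  · rintro ⟨F, e⟩ _ ⟨F', e'⟩ _ h
    simp only [Prod.mk.injEq] at h ⊢
    refine ⟨h.1, ?_⟩
    funext y
    have := congrFun h.2 y
    simpa using this
  · rintro ⟨F, e⟩ hx
    rw [mem_cfg] at hx
    simp only at hx
    have hle := le_of_cst_const hx.2
    have hfun : (fun y => (e y - min k (lev y - i)) + min k (lev y - i)) = e := by
      funext y
      exact Nat.sub_add_cancel (hle y)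
    refine ⟨(F, fun y => e y - min k (lev y - i)), ?_, ?_⟩
    · rw [mem_cfg]
      simp only
      refine ⟨?_, ?_⟩
      · have h1 : ∑ y, ((e y - min k (lev y - i)) + min k (lev y - i)) = ∑ y, e y :=
          Finset.sum_congr rfl fun y _ => congrFun hfun y
        rw [Finset.sum_add_distrib, hx.1] at h1
        unfold cw at h1
        omega
      · rw [← cst_const_iff, hfun]
        exact hx.2
    · simp only [Prod.mk.injEq, true_and]
      exact hfun

theorem ZB_const_zero {i k n : ℕ} (hn : n < cw Q i k) :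
    ZB (P := Q) i ∅ 0 (fun _ => k) n = 0 := by
  rw [ZB_eq_SC]
  refine SC_eq_zero fun e F h hs => ?_
  have := Finset.sum_le_sum fun (x : Q) (_ : x ∈ (univ : Finset Q)) => le_of_cst_const h x
  unfold cw at hn
  omega

end Shift

section Level

open Classical in
/-- the elements in the filter or with label at least `k` -/
noncomputable def upL (i k : ℕ) (e : Q → ℕ) (F : Finset Q) : Finset Q :=
  univ.filter (fun x => x ∈ F ∨ (k : ℤ) ≤ rho i e x)

lemma mem_upL {i k : ℕ} {e : Q → ℕ} {F : Finset Q} {x : Q} :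
    x ∈ upL i k e F ↔ x ∈ F ∨ (k : ℤ) ≤ rho i e x := by
  classical
  unfold upL
  simp

lemma upL_up {i k : ℕ} {e : Q → ℕ} {F : Finset Q} (hV : Vd i e F) {x y : Q} (hxy : x ≤ y)
    (hx : x ∈ upL i k e F) : y ∈ upL i k e F := by
  rw [mem_upL] at hx ⊢
  by_cases hy : y ∈ F
  · exact Or.inl hy
  · rcases hx with h | h
    · exact absurd (hV.1 x y hxy h) hy
    · by_cases hxF : x ∈ F
      · exact absurd (hV.1 x y hxy hxF) hy
      · exact Or.inr (h.trans (hV.2.2.1 x y hxy hxF hy))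

/-- the low part of a configuration: labels below `k`, nothing in the filter -/
def Lw (i k : ℕ) (L : Finset Q) (e : {x : Q // x ∉ L} → ℕ) (F : Finset {x : Q // x ∉ L}) : Prop :=
  F = ∅ ∧ (∀ x : {x : Q // x ∉ L}, 0 ≤ (e x : ℤ) - ((i - lev (x : Q) : ℕ) : ℤ)) ∧
    (∀ x y : {x : Q // x ∉ L}, x ≤ y → (e x : ℤ) - ((i - lev (x : Q) : ℕ) : ℤ) ≤
      (e y : ℤ) - ((i - lev (y : Q) : ℕ) : ℤ)) ∧
    ∀ x : {x : Q // x ∉ L}, (e x : ℤ) - ((i - lev (x : Q) : ℕ) : ℤ) < k

lemma upL_split {i k : ℕ} {L : Finset Q} (hL : ∀ x y, x ≤ y → x ∈ L → y ∈ L) (e : Q → ℕ)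
    (F : Finset Q) : (Vd i e F ∧ upL i k e F = L) ↔
      Cst i ∅ 0 (fun _ => k) (fun x : {x : Q // x ∈ L} => e x) (F.subtype (fun x => x ∈ L)) ∧
      Lw i k L (fun x => e x) (F.subtype (fun x => x ∉ L)) := by
  have hl1 : ∀ x : {x // x ∈ L}, lev x = lev (x : Q) := lev_subtype (p := fun x => x ∈ L) hL
  have hr1 : ∀ x : {x // x ∈ L}, rho i (fun y : {x // x ∈ L} => e y) x = rho i e (x : Q) := by
    intro x
    unfold rho
    rw [hl1]
  have hm1 : ∀ x : {x // x ∈ L}, x ∈ F.subtype (fun x => x ∈ L) ↔ (x : Q) ∈ F :=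
    fun x => mem_subtype
  have hm2 : ∀ x : {x // x ∉ L}, x ∈ F.subtype (fun x => x ∉ L) ↔ (x : Q) ∈ F :=
    fun x => mem_subtype
  rw [cst_empty_iff]
  constructor
  · rintro ⟨⟨h1, h2, h3, h4⟩, h5⟩
    have hFL : ∀ x ∈ F, x ∈ L := by
      intro x hx
      rw [← h5, mem_upL]
      exact Or.inl hx
    refine ⟨⟨⟨?_, ?_, ?_, ?_⟩, ?_⟩, ?_, ?_, ?_, ?_⟩
    · intro x y hxy hx
      rw [hm1] at hx ⊢
      exact h1 x y hxy hx
    · intro x hx
      rw [hm1] at hx
      rw [hr1]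
      exact h2 x hx
    · intro x y hxy hx hy
      rw [hm1] at hx hy
      rw [hr1, hr1]
      exact h3 x y hxy hx hy
    · intro x y hxy hx hy
      rw [hm1] at hx hy
      rw [hr1, hr1]
      exact h4 x y hxy hx hy
    · intro x hx
      rw [hm1] at hx
      rw [hr1]
      have h6 : (x : Q) ∈ upL i k e F := by rw [h5]; exact x.2
      rw [mem_upL] at h6
      exact h6.resolve_left hx
    · rw [Finset.eq_empty_iff_forall_notMem]
      intro x hx
      rw [hm2] at hx
      exact x.2 (hFL _ hx)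
    · intro x
      exact h2 x (fun h => x.2 (hFL _ h))
    · intro x y hxy
      exact h3 x y hxy (fun h => x.2 (hFL _ h)) (fun h => y.2 (hFL _ h))
    · intro x
      by_contra hcon
      have h6 : (x : Q) ∈ upL i k e F := mem_upL.mpr (Or.inr (not_lt.mp hcon))
      rw [h5] at h6
      exact x.2 h6
  · rintro ⟨⟨⟨h1, h2, h3, h4⟩, h5⟩, g0, g1, g2, g3⟩
    have hFL : ∀ x ∈ F, x ∈ L := by
      intro x hx
      by_contra hxL
      have : (⟨x, hxL⟩ : {x // x ∉ L}) ∈ F.subtype (fun x => x ∉ L) := (hm2 _).mpr hx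
      rw [g0] at this
      exact absurd this (Finset.notMem_empty _)
    refine ⟨⟨?_, ?_, ?_, ?_⟩, ?_⟩
    · intro x y hxy hx
      have hxL := hFL x hx
      exact (hm1 ⟨y, hL x y hxy hxL⟩).mp (h1 ⟨x, hxL⟩ _ hxy ((hm1 _).mpr hx))
    · intro x hx
      by_cases hxL : x ∈ L
      · rw [← hr1 ⟨x, hxL⟩]
        exact h2 _ (fun h => hx ((hm1 _).mp h))
      · exact g1 ⟨x, hxL⟩
    · intro x y hxy hx hy
      by_cases hxL : x ∈ L
      · rw [← hr1 ⟨x, hxL⟩, ← hr1 ⟨y, hL x y hxy hxL⟩]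
        exact h3 _ _ hxy (fun h => hx ((hm1 _).mp h)) (fun h => hy ((hm1 _).mp h))
      · by_cases hyL : y ∈ L
        · have e1 := g3 ⟨x, hxL⟩
          have e2 := h5 ⟨y, hyL⟩ (fun h => hy ((hm1 _).mp h))
          rw [hr1] at e2
          exact (le_of_lt e1).trans e2
        · exact g2 ⟨x, hxL⟩ ⟨y, hyL⟩ hxy
    · intro x y hxy hx hy
      rw [← hr1 ⟨x, hFL x hx⟩, ← hr1 ⟨y, hFL y hy⟩]
      exact h4 _ _ hxy ((hm1 _).mpr hx) ((hm1 _).mpr hy)
    · ext x
      rw [mem_upL]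
      constructor
      · rintro (h | h)
        · exact hFL x h
        · by_contra hxL
          exact absurd h (not_le.mpr (g3 ⟨x, hxL⟩))
      · intro hxL
        by_cases hx : x ∈ F
        · exact Or.inl hx
        · right
          have e2 := h5 ⟨x, hxL⟩ (fun h => hx ((hm1 _).mp h))
          rw [hr1] at e2
          exact e2

open Classical in
/-- the up-closed sets with the property `S0` -/
noncomputable def upsF (S0 : Finset Q → Prop) : Finset (Finset Q) :=
  univ.filter (fun L => (∀ x y, x ≤ y → x ∈ L → y ∈ L) ∧ S0 L)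

lemma mem_upsF {S0 : Finset Q → Prop} {L : Finset Q} :
    L ∈ upsF S0 ↔ (∀ x y, x ≤ y → x ∈ L → y ∈ L) ∧ S0 L := by
  classical
  unfold upsF
  simp

lemma SC_inst {α : Type u} (i1 i2 : Fintype α) [DecidableEq α]
    (T : (α → ℕ) → Finset α → Prop) (n : ℕ) : @SC α i1 _ T n = @SC α i2 _ T n := by
  rw [Subsingleton.elim i1 i2]

lemma SC_piece (i k : ℕ) {L : Finset Q} (hL : ∀ x y, x ≤ y → x ∈ L → y ∈ L) (n : ℕ) :
    SC (fun (e : Q → ℕ) F => Vd i e F ∧ upL i k e F = L) n = ∑ ab ∈ antidiagonal n,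
      ZB (P := {x // x ∈ L}) i ∅ 0 (fun _ => k) ab.1 * SC (Lw i k L) ab.2 := by
  have h2 := SC_prod (fun x => x ∈ L) (fun (e : Q → ℕ) F => Vd i e F ∧ upL i k e F = L)
    (Cst i ∅ 0 (fun _ => k)) (Lw i k L) (fun e F => upL_split hL e F) n
  rw [h2]
  refine Finset.sum_congr rfl fun ab _ => ?_
  have h4 : ZB (P := {x // x ∈ L}) i ∅ 0 (fun _ => k) ab.1 =
      @SC {x // x ∈ L} (Subtype.fintype fun x => x ∈ L) _ (Cst i ∅ 0 fun _ => k) ab.1 :=
    SC_inst _ _ _ _
  rw [h4]

lemma SC_fiber {α : Type u} [Fintype α] [DecidableEq α] {β : Type*} [DecidableEq β]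
    (T : (α → ℕ) → Finset α → Prop) (g : (α → ℕ) → Finset α → β) (s : Finset β)
    (hg : ∀ e F, T e F → g e F ∈ s) (n : ℕ) :
    SC T n = ∑ L ∈ s, SC (fun e F => T e F ∧ g e F = L) n := by
  classical
  have h1 : ∀ L ∈ s, SC (fun e F => T e F ∧ g e F = L) n =
      ∑ x ∈ (cfg T n).filter (fun x => g x.2 x.1 = L), (X : ℤ[X]) ^ x.1.card := by
    intro L _
    rw [SC_eq_cfg]
    refine Finset.sum_congr ?_ (fun _ _ => rfl)
    ext x
    rw [mem_cfg, mem_filter, mem_cfg]
    exact ⟨fun h => ⟨⟨h.1, h.2.1⟩, h.2.2⟩, fun h => ⟨h.1.1, h.1.2, h.2⟩⟩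
  rw [Finset.sum_congr rfl h1, SC_eq_cfg]
  symm
  refine Finset.sum_fiberwise_of_maps_to (g := fun (x : Finset α × (α → ℕ)) => g x.2 x.1) ?_ _
  intro x hx
  rw [mem_cfg] at hx
  exact hg _ _ hx.2

/-- **Decomposition by the set of high labels.** -/
theorem SC_upL (i k : ℕ) (S0 : Finset Q → Prop) (n : ℕ) :
    SC (fun (e : Q → ℕ) F => Vd i e F ∧ S0 (upL i k e F)) n =
      ∑ L ∈ upsF S0, ∑ ab ∈ antidiagonal n,
          ZB (P := {x // x ∈ L}) i ∅ 0 (fun _ => k) ab.1 * SC (Lw i k L) ab.2 := by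
  rw [SC_fiber _ (upL i k) (upsF S0) (fun e F h =>
    mem_upsF.mpr ⟨fun a b hab ha => upL_up h.1 hab ha, h.2⟩) n]
  refine Finset.sum_congr rfl fun L hL => ?_
  rw [← SC_piece i k (mem_upsF.mp hL).1 n]
  refine SC_congr (fun e F => ?_) n
  constructor
  · rintro ⟨⟨a, -⟩, c⟩
    exact ⟨a, c⟩
  · rintro ⟨a, c⟩
    exact ⟨⟨a, by rw [c]; exact (mem_upsF.mp hL).2⟩, c⟩

/-- no energy, no labels -/
lemma SC_Lw_zero {i k : ℕ} {L : Finset Q} (hk : 1 ≤ k) (hout : ∀ x, x ∉ L → i ≤ lev x) :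
    SC (Lw i k L) 0 = 1 := by
  classical
  rw [SC_eq_cfg]
  have h1 : cfg (Lw i k L) 0 = {((∅ : Finset {x : Q // x ∉ L}), fun _ => 0)} := by
    ext ⟨F, e⟩
    rw [mem_cfg, mem_singleton]
    simp only [Prod.mk.injEq]
    constructor
    · rintro ⟨h1, h2⟩
      refine ⟨h2.1, ?_⟩
      funext x
      exact (Finset.sum_eq_zero_iff.mp h1) x (mem_univ x)
    · rintro ⟨rfl, rfl⟩
      have h0 : ∀ x : {x : Q // x ∉ L}, i - lev (x : Q) = 0 := fun x => by
        have := hout x x.2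
        omega
      refine ⟨by simp, rfl, ?_, ?_, ?_⟩
      · intro x
        rw [h0]
        simp
      · intro x y _
        rw [h0, h0]
      · intro x
        rw [h0]
        simp
        omega
  rw [h1, sum_singleton]
  simp

/-- cost of an up-closed set -/
lemma cw_subtype {i k : ℕ} {L : Finset Q} (hL : ∀ x y, x ≤ y → x ∈ L → y ∈ L) :
    cw {x // x ∈ L} i k = ∑ x ∈ L, min k (lev x - i) := by
  unfold cw
  rw [← Finset.sum_coe_sort L (fun x => min k (lev x - i))]
  refine Finset.sum_congr rfl fun x _ => ?_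
  rw [lev_subtype (p := fun x => x ∈ L) hL]

/-- **Main step.** `U` is the set of the elements above the given ones; everything else lies on
levels `≥ i + k`. -/
theorem SC_core {i k B b : ℕ} {U : Finset Q} (hk : 1 ≤ k)
    (hU : ∀ x y, x ≤ y → x ∈ U → y ∈ U) (S0 : Finset Q → Prop)
    (hS0 : ∀ L : Finset Q, (∀ x y, x ≤ y → x ∈ L → y ∈ L) → S0 L → U ⊆ L)
    (hout : ∀ x, x ∉ U → i + k ≤ lev x)
    (hcore : S0 U → ∀ n < B, (1 + X : ℤ[X]) ^ b ∣ Z {x // x ∈ U} (i + k) n)
    (hcls : ∀ L : Finset Q, (∀ x y, x ≤ y → x ∈ L → y ∈ L) → U ⊆ L → L ≠ U → ∀ n,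
      n + k * (L \ U).card ≤ B → (1 + X : ℤ[X]) ^ b ∣ Z {x // x ∈ L} (i + k) n) :
    (∀ n < B + ∑ x ∈ U, min k (lev x - i), (1 + X : ℤ[X]) ^ b ∣
      SC (fun (e : Q → ℕ) F => Vd i e F ∧ S0 (upL i k e F)) n) ∧
    (¬ S0 U → (1 + X : ℤ[X]) ^ b ∣ SC (fun (e : Q → ℕ) F => Vd i e F ∧ S0 (upL i k e F))
      (B + ∑ x ∈ U, min k (lev x - i))) ∧
    (S0 U → (1 + X : ℤ[X]) ^ b ∣ SC (fun (e : Q → ℕ) F => Vd i e F ∧ S0 (upL i k e F))
      (B + ∑ x ∈ U, min k (lev x - i)) - Z {x // x ∈ U} (i + k) B) := by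
  classical
  set E0 := ∑ x ∈ U, min k (lev x - i) with hE0
  have hcL : ∀ L : Finset Q, (∀ x y, x ≤ y → x ∈ L → y ∈ L) → U ⊆ L →
      cw {x // x ∈ L} i k = E0 + k * (L \ U).card := by
    intro L hL hUL
    rw [cw_subtype hL, ← Finset.sum_sdiff hUL, Nat.add_comm]
    congr 1
    rw [Finset.sum_congr rfl (g := fun _ => k), sum_const, smul_eq_mul, mul_comm]
    intro x hx
    rw [mem_sdiff] at hx
    have := hout x hx.2
    exact min_eq_left (by omega)
  have hterm : ∀ L ∈ upsF S0, ∀ a,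
      (L ≠ U ∧ a ≤ B + E0) ∨ a < B + E0 →
      (1 + X : ℤ[X]) ^ b ∣ ZB (P := {x // x ∈ L}) i ∅ 0 (fun _ => k) a := by
    intro L hL a ha
    rw [mem_upsF] at hL
    have hUL := hS0 L hL.1 hL.2
    have h1 := hcL L hL.1 hUL
    rcases Nat.lt_or_ge a (cw {x // x ∈ L} i k) with h2 | h2
    · rw [ZB_const_zero h2]
      exact dvd_zero _
    · obtain ⟨c, rfl⟩ := Nat.exists_eq_add_of_le' h2
      rw [ZB_const]
      by_cases hLU : L = U
      · rcases ha with ha | ha
        · exact absurd hLU ha.1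
        · subst hLU
          rw [Finset.sdiff_self, card_empty, mul_zero, add_zero] at h1
          exact hcore hL.2 c (by omega)
      · exact hcls L hL.1 hUL hLU c (by omega)
  refine ⟨?_, ?_, ?_⟩
  · intro n hn
    rw [SC_upL i k S0]
    refine Finset.dvd_sum fun L hL => Finset.dvd_sum fun ab hab => ?_
    rw [HasAntidiagonal.mem_antidiagonal] at hab
    exact dvd_mul_of_dvd_left (hterm L hL ab.1 (Or.inr (by omega))) _
  · intro hSU
    rw [SC_upL i k S0]
    refine Finset.dvd_sum fun L hL => Finset.dvd_sum fun ab hab => ?_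
    rw [HasAntidiagonal.mem_antidiagonal] at hab
    refine dvd_mul_of_dvd_left (hterm L hL ab.1 (Or.inl ⟨?_, by omega⟩)) _
    rintro rfl
    exact hSU (mem_upsF.mp hL).2
  · intro hSU
    rw [SC_upL i k S0]
    have hUm : U ∈ upsF S0 := mem_upsF.mpr ⟨hU, hSU⟩
    rw [← Finset.add_sum_erase _ _ hUm]
    have hmem : ((B + E0, 0) : ℕ × ℕ) ∈ antidiagonal (B + E0) := by
      rw [HasAntidiagonal.mem_antidiagonal]
      exact Nat.add_zero _
    rw [← Finset.add_sum_erase _ _ hmem]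
    have h1 : ZB (P := {x // x ∈ U}) i ∅ 0 (fun _ => k) (B + E0) = Z {x // x ∈ U} (i + k) B := by
      have h2 := hcL U hU (Subset.refl U)
      rw [Finset.sdiff_self, card_empty, mul_zero, add_zero] at h2
      rw [← h2, ZB_const]
    simp only
    rw [h1, SC_Lw_zero hk (fun x hx => by have := hout x hx; omega), mul_one]
    have h3 : (1 + X : ℤ[X]) ^ b ∣ ∑ ab ∈ (antidiagonal (B + E0)).erase (B + E0, 0),
        ZB (P := {x // x ∈ U}) i ∅ 0 (fun _ => k) ab.1 * SC (Lw i k U) ab.2 := by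
      refine Finset.dvd_sum fun ab hab => ?_
      rw [mem_erase, HasAntidiagonal.mem_antidiagonal] at hab
      refine dvd_mul_of_dvd_left (hterm U hUm ab.1 (Or.inr ?_)) _
      by_contra hcon
      apply hab.1
      exact Prod.ext (by simp only; omega) (by simp only; omega)
    have h4 : (1 + X : ℤ[X]) ^ b ∣ ∑ L ∈ (upsF S0).erase U,
        ∑ ab ∈ antidiagonal (B + E0),
          ZB (P := {x // x ∈ L}) i ∅ 0 (fun _ => k) ab.1 * SC (Lw i k L) ab.2 := by
      refine Finset.dvd_sum fun L hL => Finset.dvd_sum fun ab hab => ?_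
      rw [mem_erase] at hL
      rw [HasAntidiagonal.mem_antidiagonal] at hab
      exact dvd_mul_of_dvd_left (hterm L hL.2 ab.1 (Or.inl ⟨hL.1, by omega⟩)) _
    have h5 : ∀ a b c : ℤ[X], a + b + c - a = b + c := fun a b c => by ring
    rw [h5]
    exact dvd_add h3 h4

end Level

end Pool.Agent.GaussPoset
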