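import Pool.Agent.W_448tw_h76.TwF
import Pool.Agent.W_448fw_h5.FwW

/-!
Flip lemma: window `i` of a pure poset and window `r - i` of its dual; reflection of polynomials.
-/

namespace Pool.Agent.GaussPoset

set_option linter.unusedSectionVars false

open Polynomial Finset

universe u

section Refl

lemma reflect_one_add_X (b : ℕ) : reflect b ((1 + X : ℤ[X]) ^ b) = (1 + X) ^ b := by
  induction b with
  | zero => simp
  | succ b ih =>
    rw [pow_succ, reflect_mul _ _ (F := b) (G := 1) ?_ ?_, ih]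
    · congr 1
      rw [reflect_add]
      have h1 : reflect 1 (1 : ℤ[X]) = X := by
        have := reflect_C_mul_X_pow 1 0 (R := ℤ) (c := 1)
        rw [revAt_le (Nat.zero_le 1)] at this
        simpa using this
      have h2 : reflect 1 (X : ℤ[X]) = 1 := by
        have := reflect_C_mul_X_pow 1 1 (R := ℤ) (c := 1)
        rw [revAt_le le_rfl] at this
        simpa using this
      rw [h1, h2, add_comm]
    · refine (natDegree_pow_le).trans ?_
      have : (1 + X : ℤ[X]).natDegree ≤ 1 := by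
        refine (natDegree_add_le _ _).trans ?_
        simp
      calc b * (1 + X : ℤ[X]).natDegree ≤ b * 1 := Nat.mul_le_mul_left _ this
        _ = b := Nat.mul_one b
    · refine (natDegree_add_le _ _).trans ?_
      simp

lemma reflect_X_pow_of_le {N k : ℕ} (h : k ≤ N) : reflect N ((X : ℤ[X]) ^ k) = X ^ (N - k) := by
  have := reflect_C_mul_X_pow N k (R := ℤ) (c := 1)
  rw [map_one, one_mul, one_mul, revAt_le h] at this
  exact this

lemma monic_one_add_X : (1 + X : ℤ[X]).Monic := by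
  have := monic_X_add_C (1 : ℤ)
  rwa [map_one, add_comm] at this

lemma natDegree_one_add_X_pow (b : ℕ) : ((1 + X : ℤ[X]) ^ b).natDegree = b := by
  rw [monic_one_add_X.natDegree_pow]
  have : (1 + X : ℤ[X]).natDegree = 1 := by
    have := natDegree_X_add_C (1 : ℤ)
    rwa [map_one, add_comm] at this
  rw [this, mul_one]

lemma dvd_reflect {N b : ℕ} {p : ℤ[X]} (hp : p.natDegree ≤ N) (h : (1 + X : ℤ[X]) ^ b ∣ p) :
    (1 + X : ℤ[X]) ^ b ∣ reflect N p := by
  obtain ⟨G, rfl⟩ := h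
  by_cases hG : G = 0
  · rw [hG, mul_zero, reflect_zero]
    exact dvd_zero _
  · have h1 : ((1 + X : ℤ[X]) ^ b * G).natDegree = b + G.natDegree := by
      rw [(monic_one_add_X.pow b).natDegree_mul' hG, natDegree_one_add_X_pow]
    rw [h1] at hp
    obtain ⟨M, rfl⟩ : ∃ M, N = b + M := ⟨N - b, by omega⟩
    rw [reflect_mul _ _ (F := b) (G := M) (natDegree_one_add_X_pow b).le (by omega),
      reflect_one_add_X]
    exact dvd_mul_right _ _

/-- reflection of sums of powers -/
theorem dvd_sum_reflect {ι : Type*} {s : Finset ι} {c : ι → ℕ} {N b : ℕ} (hc : ∀ x ∈ s, c x ≤ N)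
    (h : (1 + X : ℤ[X]) ^ b ∣ ∑ x ∈ s, (X : ℤ[X]) ^ (N - c x)) :
    (1 + X : ℤ[X]) ^ b ∣ ∑ x ∈ s, (X : ℤ[X]) ^ (c x) := by
  have h1 := dvd_reflect (N := N) (natDegree_sum_le_of_forall_le _ _ fun x _ => by
    rw [natDegree_X_pow]; omega) h
  have h2 : reflect N (∑ x ∈ s, (X : ℤ[X]) ^ (N - c x)) = ∑ x ∈ s, (X : ℤ[X]) ^ (c x) := by
    have : ∀ p, reflect N p = AddMonoidHom.mk' (reflect N : ℤ[X] → ℤ[X])
      (fun a b => reflect_add a b N) p := fun _ => rfl
    rw [this, map_sum]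
    refine Finset.sum_congr rfl fun x hx => ?_
    rw [← this, reflect_X_pow_of_le (Nat.sub_le _ _), Nat.sub_sub_self (hc x hx)]
  rwa [h2] at h1

/-- reflection of sums of powers with a leading term -/
theorem dvd_sum_reflect_lead {ι : Type*} {s : Finset ι} {c : ι → ℕ} {N b a d : ℕ}
    (hc : ∀ x ∈ s, c x ≤ N) (had : a + d ≤ N)
    (h : (1 + X : ℤ[X]) ^ b ∣ ∑ x ∈ s, (X : ℤ[X]) ^ (N - c x) - X ^ a * (1 + X) ^ d) :
    (1 + X : ℤ[X]) ^ b ∣ ∑ x ∈ s, (X : ℤ[X]) ^ (c x) - X ^ (N - a - d) * (1 + X) ^ d := by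
  have hd : (X ^ a * (1 + X : ℤ[X]) ^ d).natDegree ≤ a + d := by
    refine natDegree_mul_le.trans ?_
    rw [natDegree_X_pow, natDegree_one_add_X_pow]
  have h0 : (∑ x ∈ s, (X : ℤ[X]) ^ (N - c x)).natDegree ≤ N :=
    natDegree_sum_le_of_forall_le _ _ fun x _ => by rw [natDegree_X_pow]; omega
  have h1 := dvd_reflect (N := N) ((natDegree_sub_le _ _).trans (max_le h0 (hd.trans had))) h
  have h2 : reflect N (∑ x ∈ s, (X : ℤ[X]) ^ (N - c x)) = ∑ x ∈ s, (X : ℤ[X]) ^ (c x) := by
    have : ∀ p, reflect N p = AddMonoidHom.mk' (reflect N : ℤ[X] → ℤ[X])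
      (fun a b => reflect_add a b N) p := fun _ => rfl
    rw [this, map_sum]
    refine Finset.sum_congr rfl fun x hx => ?_
    rw [← this, reflect_X_pow_of_le (Nat.sub_le _ _), Nat.sub_sub_self (hc x hx)]
  have h3 : reflect N (X ^ a * (1 + X : ℤ[X]) ^ d) = X ^ (N - a - d) * (1 + X) ^ d := by
    obtain ⟨M, rfl⟩ : ∃ M, N = M + d := ⟨N - d, by omega⟩
    rw [reflect_mul _ _ (F := M) (G := d) (by rw [natDegree_X_pow]; omega)
      (natDegree_one_add_X_pow d).le, reflect_one_add_X, reflect_X_pow_of_le (by omega)]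
    congr 2
    omega
  rwa [reflect_sub, h2, h3] at h1

end Refl

section Levels

variable {Q : Type u} [Fintype Q] [PartialOrder Q]

lemma lev_eq_of {f : Q → ℕ} (hf : StrictAnti f) (hs : ∀ x, f x ≠ 0 → ∃ y, x < y ∧ f x = f y + 1)
    (x : Q) : lev x = f x := by
  have key : ∀ n x, f x = n → n ≤ lev x := by
    intro n
    induction n with
    | zero => intro x _; exact Nat.zero_le _
    | succ n ih =>
      intro x hx
      obtain ⟨y, hxy, hy⟩ := hs x (by omega)
      have h1 := ih y (by omega)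
      have h2 := lev_strictAnti hxy
      omega
  exact le_antisymm (lev_le hf x) (key _ x rfl)

end Levels

section Flip

variable {Q : Type u} [Fintype Q] [PartialOrder Q] [DecidableEq Q]

/-- the elements of a graded poset satisfy `lev x + colev x = r` -/
structure Pure (Q : Type u) [Fintype Q] [PartialOrder Q] (r : ℕ) : Prop where
  gr : ∀ x y : Q, x ⋖ y → lev x = lev y + 1
  co : ∀ x : Q, lev (OrderDual.toDual x) + lev x = r

/-- induction along saturated chains -/
lemma chain_ind {R : Q → Q → Prop} (hrefl : ∀ x, R x x)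
    (htr : ∀ x y z, x ≤ y → y ≤ z → R x y → R y z → R x z)
    {S : Q → Prop} (hS : ∀ x y, x ≤ y → S x → S y) (hc : ∀ x y, x ⋖ y → S x → R x y) :
    ∀ x y, x ≤ y → S x → R x y := by
  have key : ∀ n x y, lev x = n → x ≤ y → S x → R x y := by
    intro n
    induction n using Nat.strong_induction_on with
    | _ n ih =>
      intro x y hn hxy hx
      rcases eq_or_lt_of_le hxy with h | h
      · rw [h]; exact hrefl y
      · obtain ⟨w, hxw, hwy⟩ := exists_covBy_le h
        have h1 := lev_strictAnti hxw.1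
        exact htr x w y hxw.1.le hwy (hc x w hxw hx)
          (ih (lev w) (by omega) w y rfl hwy (hS x w hxw.1.le hx))
  intro x y hxy hx
  exact key _ x y rfl hxy hx

lemma rho_flip {r i : ℕ} (H : Pure Q r) {e : Q → ℕ} {e' : Qᵒᵈ → ℕ}
    (he : ∀ x : Q, e' (OrderDual.toDual x) = e x) (x : Q) :
    rho (r - i) e' (OrderDual.toDual x) = rho i e x - (lev x : ℤ) + i := by
  unfold rho
  rw [he]
  have := H.co x
  have e1 : ((r - i - lev (OrderDual.toDual x) : ℕ) : ℤ) = ((lev x - i : ℕ) : ℤ) := by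
    congr 1
    omega
  rw [e1]
  omega

lemma vd_flip {r i : ℕ} (H : Pure Q r) {e : Q → ℕ} {F : Finset Q} (h : Vd i e F)
    {e' : Qᵒᵈ → ℕ} (he : ∀ x : Q, e' (OrderDual.toDual x) = e x) {G : Finset Qᵒᵈ}
    (hG : ∀ x : Q, OrderDual.toDual x ∈ G ↔ x ∉ F) : Vd (r - i) e' G := by
  obtain ⟨h1, h2, h3, h4⟩ := h
  have hr := rho_flip (i := i) H he
  -- going up inside the filter
  have hF : ∀ x y : Q, x ≤ y → x ∈ F →
      rho (r - i) e' (OrderDual.toDual y) ≤ rho (r - i) e' (OrderDual.toDual x) := by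
    refine chain_ind (R := fun x y => rho (r - i) e' (OrderDual.toDual y) ≤
      rho (r - i) e' (OrderDual.toDual x)) (S := fun x => x ∈ F) (fun x => le_rfl)
      (fun x y z _ _ a b => b.trans a) (fun x y hxy hx => h1 x y hxy hx) ?_
    intro x y hxy hx
    have h5 := h4 x y hxy.1 hx (h1 x y hxy.1.le hx)
    have h6 := H.gr x y hxy
    rw [hr, hr, h6]
    push_cast
    omega
  -- going up outside the filter
  have hO : ∀ x y : Q, x ≤ y → (x ∉ F → y ∉ F → rho (r - i) e' (OrderDual.toDual x) +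
      (lev x : ℤ) ≤ rho (r - i) e' (OrderDual.toDual y) + lev y) := by
    intro x y hxy hx hy
    have h5 := h3 x y hxy hx hy
    rw [hr, hr]
    omega
  have hm : ∀ x : Qᵒᵈ, x ∈ G ↔ OrderDual.ofDual x ∉ F := fun x => hG (OrderDual.ofDual x)
  refine ⟨?_, ?_, ?_, ?_⟩
  · intro x y hxy hx
    rw [hm] at hx ⊢
    intro hy
    exact hx (h1 _ _ hxy hy)
  · intro x hx
    rw [hm, not_not] at hx
    obtain ⟨t, ht, hxt⟩ := Cp.exists_top (OrderDual.ofDual x)
    have h5 := hF _ t hxt hx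
    have h6 : 0 ≤ rho (r - i) e' (OrderDual.toDual t) := by
      unfold rho
      have := H.co t
      have e1 : r - i - lev (OrderDual.toDual t) = 0 := by omega
      rw [e1]
      simp
    exact h6.trans h5
  · intro x y hxy hx hy
    rw [hm, not_not] at hx hy
    exact hF _ _ hxy hy
  · intro x y hxy hx hy
    rw [hm] at hx hy
    have h5 := hO (OrderDual.ofDual y) (OrderDual.ofDual x) hxy.le hy hx
    have h6 : lev (OrderDual.ofDual x : Q) < lev (OrderDual.ofDual y : Q) :=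
      lev_strictAnti (show (OrderDual.ofDual y : Q) < OrderDual.ofDual x from hxy)
    have e1 : OrderDual.toDual (OrderDual.ofDual x) = x := rfl
    have e2 : OrderDual.toDual (OrderDual.ofDual y) = y := rfl
    rw [e1, e2] at h5
    omega

lemma vd_flip' {r i : ℕ} (H : Pure Q r) (hi : i ≤ r) {e' : Qᵒᵈ → ℕ} {G : Finset Qᵒᵈ}
    (h : Vd (r - i) e' G) {e : Q → ℕ} {F : Finset Q}
    (he : ∀ x : Q, e' (OrderDual.toDual x) = e x)
    (hG : ∀ x : Q, OrderDual.toDual x ∈ G ↔ x ∉ F) : Vd i e F := by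
  obtain ⟨h1, h2, h3, h4⟩ := h
  have hr := rho_flip (i := i) H he
  have hup : ∀ x y : Q, x ≤ y → x ∈ F → y ∈ F := by
    intro x y hxy hx
    by_contra hy
    exact (hG x).mp (h1 (OrderDual.toDual y) (OrderDual.toDual x) hxy ((hG y).mpr hy)) hx
  have hO : ∀ x y : Q, x ≤ y → True → (y ∉ F → rho i e x ≤ rho i e y) := by
    refine chain_ind (R := fun x y => y ∉ F → rho i e x ≤ rho i e y) (S := fun _ => True)
      (fun x _ => le_rfl)
      (fun x y z _ hyz a b hz => (a (fun hy => hz (hup y z hyz hy))).trans (b hz))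
      (fun _ _ _ _ => trivial) ?_
    intro x y hxy _ hy
    have hx : x ∉ F := fun hx => hy (hup x y hxy.1.le hx)
    have h5 := h4 (OrderDual.toDual y) (OrderDual.toDual x) hxy.1 ((hG y).mpr hy)
      ((hG x).mpr hx)
    rw [hr, hr, H.gr x y hxy] at h5
    push_cast at h5
    omega
  have hI : ∀ x y : Q, x ≤ y → x ∈ F → rho i e y + ((lev x : ℤ) - lev y) ≤ rho i e x := by
    refine chain_ind (R := fun x y => rho i e y + ((lev x : ℤ) - lev y) ≤ rho i e x)
      (S := fun x => x ∈ F) (fun x => by omega) (fun x y z _ _ a b => by omega)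
      (fun x y hxy hx => hup x y hxy hx) ?_
    intro x y hxy hx
    have hy := hup x y hxy.1.le hx
    have h5 := h3 (OrderDual.toDual y) (OrderDual.toDual x) hxy.1.le (fun h => (hG y).mp h hy)
      (fun h => (hG x).mp h hx)
    rw [hr, hr, H.gr x y hxy] at h5
    rw [H.gr x y hxy]
    push_cast at h5 ⊢
    omega
  refine ⟨hup, ?_, ?_, ?_⟩
  · intro x hx
    obtain ⟨t, ht, hxt⟩ := Cp.exists_top (OrderDual.toDual x : Qᵒᵈ)
    have h5 : (OrderDual.ofDual t : Q) ≤ x := hxt
    have h6 := hO _ x h5 trivial hx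
    have h7 : 0 ≤ rho i e (OrderDual.ofDual t) := by
      unfold rho
      have := H.co (OrderDual.ofDual t)
      have e2 : OrderDual.toDual (OrderDual.ofDual t) = t := rfl
      rw [e2, ht] at this
      have e1 : i - lev (OrderDual.ofDual t : Q) = 0 := by omega
      rw [e1]
      simp
    exact h7.trans h6
  · intro x y hxy _ hy
    exact hO x y hxy trivial hy
  · intro x y hxy hx _
    have h5 := hI x y hxy.le hx
    have h6 := lev_strictAnti hxy
    omega

lemma Z_eq_SC (i n : ℕ) : Z Q i n = SC (fun (e : Q → ℕ) F => Vd i e F) n := by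
  rw [Z_eq_ZB, ZB_eq_SC]
  refine SC_congr (fun e F => ?_) n
  rw [cst_empty_iff]
  exact ⟨fun h => h.1, fun h => ⟨h, fun x hx => by simpa using h.2.1 x hx⟩⟩

/-- **Flip lemma.** -/
theorem SC_flip {r i : ℕ} (H : Pure Q r) (hi : i ≤ r) (Φ : (Q → ℕ) → Prop) (n : ℕ) :
    SC (fun (e : Qᵒᵈ → ℕ) G => Vd (r - i) e G ∧ Φ (fun x => e (OrderDual.toDual x))) n =
      ∑ x ∈ cfg (fun (e : Q → ℕ) F => Vd i e F ∧ Φ e) n,
        (X : ℤ[X]) ^ (Fintype.card Q - x.1.card) := by
  classical
  rw [SC_eq_cfg]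
  symm
  refine Finset.sum_bij (fun (x : Finset Q × (Q → ℕ)) _ =>
    ((x.1ᶜ.map (OrderDual.toDual (α := Q)).toEmbedding, fun y => x.2 (OrderDual.ofDual y)) :
      Finset Qᵒᵈ × (Qᵒᵈ → ℕ))) ?_ ?_ ?_ ?_
  · rintro ⟨F, e⟩ hx
    rw [mem_cfg] at hx ⊢
    simp only at hx ⊢
    refine ⟨?_, ?_, hx.2.2⟩
    · rw [← hx.1]
      exact Fintype.sum_equiv (OrderDual.ofDual (α := Q)) _ _ (fun _ => rfl)
    · refine vd_flip H hx.2.1 (fun _ => rfl) ?_
      intro x
      rw [mem_map]
      constructor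
      · rintro ⟨y, hy, hyx⟩
        have : y = x := hyx
        rw [← this]
        exact mem_compl.mp hy
      · intro h
        exact ⟨x, mem_compl.mpr h, rfl⟩
  · rintro ⟨F, e⟩ _ ⟨F', e'⟩ _ h
    simp only [Prod.mk.injEq] at h ⊢
    refine ⟨compl_injective (Finset.map_injective _ h.1), ?_⟩
    funext y
    exact congrFun h.2 (OrderDual.toDual y)
  · rintro ⟨G, e⟩ hx
    rw [mem_cfg] at hx
    simp only at hx
    refine ⟨((G.map (OrderDual.ofDual (α := Q)).toEmbedding)ᶜ, fun y => e (OrderDual.toDual y)),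
      ?_, ?_⟩
    · rw [mem_cfg]
      simp only
      refine ⟨?_, ?_, hx.2.2⟩
      · rw [← hx.1]
        exact Fintype.sum_equiv (OrderDual.toDual (α := Q)) _ _ (fun _ => rfl)
      · refine vd_flip' H hi hx.2.1 (fun _ => rfl) ?_
        intro x
        rw [mem_compl, not_not, mem_map]
        constructor
        · intro h
          exact ⟨OrderDual.toDual x, h, rfl⟩
        · rintro ⟨y, hy, hyx⟩
          have : y = OrderDual.toDual x := hyx
          rw [← this]
          exact hy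
    · simp only [Prod.mk.injEq]
      refine ⟨?_, rfl⟩
      rw [compl_compl]
      ext x
      simp only [mem_map, Equiv.coe_toEmbedding]
      constructor
      · rintro ⟨y, ⟨w, hw, hwy⟩, hyx⟩
        have : w = x := by rw [← hyx, ← hwy]; rfl
        rw [← this]
        exact hw
      · intro h
        exact ⟨OrderDual.ofDual x, ⟨x, h, rfl⟩, rfl⟩
  · rintro ⟨F, e⟩ _
    simp only [card_map, card_compl]

/-- divisibility through the flip -/
theorem dvd_SC_flip {r i b n : ℕ} (H : Pure Q r) (hi : i ≤ r) (Φ : (Q → ℕ) → Prop)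
    (h : (1 + X : ℤ[X]) ^ b ∣ SC (fun (e : Qᵒᵈ → ℕ) G => Vd (r - i) e G ∧
      Φ (fun x => e (OrderDual.toDual x))) n) :
    (1 + X : ℤ[X]) ^ b ∣ SC (fun (e : Q → ℕ) F => Vd i e F ∧ Φ e) n := by
  rw [SC_flip H hi] at h
  rw [SC_eq_cfg]
  exact dvd_sum_reflect (fun x _ => Finset.card_le_univ _) h

theorem dvd_Z_flip {r i b n : ℕ} (H : Pure Q r) (hi : i ≤ r)
    (h : (1 + X : ℤ[X]) ^ b ∣ Z Qᵒᵈ (r - i) n) : (1 + X : ℤ[X]) ^ b ∣ Z Q i n := by
  rw [Z_eq_SC] at h ⊢
  have h1 := dvd_SC_flip (b := b) (n := n) H hi (fun _ => True) (by simpa using h)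
  simpa using h1

theorem dvd_Z_flip_lead {r i b n a d : ℕ} (H : Pure Q r) (hi : i ≤ r)
    (had : a + d ≤ Fintype.card Q)
    (h : (1 + X : ℤ[X]) ^ b ∣ Z Qᵒᵈ (r - i) n - X ^ a * (1 + X) ^ d) :
    (1 + X : ℤ[X]) ^ b ∣ Z Q i n - X ^ (Fintype.card Q - a - d) * (1 + X) ^ d := by
  have h1 := SC_flip H hi (fun _ => True) n
  simp only [and_true] at h1
  rw [Z_eq_SC, h1] at h
  rw [Z_eq_SC, SC_eq_cfg]
  exact dvd_sum_reflect_lead (fun x _ => Finset.card_le_univ _) had h

end Flip

end Pool.Agent.GaussPoset
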