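import Pool.Agent.W_448fc_h67.FcB

/-!
The closed stair with a chain: the elements above a common child of the fold end and the
straight end of a stair.  Its dual at window `2 g - 1`.
-/

namespace Pool.Agent.GaussPoset

set_option linter.unusedSectionVars false

open Polynomial Finset

universe u

section General

variable {P : Type u} [Fintype P] [PartialOrder P] [DecidableEq P]

/-- lower sets which contain the unnatural elements -/
theorem dvd_Z_off_of_tops {i : ℕ} {N : Tops P → Finset P} {b : Tops P → ℕ}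
    {θ : Tops P → P → ℕ} {B : Tops P → P → Prop}
    (H : ∀ t, NatTop i t (b t) (N t) (θ t) (B t)) {D : Finset P}
    (hD : Good i (unnat N) (fun x => x ∉ unnat N ∧ B (topOf x) x) D) (n : ℕ) :
    (1 + X : ℤ[X]) ^ (∑ t, b t) ∣ Z {x : P // x ∉ D} i n := by
  classical
  have HN := natSys_of_tops H
  refine dvd_Z_of_dvd_W ?_ n
  refine dvd_W_prod (fun x : {x : P // x ∉ D} => topOf (x : P)) ?_ i b fun k => ?_
  · intro x y hxy
    exact HN.cp x y hxy fun h => x.2 (hD.2.1 h)
  · have h1 : CompData (unnat N) topOf k i (b k) (fun x => θ (topOf x) x)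
        (fun x => x ∉ unnat N ∧ B (topOf x) x) := by
      refine (H k).data N HN rfl _ _ ?_ ?_
      · intro x hx
        simp only [HN.topOf_eq hx]
      · intro x hx
        simp only [HN.topOf_eq hx, (HN.mem_iff.mp hx).1, not_false_eq_true, true_and]
    exact h1.clean D hD inferInstance

lemma Pure.gradedBelow_dual {r : ℕ} (H : Pure P r) : GradedBelow Pᵒᵈ := by
  intro a b hab
  obtain ⟨v, hv1, hv2⟩ := exists_covBy_le (show (OrderDual.ofDual b : P) < OrderDual.ofDual a
    from hab)
  refine ⟨OrderDual.toDual v, hv2, hv1.1, ?_⟩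
  have h1 := H.gr _ _ hv1
  have h2 := H.co v
  have h3 := H.co (OrderDual.ofDual b)
  have e1 : OrderDual.toDual (OrderDual.ofDual b) = b := rfl
  rw [e1] at h3
  omega

end General

/-- the cells `s ≤ c ≤ m` and `(0, c)`, `c ≤ 2 m` -/
structure TriS (T : Type u) [Fintype T] [PartialOrder T] (m : ℕ) (co : T → ℕ × ℕ) : Prop where
  inj : ∀ x y, co x = co y → x = y
  le_iff : ∀ x y, x ≤ y ↔ co y ≤ co x
  fst_le : ∀ x, (co x).1 ≤ (co x).2
  snd_le : ∀ x, (co x).2 ≤ m ∨ ((co x).1 = 0 ∧ (co x).2 ≤ 2 * m)
  ex : ∀ s c, s ≤ c → (c ≤ m ∨ (s = 0 ∧ c ≤ 2 * m)) → ∃ x, co x = (s, c)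

namespace TriS

variable {T : Type u} [Fintype T] [PartialOrder T] [DecidableEq T] {m : ℕ} {co : T → ℕ × ℕ}

lemma lt_sum (H : TriS T m co) {x y : T} (h : x < y) :
    (co y).1 + (co y).2 < (co x).1 + (co x).2 := by
  have h1 := (H.le_iff x y).mp h.le
  have h2 : co y ≠ co x := fun h' => h.ne' (H.inj _ _ h')
  have h3 := h1.1
  have h4 := h1.2
  by_contra hcon
  exact h2 (Prod.ext (by omega) (by omega))

lemma le_of (H : TriS T m co) {x y : T} {s c : ℕ} (hy : co y = (s, c)) (h1 : s ≤ (co x).1)
    (h2 : c ≤ (co x).2) : x ≤ y := by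
  rw [H.le_iff, hy]
  exact ⟨h1, h2⟩

lemma lev_eq (H : TriS T m co) (x : T) : lev x = (co x).1 + (co x).2 := by
  refine lev_eq_of (f := fun x => (co x).1 + (co x).2) (fun a b hab => H.lt_sum hab) ?_ x
  intro x hx
  have h1 := H.fst_le x
  have h2 := H.snd_le x
  rcases Nat.eq_zero_or_pos (co x).1 with h3 | h3
  · simp only [h3] at hx
    obtain ⟨y, hy⟩ := H.ex 0 ((co x).2 - 1) (Nat.zero_le _) (by omega)
    have hle : x ≤ y := H.le_of hy (Nat.zero_le _) (Nat.sub_le _ _)
    refine ⟨y, lt_of_le_of_ne hle ?_, ?_⟩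
    · rintro rfl
      rw [hy] at hx
      simp only at hx
      have := congrArg Prod.snd hy
      simp only at this
      omega
    · simp only [hy, h3]
      omega
  · obtain ⟨y, hy⟩ := H.ex ((co x).1 - 1) (co x).2 (by omega) (by omega)
    have hle : x ≤ y := H.le_of hy (Nat.sub_le _ _) le_rfl
    refine ⟨y, lt_of_le_of_ne hle ?_, ?_⟩
    · rintro rfl
      have := congrArg Prod.fst hy
      simp only at this
      omega
    · simp only [hy]
      omega

lemma sum_le (H : TriS T m co) (x : T) : (co x).1 + (co x).2 ≤ 2 * m := by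
  have h1 := H.fst_le x
  have h2 := H.snd_le x
  omega

lemma colev_eq (H : TriS T m co) (hm : 1 ≤ m) (x : T) :
    lev (OrderDual.toDual x) = 2 * m - ((co x).1 + (co x).2) := by
  have key := lev_eq_of (Q := Tᵒᵈ)
    (f := fun a => 2 * m - ((co (OrderDual.ofDual a)).1 + (co (OrderDual.ofDual a)).2)) ?_ ?_
    (OrderDual.toDual x)
  · rw [key]
    rfl
  · intro a b hab
    have h1 := H.lt_sum (show (OrderDual.ofDual b : T) < OrderDual.ofDual a from hab)
    have h2 := H.sum_le (OrderDual.ofDual b)
    simp only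
    omega
  · intro a ha
    set x := OrderDual.ofDual a with hx
    have h1 := H.fst_le x
    have h2 := H.snd_le x
    have h3 := H.sum_le x
    by_cases h4 : (co x).2 = m
    · obtain ⟨y, hy⟩ := H.ex ((co x).1 + 1) (co x).2 (by omega) (Or.inl (by omega))
      have hle : y ≤ x := by
        rw [H.le_iff, hy]
        exact ⟨Nat.le_succ _, le_rfl⟩
      refine ⟨OrderDual.toDual y, lt_of_le_of_ne hle ?_, ?_⟩
      · intro h
        have e1 : x = y := by rw [hx, h]; rfl
        rw [← e1] at hy
        have := congrArg Prod.fst hy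
        simp only at this
        omega
      · have e1 : OrderDual.ofDual (OrderDual.toDual y) = y := rfl
        simp only [e1, hy]
        omega
    · obtain ⟨y, hy⟩ := H.ex (co x).1 ((co x).2 + 1) (by omega) (by omega)
      have hle : y ≤ x := by
        rw [H.le_iff, hy]
        exact ⟨le_rfl, Nat.le_succ _⟩
      refine ⟨OrderDual.toDual y, lt_of_le_of_ne hle ?_, ?_⟩
      · intro h
        have e1 : x = y := by rw [hx, h]; rfl
        rw [← e1] at hy
        have := congrArg Prod.snd hy
        simp only at this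
        omega
      · have e1 : OrderDual.ofDual (OrderDual.toDual y) = y := rfl
        simp only [e1, hy]
        omega

lemma graded (H : TriS T m co) : GradedBelow T := by
  intro z x hzx
  have h1 := (H.le_iff z x).mp hzx.le
  have h3 := h1.1
  have h4 := h1.2
  have h5 := H.fst_le x
  have h6 := H.fst_le z
  have h7 := H.snd_le z
  have h8 := H.lt_sum hzx
  by_cases hc : (co x).2 < (co z).2
  · obtain ⟨w, hw⟩ := H.ex (co x).1 ((co x).2 + 1) (by omega) (by omega)
    have hzw : z ≤ w := H.le_of hw h3 (by omega)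
    have hwx : w ≤ x := by
      rw [H.le_iff, hw]
      exact ⟨le_rfl, Nat.le_succ _⟩
    refine ⟨w, hzw, lt_of_le_of_ne hwx ?_, ?_⟩
    · rintro rfl
      have := congrArg Prod.snd hw
      simp only at this
      omega
    · rw [H.lev_eq, H.lev_eq, hw]
      simp only
      omega
  · obtain ⟨w, hw⟩ := H.ex ((co x).1 + 1) (co x).2 (by omega) (by omega)
    have hzw : z ≤ w := H.le_of hw (by omega) (by omega)
    have hwx : w ≤ x := by
      rw [H.le_iff, hw]
      exact ⟨Nat.le_succ _, le_rfl⟩
    refine ⟨w, hzw, lt_of_le_of_ne hwx ?_, ?_⟩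
    · rintro rfl
      have := congrArg Prod.fst hw
      simp only at this
      omega
    · rw [H.lev_eq, H.lev_eq, hw]
      simp only
      omega

lemma pure (H : TriS T m co) (hm : 1 ≤ m) : Pure T (2 * m) where
  gr := fun x y hxy => H.graded.lev_covBy hxy
  co := by
    intro x
    have h1 := H.sum_le x
    rw [H.colev_eq hm, H.lev_eq]
    omega

/-- coordinates in the dual -/
def dco (m : ℕ) (co : T → ℕ × ℕ) (a : Tᵒᵈ) : ℕ × ℕ :=
  (m - (co (OrderDual.ofDual a)).2, m - (co (OrderDual.ofDual a)).1)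

open Classical in
/-- the cells of the rows `≥ 1` -/
noncomputable def dN (co : T → ℕ × ℕ) : Finset Tᵒᵈ :=
  univ.filter (fun a => 1 ≤ (co (OrderDual.ofDual a)).1)

lemma mem_dN {a : Tᵒᵈ} : a ∈ dN co ↔ 1 ≤ (co (OrderDual.ofDual a)).1 := by
  classical
  unfold dN
  simp

/-- the chart of the dual -/
lemma dchart (H : TriS T m co) (hm : 1 ≤ m) {tF : Tᵒᵈ} (hF : co (OrderDual.ofDual tF) = (m, m)) :
    Chart tF (fun c => c.1 ≤ c.2) (dN co) (dco m co) := by
  have hle : ∀ a : Tᵒᵈ, a ∈ dN co → 1 ≤ (co (OrderDual.ofDual a)).1 ∧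
      (co (OrderDual.ofDual a)).1 ≤ (co (OrderDual.ofDual a)).2 ∧
      (co (OrderDual.ofDual a)).2 ≤ m := by
    intro a ha
    rw [mem_dN] at ha
    have h1 := H.fst_le (OrderDual.ofDual a)
    have h2 := H.snd_le (OrderDual.ofDual a)
    omega
  have hord : ∀ a b : Tᵒᵈ, a ≤ b ↔ co (OrderDual.ofDual a) ≤ co (OrderDual.ofDual b) := by
    intro a b
    exact H.le_iff (OrderDual.ofDual b) (OrderDual.ofDual a)
  constructor
  · intro x hx y hxy
    rw [hord] at hxy
    rw [mem_dN] at hx ⊢
    exact hx.trans hxy.1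
  · intro x hx
    have h1 := hle x hx
    rw [hord, hF]
    exact ⟨by simp only; omega, by simp only; omega⟩
  · intro x hx y hy h
    have h1 := hle x hx
    have h2 := hle y hy
    unfold dco at h
    rw [Prod.mk.injEq] at h
    have : OrderDual.ofDual x = OrderDual.ofDual y :=
      H.inj _ _ (Prod.ext (by omega) (by omega))
    exact this
  · intro x hx y hy
    have h1 := hle x hx
    have h2 := hle y hy
    rw [hord]
    unfold dco
    rw [Prod.le_def, Prod.le_def]
    simp only
    omega
  · intro x hx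
    have h1 := hle x hx
    show m - (co (OrderDual.ofDual x)).2 ≤ m - (co (OrderDual.ofDual x)).1
    omega
  · intro x hx c hc hS
    have h1 := hle x hx
    have h2 : c.1 ≤ m - (co (OrderDual.ofDual x)).2 := hc.1
    have h3 : c.2 ≤ m - (co (OrderDual.ofDual x)).1 := hc.2
    have h4 : c.1 ≤ c.2 := hS
    obtain ⟨y, hy⟩ := H.ex (m - c.2) (m - c.1) (by omega) (Or.inl (Nat.sub_le _ _))
    refine ⟨OrderDual.toDual y, ?_, ?_⟩
    · rw [mem_dN]
      have e1 : OrderDual.ofDual (OrderDual.toDual y) = y := rfl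
      rw [e1, hy]
      simp only
      omega
    · unfold dco
      have e1 : OrderDual.ofDual (OrderDual.toDual y) = y := rfl
      rw [e1, hy]
      exact Prod.ext (by simp only; omega) (by simp only; omega)
  · intro x hx
    have h1 := hle x hx
    have h2 := H.colev_eq hm (OrderDual.ofDual x)
    have e1 : OrderDual.toDual (OrderDual.ofDual x) = x := rfl
    rw [e1] at h2
    rw [h2]
    unfold dco
    simp only
    omega

end TriS

end Pool.Agent.GaussPoset
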