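import Pool.Agent.W_448fc_h67.FcC

/-!
The dual of the closed stair with a chain: natural sets of the two tops, far window theorem.
-/

namespace Pool.Agent.GaussPoset

set_option linter.unusedSectionVars false

open Polynomial Finset

universe u

namespace TriS

variable {T : Type u} [Fintype T] [PartialOrder T] [DecidableEq T] {m g u : ℕ} {co : T → ℕ × ℕ}

/-- data of the top of the dual which is the fold end -/
structure FoldTop (co : T → ℕ × ℕ) (m g u : ℕ) (tF : Tops Tᵒᵈ) (N : Finset Tᵒᵈ) (θ : Tᵒᵈ → ℕ)
    (B : Tᵒᵈ → Prop) : Prop where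
  nat : NatTop (2 * g - 1) tF g N θ B
  mem : ∀ a : Tᵒᵈ, 1 ≤ (co (OrderDual.ofDual a)).1 → a ∈ N
  th : ∀ a : Tᵒᵈ, co (OrderDual.ofDual a) = (1, m) → θ a = u
  th' : ∀ a : Tᵒᵈ, (co (OrderDual.ofDual a)).1 = 1 → u ≤ θ a
  base : ∀ a, B a → u + 1 ≤ (co (OrderDual.ofDual a)).1

lemma exists_fold (H : TriS T m co) (hm : m = 2 * g + u) (hu : u ≤ 1) (hg : 1 ≤ g)
    (hgu : g = 1 → u = 0) {tF : Tops Tᵒᵈ} (hF : co (OrderDual.ofDual (tF : Tᵒᵈ)) = (m, m)) :
    ∃ N θ B, FoldTop co m g u tF N θ B := by
  have hm1 : 1 ≤ m := by omega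
  have hP := H.pure hm1
  have hgr := hP.gradedBelow_dual
  have hlev : ∀ a : Tᵒᵈ, lev a = 2 * m - ((co (OrderDual.ofDual a)).1 +
      (co (OrderDual.ofDual a)).2) := fun a => H.colev_eq hm1 (OrderDual.ofDual a)
  have hord : ∀ a b : Tᵒᵈ, a ≤ b ↔ co (OrderDual.ofDual a) ≤ co (OrderDual.ofDual b) := by
    intro a b
    exact H.le_iff (OrderDual.ofDual b) (OrderDual.ofDual a)
  have hlow : ∀ x, x ≤ (tF : Tᵒᵈ) → lev x ≤ 2 * g - 1 → 1 ≤ (co (OrderDual.ofDual x)).1 := by
    intro x hx hl
    rw [hord, hF] at hx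
    have h1 : (co (OrderDual.ofDual x)).2 ≤ m := hx.2
    have h2 := H.sum_le (OrderDual.ofDual x)
    rw [hlev] at hl
    omega
  by_cases hg1 : g = 1
  · have hu0 := hgu hg1
    subst hg1 hu0
    have honly : ∀ a : Tᵒᵈ, 1 ≤ (co (OrderDual.ofDual a)).1 → a ∈ onlyB tF := by
      intro a ha
      rw [mem_onlyB]
      intro s hs has
      rw [hord] at has
      rw [hlev] at hs
      have h1 := H.sum_le (OrderDual.ofDual s)
      have h2 := H.snd_le (OrderDual.ofDual s)
      have h3 := H.fst_le (OrderDual.ofDual s)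
      have h4 := has.1
      have h5 : OrderDual.ofDual s = OrderDual.ofDual (tF : Tᵒᵈ) := by
        apply H.inj
        rw [hF]
        exact Prod.ext (by simp only; omega) (by simp only; omega)
      exact h5
    refine ⟨onlyB tF, fun x => lev x - (2 * 1 - 1), fun _ => False, ?_, honly, ?_, ?_, ?_⟩
    · refine natTop_light hgr (fun x hx hl => honly x (hlow x hx hl)) ?_
      obtain ⟨y, hy⟩ := H.ex 1 2 (by norm_num) (Or.inl (by omega))
      refine ⟨OrderDual.toDual y, ?_, ?_⟩
      · rw [hord, hF]
        have e1 : OrderDual.ofDual (OrderDual.toDual y) = y := rfl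
        rw [e1, hy]
        exact ⟨by simp only; omega, by simp only; omega⟩
      · rw [hlev]
        have e1 : OrderDual.ofDual (OrderDual.toDual y) = y := rfl
        rw [e1, hy]
        simp only
        omega
    · intro a ha
      simp only [hlev, ha]
      omega
    · intro a _
      exact Nat.zero_le _
    · intro a h
      exact h.elim
  · have C := H.dchart hm1 hF
    have hi2 : (2 * g - 1) / 2 = g - 1 := by omega
    refine ⟨natS (dN co) (dco m co), thS (2 * g - 1) (dN co) (dco m co),
      fun x => x ∈ dN co ∧ dco m co x = (2 * ((2 * g - 1) / 2), 2 * g - 1), ?_, ?_, ?_, ?_, ?_⟩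
    · have hb : g = (2 * g - 1) / 2 + 1 := by omega
      have key := natTop_stair (i := 2 * g - 1) hgr C (by omega) ?_
        (fun x hx hl => mem_dN.mpr (hlow x hx hl))
      · rw [← hb] at key
        exact key
      · obtain ⟨y, hy⟩ := H.ex (u + 1) (u + 2) (by omega) (Or.inl (by omega))
        refine ⟨OrderDual.toDual y, ?_, ?_⟩
        · rw [mem_dN]
          have e1 : OrderDual.ofDual (OrderDual.toDual y) = y := rfl
          rw [e1, hy]
          simp only
          omega
        · unfold dco
          have e1 : OrderDual.ofDual (OrderDual.toDual y) = y := rfl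
          rw [e1, hy]
          exact Prod.ext (by simp only; omega) (by simp only; omega)
    · intro a ha
      exact mem_natS.mpr (Or.inl (mem_dN.mpr ha))
    · intro a ha
      unfold thS dco
      rw [hlev, ha]
      split_ifs <;> (try simp only) <;> omega
    · intro a ha
      have h1 := H.fst_le (OrderDual.ofDual a)
      have h2 := H.snd_le (OrderDual.ofDual a)
      unfold thS dco
      rw [hlev, ha]
      split_ifs <;> (try simp only) <;> omega
    · rintro a ⟨h1, h2⟩
      have h3 := congrArg Prod.fst h2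
      have h4 := congrArg Prod.snd h2
      unfold dco at h3 h4
      simp only at h3 h4
      have h5 := H.fst_le (OrderDual.ofDual a)
      have h6 := mem_dN.mp h1
      have h7 := H.snd_le (OrderDual.ofDual a)
      omega

end TriS

end Pool.Agent.GaussPoset
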