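import Pool.Agent.W_448fc_h67.FcD

/-!
The system of the dual and the exact first pole.
-/

namespace Pool.Agent.GaussPoset

set_option linter.unusedSectionVars false

open Polynomial Finset

universe u

lemma covBy_of_lev {Q : Type u} [Fintype Q] [PartialOrder Q] {x y : Q} (h : x < y)
    (hl : lev x = lev y + 1) : x ⋖ y := by
  refine ⟨h, fun w h1 h2 => ?_⟩
  have h3 := lev_strictAnti h1
  have h4 := lev_strictAnti h2
  omega

/-- freezing the elements below a set of points at label zero -/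
lemma cst_zero_iff {Q : Type u} [Fintype Q] [PartialOrder Q] [DecidableEq Q] {i : ℕ}
    {D : Finset Q} {V : Q → Prop} (hD : ∀ x, x ∈ D ↔ ∃ v, V v ∧ x ≤ v)
    (hV : ∀ v, V v → i < lev v) (e : Q → ℕ) (F : Finset Q) :
    Cst i D 0 0 e F ↔ Vd i e F ∧ ∀ v, V v → e v = 0 := by
  constructor
  · rintro ⟨h1, h2, -⟩
    exact ⟨h1, fun v hv => (h2 v ((hD v).mpr ⟨v, hv, le_rfl⟩)).2⟩
  · rintro ⟨h1, h2⟩
    refine ⟨h1, ?_, fun x _ hx => by simpa using h1.2.1 x hx⟩
    intro x hx
    obtain ⟨v, hv, hxv⟩ := (hD x).mp hx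
    have hvF : v ∉ F := by
      intro h
      have h3 := sub_le_of_mem h1 h
      rw [h2 v hv] at h3
      have := hV v hv
      omega
    have hxF : x ∉ F := fun h => hvF (h1.1 x v hxv h)
    have hlx : i < lev x := by
      rcases eq_or_lt_of_le hxv with h | h
      · rw [h]; exact hV v hv
      · exact (hV v hv).trans (lev_strictAnti h)
    refine ⟨hxF, ?_⟩
    have h3 := h1.2.2.1 x v hxv hxF hvF
    rw [rho_of_lt hlx, rho_of_lt (hV v hv), h2 v hv] at h3
    have h4 : e x = 0 := by omega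
    exact h4

namespace TriS

variable {T : Type u} [Fintype T] [PartialOrder T] [DecidableEq T] {m g u : ℕ} {co : T → ℕ × ℕ}

lemma dlev (H : TriS T m co) (hm1 : 1 ≤ m) (a : Tᵒᵈ) : lev a =
    2 * m - ((co (OrderDual.ofDual a)).1 + (co (OrderDual.ofDual a)).2) :=
  H.colev_eq hm1 (OrderDual.ofDual a)

lemma dle (H : TriS T m co) (a b : Tᵒᵈ) :
    a ≤ b ↔ co (OrderDual.ofDual a) ≤ co (OrderDual.ofDual b) :=
  H.le_iff (OrderDual.ofDual b) (OrderDual.ofDual a)

lemma dinj (H : TriS T m co) {a b : Tᵒᵈ} (h : co (OrderDual.ofDual a) = co (OrderDual.ofDual b)) :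
    a = b := H.inj _ _ h

lemma dex (H : TriS T m co) (s c : ℕ) (h1 : s ≤ c) (h2 : c ≤ m ∨ (s = 0 ∧ c ≤ 2 * m)) :
    ∃ a : Tᵒᵈ, co (OrderDual.ofDual a) = (s, c) := by
  obtain ⟨x, hx⟩ := H.ex s c h1 h2
  exact ⟨OrderDual.toDual x, hx⟩

/-- the system of the dual -/
structure Sys (co : T → ℕ × ℕ) (m g u : ℕ) (N : Tops Tᵒᵈ → Finset Tᵒᵈ) (b : Tops Tᵒᵈ → ℕ)
    (θ : Tops Tᵒᵈ → Tᵒᵈ → ℕ) (B : Tops Tᵒᵈ → Tᵒᵈ → Prop) : Prop where
  nat : ∀ t, NatTop (2 * g - 1) t (b t) (N t) (θ t) (B t)
  sum_b : ∑ t, b t = g + 1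
  un : ∀ a, a ∈ unnat N ↔ (co (OrderDual.ofDual a)).1 = 0 ∧ (co (OrderDual.ofDual a)).2 ≤ m
  th1 : ∀ a, co (OrderDual.ofDual a) = (1, m) → θ (topOf a) a = u
  th1' : ∀ a, (co (OrderDual.ofDual a)).1 = 1 → u ≤ θ (topOf a) a
  th0 : ∀ a, co (OrderDual.ofDual a) = (0, m + 1) → θ (topOf a) a = u
  base : ∀ a, a ∉ unnat N → B (topOf a) a → u + 1 ≤ (co (OrderDual.ofDual a)).1

theorem exists_sys (H : TriS T m co) (hm : m = 2 * g + u) (hu : u ≤ 1) (hg : 1 ≤ g)
    (hgu : g = 1 → u = 0) : ∃ N b θ B, Sys co m g u N b θ B := by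
  classical
  have hm1 : 1 ≤ m := by omega
  have hP := H.pure hm1
  have hgr := hP.gradedBelow_dual
  obtain ⟨xF, hxF⟩ := H.dex m m le_rfl (Or.inl le_rfl)
  obtain ⟨xS, hxS⟩ := H.dex 0 (2 * m) (Nat.zero_le _) (Or.inr ⟨rfl, le_rfl⟩)
  have hF0 : lev xF = 0 := by rw [H.dlev hm1, hxF]; simp only; omega
  have hS0 : lev xS = 0 := by rw [H.dlev hm1, hxS]; simp only; omega
  let tF : Tops Tᵒᵈ := ⟨xF, hF0⟩
  let tS : Tops Tᵒᵈ := ⟨xS, hS0⟩
  have hFS : tF ≠ tS := by
    intro h
    have h1 : xF = xS := congrArg Subtype.val h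
    rw [h1, hxS, Prod.mk.injEq] at hxF
    omega
  have htop : ∀ t : Tops Tᵒᵈ, t = tF ∨ t = tS := by
    intro t
    have h0 := t.2
    rw [H.dlev hm1] at h0
    have h1 := H.sum_le (OrderDual.ofDual (t : Tᵒᵈ))
    have h2 := H.snd_le (OrderDual.ofDual (t : Tᵒᵈ))
    have h3 := H.fst_le (OrderDual.ofDual (t : Tᵒᵈ))
    rcases Nat.lt_or_ge m (co (OrderDual.ofDual (t : Tᵒᵈ))).2 with h4 | h4
    · right
      apply Subtype.ext
      apply H.dinj
      show co (OrderDual.ofDual (t : Tᵒᵈ)) = co (OrderDual.ofDual xS)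
      rw [hxS]
      exact Prod.ext (by simp only; omega) (by simp only; omega)
    · left
      apply Subtype.ext
      apply H.dinj
      show co (OrderDual.ofDual (t : Tᵒᵈ)) = co (OrderDual.ofDual xF)
      rw [hxF]
      exact Prod.ext (by simp only; omega) (by simp only; omega)
  obtain ⟨NF, θF, BF, HF⟩ := H.exists_fold hm hu hg hgu (tF := tF) hxF
  -- the straight end
  have honlyS : ∀ a : Tᵒᵈ, m < (co (OrderDual.ofDual a)).2 → a ∈ onlyB tS := by
    intro a ha
    rw [mem_onlyB]
    intro s hs has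
    rcases htop ⟨s, hs⟩ with h | h
    · exfalso
      have h1 : s = xF := congrArg Subtype.val h
      rw [h1, H.dle, hxF] at has
      have := has.2
      simp only at this
      omega
    · exact congrArg Subtype.val h
  have HS : NatTop (2 * g - 1) tS 1 (onlyB tS) (fun x => lev x - (2 * g - 1)) (fun _ => False) := by
    refine natTop_light hgr ?_ ?_
    · intro x hx hl
      apply honlyS
      have h1 := (H.dle x xS).mp hx
      rw [hxS] at h1
      have h2 := h1.1
      simp only at h2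
      rw [H.dlev hm1] at hl
      omega
    · obtain ⟨y, hy⟩ := H.dex 0 (m + u + 1) (Nat.zero_le _) (Or.inr ⟨rfl, by omega⟩)
      refine ⟨y, ?_, ?_⟩
      · show y ≤ xS
        rw [H.dle, hy, hxS]
        exact ⟨le_rfl, by simp only; omega⟩
      · rw [H.dlev hm1, hy]
        simp only
        omega
  let N : Tops Tᵒᵈ → Finset Tᵒᵈ := fun t => if t = tF then NF else onlyB tS
  let b : Tops Tᵒᵈ → ℕ := fun t => if t = tF then g else 1
  let θ : Tops Tᵒᵈ → Tᵒᵈ → ℕ := fun t => if t = tF then θF else fun x => lev x - (2 * g - 1)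
  let B : Tops Tᵒᵈ → Tᵒᵈ → Prop := fun t => if t = tF then BF else fun _ => False
  have hNF : N tF = NF := if_pos rfl
  have hNS : N tS = onlyB tS := if_neg hFS.symm
  have hnat : ∀ t, NatTop (2 * g - 1) t (b t) (N t) (θ t) (B t) := by
    intro t
    rcases htop t with h | h
    · subst h
      show NatTop (2 * g - 1) tF (if tF = tF then g else 1) (if tF = tF then NF else onlyB tS)
        (if tF = tF then θF else fun x => lev x - (2 * g - 1))
        (if tF = tF then BF else fun _ => False)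
      rw [if_pos rfl, if_pos rfl, if_pos rfl, if_pos rfl]
      exact HF.nat
    · subst h
      show NatTop (2 * g - 1) tS (if tS = tF then g else 1) (if tS = tF then NF else onlyB tS)
        (if tS = tF then θF else fun x => lev x - (2 * g - 1))
        (if tS = tF then BF else fun _ => False)
      rw [if_neg hFS.symm, if_neg hFS.symm, if_neg hFS.symm, if_neg hFS.symm]
      exact HS
  have HN := natSys_of_tops hnat
  have hun : ∀ a, a ∈ unnat N ↔
      (co (OrderDual.ofDual a)).1 = 0 ∧ (co (OrderDual.ofDual a)).2 ≤ m := by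
    intro a
    rw [mem_unnat]
    constructor
    · intro h
      have h1 := h tF
      have h2 := h tS
      rw [hNF] at h1
      rw [hNS] at h2
      constructor
      · by_contra hcon
        exact h1 (HF.mem a (Nat.one_le_iff_ne_zero.mpr hcon))
      · by_contra hcon
        exact h2 (honlyS a (not_le.mp hcon))
    · rintro ⟨h1, h2⟩ t ht
      have haF : a ≤ xF := by
        rw [H.dle, hxF]
        exact ⟨by simp only; omega, h2⟩
      have haS : a ≤ xS := by
        rw [H.dle, hxS]
        exact ⟨by simp only; omega, by simp only; omega⟩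
      have e1 := HN.top_eq ht hF0 haF
      have e2 := HN.top_eq ht hS0 haS
      exact hFS (Subtype.ext (e1.trans e2.symm))
  have htopF : ∀ a, 1 ≤ (co (OrderDual.ofDual a)).1 → topOf a = tF := by
    intro a ha
    have h1 : a ∈ N tF := by rw [hNF]; exact HF.mem a ha
    exact HN.topOf_eq h1
  refine ⟨N, b, θ, B, hnat, ?_, hun, ?_, ?_, ?_, ?_⟩
  · have h1 : (univ : Finset (Tops Tᵒᵈ)) = {tF, tS} := by
      ext t
      simp only [mem_univ, mem_insert, mem_singleton, true_iff]
      exact htop t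
    rw [h1, Finset.sum_pair hFS]
    show (if tF = tF then g else 1) + (if tS = tF then g else 1) = g + 1
    rw [if_pos rfl, if_neg hFS.symm]
  · intro a ha
    rw [htopF a (by rw [ha])]
    show (if tF = tF then θF else fun x => lev x - (2 * g - 1)) a = u
    rw [if_pos rfl]
    exact HF.th a ha
  · intro a ha
    rw [htopF a (by rw [ha])]
    show u ≤ (if tF = tF then θF else fun x => lev x - (2 * g - 1)) a
    rw [if_pos rfl]
    exact HF.th' a ha
  · intro a ha
    have h1 : topOf a = tS := by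
      have h2 : a ∈ N tS := by
        rw [hNS]
        exact honlyS a (by rw [ha]; exact Nat.lt_succ_self m)
      exact HN.topOf_eq h2
    rw [h1]
    show (if tS = tF then θF else fun x => lev x - (2 * g - 1)) a = u
    rw [if_neg hFS.symm]
    show lev a - (2 * g - 1) = u
    rw [H.dlev hm1, ha]
    simp only
    omega
  · intro a ha hB
    rcases htop (topOf a) with h | h
    · rw [h] at hB
      have : (if tF = tF then BF else fun _ => False) a := hB
      rw [if_pos rfl] at this
      exact HF.base a this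
    · rw [h] at hB
      have : (if tS = tF then BF else fun _ => False) a := hB
      rw [if_neg hFS.symm] at this
      exact this.elim

end TriS

end Pool.Agent.GaussPoset
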