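import Pool.Agent.W_448fc_h67.FcE

/-!
Costs in the dual; the first pole of the closed stair with a chain.
-/

namespace Pool.Agent.GaussPoset

set_option linter.unusedSectionVars false

open Polynomial Finset

universe u

namespace TriS

variable {T : Type u} [Fintype T] [PartialOrder T] [DecidableEq T] {m g u : ℕ} {co : T → ℕ × ℕ}
  {N : Tops Tᵒᵈ → Finset Tᵒᵈ} {b : Tops Tᵒᵈ → ℕ} {θ : Tops Tᵒᵈ → Tᵒᵈ → ℕ}
  {B : Tops Tᵒᵈ → Tᵒᵈ → Prop}

/-- numbers of elements above the element `(0, m)` of the dual -/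
lemma nab_corner (H : TriS T m co) (hm1 : 1 ≤ m) {a : Tᵒᵈ}
    (ha : co (OrderDual.ofDual a) = (0, m)) {k : ℕ} (hk : k < m) : nab k a = 2 := by
  classical
  obtain ⟨x, hx⟩ := H.dex 0 (2 * m - k) (Nat.zero_le _) (Or.inr ⟨rfl, Nat.sub_le _ _⟩)
  obtain ⟨y, hy⟩ := H.dex (m - k) m (Nat.sub_le _ _) (Or.inl le_rfl)
  have hne : x ≠ y := by
    rintro rfl
    rw [hx, Prod.mk.injEq] at hy
    omega
  unfold nab
  have h1 : (lv Tᵒᵈ k).filter (fun w => a ≤ w) = {x, y} := by
    ext w
    rw [mem_filter, mem_lv, mem_insert, mem_singleton, H.dlev hm1, H.dle, ha]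
    constructor
    · rintro ⟨h1, h2⟩
      have h3 := h2.2
      simp only at h3
      have h4 := H.snd_le (OrderDual.ofDual w)
      have h5 := H.sum_le (OrderDual.ofDual w)
      have h6 := H.fst_le (OrderDual.ofDual w)
      rcases Nat.eq_zero_or_pos (co (OrderDual.ofDual w)).1 with h7 | h7
      · left
        apply H.dinj
        rw [hx]
        exact Prod.ext h7 (by simp only; omega)
      · right
        apply H.dinj
        rw [hy]
        exact Prod.ext (by simp only; omega) (by simp only; omega)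
    · rintro (rfl | rfl)
      · rw [hx]
        exact ⟨by simp only; omega, ⟨le_rfl, by simp only; omega⟩⟩
      · rw [hy]
        exact ⟨by simp only; omega, ⟨Nat.zero_le _, le_rfl⟩⟩
  rw [h1, Finset.card_pair hne]

/-- the number of sites -/
lemma card_sites (H : TriS T m co) (hm : m = 2 * g + u) (hu : u ≤ 1) (hg : 1 ≤ g) :
    (lv Tᵒᵈ (2 * g - 1)).card = g + 1 := by
  classical
  have hm1 : 1 ≤ m := by omega
  have hinj : Set.InjOn (fun a : Tᵒᵈ => (co (OrderDual.ofDual a)).2) (lv Tᵒᵈ (2 * g - 1)) := by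
    intro a ha a' ha' h
    rw [Finset.mem_coe, mem_lv, H.dlev hm1] at ha ha'
    simp only at h
    have h1 := H.sum_le (OrderDual.ofDual a)
    have h2 := H.sum_le (OrderDual.ofDual a')
    apply H.dinj
    exact Prod.ext (by omega) h
  rw [← Finset.card_image_of_injOn hinj]
  have h1 : (lv Tᵒᵈ (2 * g - 1)).image (fun a : Tᵒᵈ => (co (OrderDual.ofDual a)).2) =
      insert (m + u + 1) (Icc (g + u + 1) m) := by
    ext c
    rw [mem_image, mem_insert, mem_Icc]
    constructor
    · rintro ⟨a, ha, rfl⟩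
      rw [mem_lv, H.dlev hm1] at ha
      have h1 := H.sum_le (OrderDual.ofDual a)
      have h2 := H.snd_le (OrderDual.ofDual a)
      have h3 := H.fst_le (OrderDual.ofDual a)
      omega
    · intro hc
      by_cases hcm : c ≤ m
      · obtain ⟨a, ha⟩ := H.dex (m + u + 1 - c) c (by omega) (Or.inl hcm)
        refine ⟨a, ?_, by rw [ha]⟩
        rw [mem_lv, H.dlev hm1, ha]
        simp only
        omega
      · obtain ⟨a, ha⟩ := H.dex 0 c (Nat.zero_le _) (Or.inr ⟨rfl, by omega⟩)
        refine ⟨a, ?_, by rw [ha]⟩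
        rw [mem_lv, H.dlev hm1, ha]
        simp only
        omega
  rw [h1, Finset.card_insert_of_notMem (by rw [mem_Icc]; omega), Nat.card_Icc]
  omega

section Costs

variable (H : TriS T m co) (hm : m = 2 * g + u) (hu : u ≤ 1) (hg : 1 ≤ g)
  (S : Sys co m g u N b θ B)

include H hm hg S in
lemma th_ge {a x : Tᵒᵈ} (ha : a ∈ unnat N) (hx : x ∉ unnat N) (hax : a ⋖ x) :
    u ≤ θ (topOf x) x := by
  have hm1 : 1 ≤ m := by omega
  have hgr := (H.pure hm1).gradedBelow_dual
  have h1 := hgr.lev_covBy hax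
  rw [H.dlev hm1, H.dlev hm1] at h1
  have h2 := (H.dle a x).mp hax.1.le
  rw [S.un] at ha hx
  have h3 := H.sum_le (OrderDual.ofDual a)
  have h4 := H.sum_le (OrderDual.ofDual x)
  have h5 := h2.1
  have h6 := h2.2
  have h7 := H.snd_le (OrderDual.ofDual x)
  rcases Nat.eq_zero_or_pos (co (OrderDual.ofDual x)).1 with h8 | h8
  · have h9 : co (OrderDual.ofDual x) = (0, m + 1) := Prod.ext h8 (by simp only; omega)
    rw [S.th0 x h9]
  · exact S.th1' x (by omega)

include H hm hg S in
lemma hcan_ge {a : Tᵒᵈ} (ha : a ∈ bdR (unnat N)) :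
    u + 1 ≤ hcan (unnat N) (fun x => θ (topOf x) x) a := by
  classical
  obtain ⟨x, hx, hax, h1⟩ := hcan_spec (θ := fun x => θ (topOf x) x) ha
  rw [h1]
  have := th_ge H hm hg S (mem_filter.mp ha).1 hx hax
  omega

include H hm hg S in
lemma corner_bd {a : Tᵒᵈ} (ha : co (OrderDual.ofDual a) = (0, m)) :
    a ∈ bdR (unnat N) ∧ hcan (unnat N) (fun x => θ (topOf x) x) a = u + 1 := by
  classical
  have hm1 : 1 ≤ m := by omega
  obtain ⟨x, hx⟩ := H.dex 1 m hm1 (Or.inl le_rfl)
  have hxN : x ∉ unnat N := by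
    rw [S.un, hx]
    simp only
    omega
  have hlt : a < x := by
    refine lt_of_le_of_ne ?_ ?_
    · rw [H.dle, ha, hx]
      exact ⟨Nat.zero_le _, le_rfl⟩
    · rintro rfl
      rw [ha, Prod.mk.injEq] at hx
      omega
  have hcov : a ⋖ x := by
    refine covBy_of_lev hlt ?_
    rw [H.dlev hm1, H.dlev hm1, ha, hx]
    simp only
    omega
  have hbd : a ∈ bdR (unnat N) := by
    refine mem_filter.mpr ⟨?_, x, hxN, hcov⟩
    rw [S.un, ha]
    exact ⟨rfl, le_rfl⟩
  refine ⟨hbd, le_antisymm ?_ (hcan_ge H hm hg S hbd)⟩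
  have h1 := hcan_le (θ := fun x => θ (topOf x) x) hxN hcov
  rw [S.th1 x hx] at h1
  exact h1

include H hm hu hg in
lemma cst_corner {a : Tᵒᵈ} (ha : co (OrderDual.ofDual a) = (0, m)) {h : Tᵒᵈ → ℕ}
    (hh : h a = u + 1) : cst (2 * g - 1) h a = (u + 1) ^ 2 := by
  have hm1 : 1 ≤ m := by omega
  have hl : lev a = m := by rw [H.dlev hm1, ha]; simp only; omega
  have hn : nab m a = 1 := by rw [← hl]; exact nab_self
  rw [cst_eq, hh, hl]
  rcases Nat.eq_zero_or_pos u with h0 | h0
  · subst h0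
    rw [Finset.sum_range_succ, hn, Finset.sum_eq_zero]
    · have e1 : m - (2 * g - 1) = 1 := by omega
      rw [e1]
      rfl
    · intro k hk
      rw [mem_range] at hk
      have e1 : k - (2 * g - 1) = 0 := by omega
      rw [e1, Nat.min_zero, Nat.zero_mul]
  · have hu1 : u = 1 := by omega
    subst hu1
    obtain ⟨M, rfl⟩ : ∃ M, m = M + 1 := ⟨m - 1, by omega⟩
    rw [Finset.sum_range_succ, Finset.sum_range_succ, hn,
      H.nab_corner hm1 ha (k := M) (Nat.lt_succ_self M), Finset.sum_eq_zero]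
    · have e1 : M - (2 * g - 1) = 1 := by omega
      have e2 : M + 1 - (2 * g - 1) = 2 := by omega
      rw [e1, e2]
      rfl
    · intro k hk
      rw [mem_range] at hk
      have e1 : k - (2 * g - 1) = 0 := by omega
      rw [e1, Nat.min_zero, Nat.zero_mul]

include H hm hu hg in
lemma nst_corner {a : Tᵒᵈ} (ha : co (OrderDual.ofDual a) = (0, m)) {h : Tᵒᵈ → ℕ}
    (hh : h a = u + 1) : nst (2 * g - 1) h a = 2 * (u + 1) := by
  have hm1 : 1 ≤ m := by omega
  rw [nst_eq, hh, Finset.sum_congr rfl (g := fun _ => 2), sum_const, smul_eq_mul, card_range,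
    mul_comm]
  intro k hk
  rw [mem_range] at hk
  exact H.nab_corner hm1 ha (by omega)

include H hm hu hg S in
/-- the corner is the cheapest boundary element -/
lemma cst_lt {a a0 : Tᵒᵈ} (ha0 : co (OrderDual.ofDual a0) = (0, m)) (ha : a ∈ bdR (unnat N))
    (hne : a ≠ a0) : (u + 1) ^ 2 < cst (2 * g - 1) (hcan (unnat N) (fun x => θ (topOf x) x)) a := by
  classical
  have hm1 : 1 ≤ m := by omega
  obtain ⟨-, h0⟩ := corner_bd H hm hg S ha0
  have h1 := hcan_ge H hm hg S ha
  rw [← cst_corner H hm hu hg ha0 h0]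
  have haR := (S.un a).mp (mem_filter.mp ha).1
  have hle : a ≤ a0 := by
    rw [H.dle, ha0]
    exact ⟨by simp only; omega, haR.2⟩
  have hna : ¬ a0 ≤ a := fun h => hne (le_antisymm hle h)
  unfold cst
  refine Finset.sum_lt_sum (fun x _ => ?_) ⟨a, mem_univ _, ?_⟩
  · unfold ez
    split_ifs with h2 h3 h3
    · rw [h0]
      exact min_le_min h1 le_rfl
    · exact absurd (hle.trans h2) h3
    · exact Nat.zero_le _
    · exact le_rfl
  · unfold ez
    rw [if_neg hna, if_pos le_rfl]
    have h2 : 1 ≤ lev a - (2 * g - 1) := by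
      rw [H.dlev hm1]
      have := haR.1
      have := haR.2
      omega
    omega

end Costs

/-- **No pole in the dual below the energy `(u + 1)²`.** -/
theorem dual_lt (H : TriS T m co) (hm : m = 2 * g + u) (hu : u ≤ 1) (hg : 1 ≤ g)
    (hgu : g = 1 → u = 0) {n : ℕ} (hn : n < (u + 1) ^ 2) :
    (1 + X : ℤ[X]) ^ (g + 1) ∣ Z Tᵒᵈ (2 * g - 1) n := by
  have hm1 : 1 ≤ m := by omega
  obtain ⟨N, b, θ, B, S⟩ := H.exists_sys hm hu hg hgu
  have hF := farData_of_tops (H.pure hm1).gradedBelow_dual S.nat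
  rw [S.sum_b] at hF
  obtain ⟨a0, ha0⟩ := H.dex 0 m (Nat.zero_le _) (Or.inl le_rfl)
  refine hF.dvd_of_lt fun z hz => ?_
  by_cases hza : z = a0
  · obtain ⟨-, h0⟩ := corner_bd H hm hg S ha0
    rw [hza, cst_corner H hm hu hg ha0 h0]
    exact hn
  · exact hn.trans (cst_lt H hm hu hg S ha0 hz hza)

/-- **The first pole in the dual.** -/
theorem dual_eq (H : TriS T m co) (hm : m = 2 * g + u) (hu : u ≤ 1) (hg : 1 ≤ g)
    (hgu : g = 1 → u = 0) :
    (1 + X : ℤ[X]) ^ (g + 1) ∣ Z Tᵒᵈ (2 * g - 1) ((u + 1) ^ 2) -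
      X ^ (below Tᵒᵈ (2 * g - 1) + 2 * (u + 1)) * (1 + X) ^ g := by
  classical
  have hm1 : 1 ≤ m := by omega
  obtain ⟨N, b, θ, B, S⟩ := H.exists_sys hm hu hg hgu
  have hF := farData_of_tops (H.pure hm1).gradedBelow_dual S.nat
  rw [S.sum_b] at hF
  obtain ⟨a0, ha0⟩ := H.dex 0 m (Nat.zero_le _) (Or.inl le_rfl)
  obtain ⟨hbd, h0⟩ := corner_bd H hm hg S ha0
  have hc := cst_corner H hm hu hg ha0 h0
  have h1 := hF.dvd_lead (n := (u + 1) ^ 2) (fun z hz => by
    by_cases hza : z = a0
    · rw [hza, hc]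
    · exact (cst_lt H hm hu hg S ha0 hz hza).le)
  have h2 : (bdR (unnat N)).filter (fun z => cst (2 * g - 1)
      (hcan (unnat N) (fun x => θ (topOf x) x)) z = (u + 1) ^ 2) = {a0} := by
    ext z
    rw [mem_filter, mem_singleton]
    constructor
    · rintro ⟨h3, h4⟩
      by_contra hne
      have := cst_lt H hm hu hg S ha0 h3 hne
      omega
    · rintro rfl
      exact ⟨hbd, hc⟩
  rw [h2, sum_singleton, nst_corner H hm hu hg ha0 h0, h0, H.card_sites hm hu hg,
    H.nab_corner hm1 ha0 (k := 2 * g - 1) (by omega)] at h1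
  have hl : lev a0 = m := by rw [H.dlev hm1, ha0]; simp only; omega
  have h3 : nab (2 * g - 1 + (u + 1)) a0 = 1 := by
    have : 2 * g - 1 + (u + 1) = lev a0 := by omega
    rw [this]
    exact nab_self
  rw [h3] at h1
  have h4 : g + 1 + 1 - 2 = g := by omega
  rw [h4] at h1
  exact h1

/-- no pole in the closed stair with a chain at window `m + u + 1` -/
theorem core_lt (H : TriS T m co) (hm : m = 2 * g + u) (hu : u ≤ 1) (hg : 1 ≤ g)
    (hgu : g = 1 → u = 0) {n : ℕ} (hn : n < (u + 1) ^ 2) :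
    (1 + X : ℤ[X]) ^ (g + 1) ∣ Z T (m + u + 1) n := by
  refine dvd_Z_flip (H.pure (by omega)) (i := m + u + 1) (by omega) ?_
  have : 2 * m - (m + u + 1) = 2 * g - 1 := by omega
  rw [this]
  exact H.dual_lt hm hu hg hgu hn

/-- counting the elements -/
lemma card_eq (H : TriS T m co) (hm : m = 2 * g + u) (hu : u ≤ 1) (hg : 1 ≤ g) :
    Fintype.card T = below Tᵒᵈ (2 * g - 1) + (g + 1) + below T (m + u + 1) := by
  classical
  have hm1 : 1 ≤ m := by omega
  have h0 : Fintype.card T = (univ : Finset Tᵒᵈ).card := by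
    rw [Finset.card_univ]
    rfl
  rw [h0, ← H.card_sites hm hu hg]
  have h1 : (univ : Finset Tᵒᵈ) = (univ.filter (fun a : Tᵒᵈ => lev a < 2 * g - 1) ∪
      lv Tᵒᵈ (2 * g - 1)) ∪ univ.filter (fun a : Tᵒᵈ => 2 * g - 1 < lev a) := by
    ext a
    simp only [mem_univ, mem_union, mem_filter, true_and, mem_lv, true_iff]
    omega
  conv_lhs => rw [h1]
  rw [card_union_of_disjoint, card_union_of_disjoint]
  · congr 1
    unfold below
    refine Finset.card_bij (fun a _ => OrderDual.ofDual a) ?_ ?_ ?_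
    · intro a ha
      rw [mem_filter] at ha ⊢
      refine ⟨mem_univ _, ?_⟩
      have h2 := ha.2
      rw [H.dlev hm1] at h2
      rw [H.lev_eq]
      omega
    · intro a _ a' _ h
      exact h
    · intro x hx
      rw [mem_filter] at hx
      refine ⟨OrderDual.toDual x, ?_, rfl⟩
      rw [mem_filter]
      refine ⟨mem_univ _, ?_⟩
      have h2 := hx.2
      rw [H.lev_eq] at h2
      rw [H.dlev hm1]
      have e1 : OrderDual.ofDual (OrderDual.toDual x) = x := rfl
      rw [e1]
      omega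
  · rw [Finset.disjoint_left]
    intro a h2 h3
    rw [mem_filter] at h2
    rw [mem_lv] at h3
    omega
  · rw [Finset.disjoint_left]
    intro a h2 h3
    rw [mem_union, mem_filter, mem_lv] at h2
    rw [mem_filter] at h3
    omega

/-- **The first pole** of the closed stair with a chain at window `m + u + 1` -/
theorem core_eq (H : TriS T m co) (hm : m = 2 * g + u) (hu : u ≤ 1) (hg : 1 ≤ g)
    (hgu : g = 1 → u = 0) : ∃ a, a + 2 * u + 1 = below T (m + u + 1) ∧
    (1 + X : ℤ[X]) ^ (g + 1) ∣ Z T (m + u + 1) ((u + 1) ^ 2) - X ^ a * (1 + X) ^ g := by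
  classical
  have hm1 : 1 ≤ m := by omega
  have hcard := H.card_eq hm hu hg
  have hb : 2 * u + 1 ≤ below T (m + u + 1) := by
    -- the elements `(0, c)`, `c ≤ m`
    have h1 : (range (m + 1)).card ≤ below T (m + u + 1) := by
      unfold below
      refine Finset.card_le_card_of_injOn
        (fun c => if h : c ≤ m then (H.ex 0 c (Nat.zero_le _) (Or.inl h)).choose else
          (H.ex 0 0 le_rfl (Or.inl (Nat.zero_le _))).choose) ?_ ?_
      · intro c hc
        rw [Finset.mem_coe, mem_range] at hc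
        rw [Finset.mem_coe, mem_filter]
        refine ⟨mem_univ _, ?_⟩
        have h2 : c ≤ m := by omega
        simp only [dif_pos h2]
        rw [H.lev_eq, (H.ex 0 c (Nat.zero_le _) (Or.inl h2)).choose_spec]
        simp only
        omega
      · intro c hc c' hc' h
        rw [Finset.mem_coe, mem_range] at hc hc'
        have h2 : c ≤ m := by omega
        have h3 : c' ≤ m := by omega
        simp only [dif_pos h2, dif_pos h3] at h
        have e1 := (H.ex 0 c (Nat.zero_le _) (Or.inl h2)).choose_spec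
        have e2 := (H.ex 0 c' (Nat.zero_le _) (Or.inl h3)).choose_spec
        rw [h, e2, Prod.mk.injEq] at e1
        exact e1.2.symm
    rw [card_range] at h1
    omega
  have had : below Tᵒᵈ (2 * g - 1) + 2 * (u + 1) + g ≤ Fintype.card T := by omega
  have h1 := H.dual_eq hm hu hg hgu
  have h2 : 2 * m - (m + u + 1) = 2 * g - 1 := by omega
  rw [← h2] at h1
  have h3 := dvd_Z_flip_lead (H.pure hm1) (i := m + u + 1) (by omega) (by rw [h2]; exact had) h1
  rw [h2] at h3
  refine ⟨_, ?_, h3⟩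
  omega

/-- frozen corner at window `m + 2`: all energies (`u = 1`) -/
theorem core_frozen (H : TriS T m co) (hm : m = 2 * g + 1) (hg : 2 ≤ g) {v0 v1 : T}
    (h0 : co v0 = (0, m + 1)) (h1 : co v1 = (1, m)) (n : ℕ) :
    (1 + X : ℤ[X]) ^ (g + 1) ∣ SC (fun (e : T → ℕ) F => Vd (m + 2) e F ∧
      (e v0 = 0 ∧ e v1 = 0)) n := by
  classical
  have hm1 : 1 ≤ m := by omega
  refine dvd_SC_flip (H.pure hm1) (i := m + 2) (by omega) _ ?_
  obtain ⟨N, b, θ, B, S⟩ := H.exists_sys hm le_rfl (by omega) (by omega)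
  let D : Finset Tᵒᵈ := univ.filter (fun a => a ≤ OrderDual.toDual v0 ∨ a ≤ OrderDual.toDual v1)
  have hD : ∀ a, a ∈ D ↔ a ≤ OrderDual.toDual v0 ∨ a ≤ OrderDual.toDual v1 := by
    intro a
    simp [D]
  have hDc : ∀ a, a ∈ D → (co (OrderDual.ofDual a)).1 ≤ 1 ∧
      (co (OrderDual.ofDual a)).1 + (co (OrderDual.ofDual a)).2 ≤ m + 1 := by
    intro a ha
    rw [hD, H.dle, H.dle] at ha
    have e0 : OrderDual.ofDual (OrderDual.toDual v0) = v0 := rfl
    have e1 : OrderDual.ofDual (OrderDual.toDual v1) = v1 := rfl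
    rw [e0, e1, h0, h1] at ha
    rcases ha with h | h
    · have a1 := h.1
      have a2 := h.2
      simp only at a1 a2
      omega
    · have a1 := h.1
      have a2 := h.2
      simp only at a1 a2
      omega
  have hlevD : ∀ x ∈ D, 2 * g - 1 < lev x := by
    intro x hx
    have := hDc x hx
    rw [H.dlev hm1]
    omega
  have hlow : ∀ x y, x ≤ y → y ∈ D → x ∈ D := by
    intro x y hxy hy
    rw [hD] at hy ⊢
    rcases hy with h | h
    · exact Or.inl (hxy.trans h)
    · exact Or.inr (hxy.trans h)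
  have hgood : Good (2 * g - 1) (unnat N) (fun x => x ∉ unnat N ∧ B (topOf x) x) D := by
    refine ⟨hlow, ?_, hlevD, ?_⟩
    · intro a ha
      rw [S.un] at ha
      rw [hD]
      left
      rw [H.dle]
      have e0 : OrderDual.ofDual (OrderDual.toDual v0) = v0 := rfl
      rw [e0, h0]
      exact ⟨by simp only; omega, by simp only; omega⟩
    · rintro a ha ⟨h2, h3⟩
      have h4 := S.base a h2 h3
      have h5 := hDc a ha
      omega
  have key := dvd_Z_off_of_tops S.nat hgood n
  rw [S.sum_b, ← ZB_off hlow hlevD] at key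
  have e2 : 2 * m - (m + 2) = 2 * g - 1 := by omega
  rw [e2]
  have hcst : ∀ (e : Tᵒᵈ → ℕ) (F : Finset Tᵒᵈ), Cst (2 * g - 1) D 0 0 e F ↔ Vd (2 * g - 1) e F ∧
      (e (OrderDual.toDual v0) = 0 ∧ e (OrderDual.toDual v1) = 0) := by
    intro e F
    have h6 := cst_zero_iff (i := 2 * g - 1) (D := D)
      (V := fun v => v = OrderDual.toDual v0 ∨ v = OrderDual.toDual v1) (fun x => by
        rw [hD]
        constructor
        · rintro (h | h)
          · exact ⟨_, Or.inl rfl, h⟩
          · exact ⟨_, Or.inr rfl, h⟩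
        · rintro ⟨v, rfl | rfl, h⟩
          · exact Or.inl h
          · exact Or.inr h) (fun v hv => hlevD v (by
        rw [hD]
        rcases hv with rfl | rfl
        · exact Or.inl le_rfl
        · exact Or.inr le_rfl)) e F
    rw [h6]
    refine and_congr_right fun _ => ?_
    constructor
    · intro h
      exact ⟨h _ (Or.inl rfl), h _ (Or.inr rfl)⟩
    · rintro ⟨a1, a2⟩ v (rfl | rfl)
      · exact a1
      · exact a2
  rw [ZB_eq_SC, SC_congr hcst n] at key
  exact key

end TriS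

end Pool.Agent.GaussPoset
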