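import Pool.Agent.W_448fc_h67.FcF

/-!
Costly elements can be dropped; a minimal element on the level of the window.
-/

namespace Pool.Agent.GaussPoset

set_option linter.unusedSectionVars false

open Polynomial Finset

universe u

variable {Q : Type u} [Fintype Q] [PartialOrder Q] [DecidableEq Q]

open Classical in
/-- number of elements above `x` below the window level -/
noncomputable def nup (i : ℕ) (x : Q) : ℕ := (univ.filter (fun y => x ≤ y ∧ i < lev y)).card

lemma nup_le_sum {i : ℕ} {e : Q → ℕ} {F : Finset Q} (hV : Vd i e F) {x : Q} (hx : i < lev x)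
    (h : x ∈ F ∨ 1 ≤ e x) : nup i x ≤ ∑ y, e y := by
  classical
  unfold nup
  rw [card_filter]
  refine Finset.sum_le_sum fun y _ => ?_
  have h1 := ez_le (h := fun _ => 1) hV hx h y
  unfold ez at h1
  split_ifs with h2
  · rw [if_pos h2.1] at h1
    have h3 : min 1 (lev y - i) ≤ e y := h1
    have : 1 ≤ lev y - i := by
      have := h2.2
      omega
    rw [Nat.min_eq_left this] at h3
    exact h3
  · exact Nat.zero_le _

/-- costly elements can be dropped -/
theorem Z_drop {i n : ℕ} {D : Finset Q} (hD : ∀ x y, x ≤ y → y ∈ D → x ∈ D)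
    (hlev : ∀ x ∈ D, i < lev x) (hc : ∀ x ∈ D, n < nup i x) :
    Z Q i n = Z {x : Q // x ∉ D} i n := by
  classical
  rw [← ZB_off hD hlev, Z_eq_SC, ZB_eq_SC, SC_eq_cfg, SC_eq_cfg]
  refine Finset.sum_congr ?_ (fun _ _ => rfl)
  ext ⟨F, e⟩
  rw [mem_cfg, mem_cfg]
  simp only
  refine and_congr_right fun hs => ?_
  constructor
  · intro hV
    have key : ∀ x ∈ D, x ∉ F ∧ e x = 0 := by
      intro x hx
      have h1 := hc x hx
      constructor
      · intro hxF
        have := nup_le_sum hV (hlev x hx) (Or.inl hxF)
        omega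
      · by_contra hne
        have := nup_le_sum hV (hlev x hx) (Or.inr (Nat.one_le_iff_ne_zero.mpr hne))
        omega
    exact ⟨hV, key, fun x _ hx => by simpa using hV.2.1 x hx⟩
  · intro h
    exact h.1

/-- the same for up-closed sets -/
theorem Z_sub {i n : ℕ} {U L : Finset Q} (hU : ∀ x y, x ≤ y → x ∈ U → y ∈ U)
    (hL : ∀ x y, x ≤ y → x ∈ L → y ∈ L) (hUL : U ⊆ L)
    (hlev : ∀ x ∈ L, x ∉ U → i < lev x) (hc : ∀ x ∈ L, x ∉ U → n < nup i x) :
    Z {x // x ∈ L} i n = Z {x // x ∈ U} i n := by
  classical
  have hl : ∀ x : {x // x ∈ L}, lev x = lev (x : Q) := lev_subtype (p := fun x => x ∈ L) hL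
  let D : Finset {x // x ∈ L} := univ.filter (fun x => (x : Q) ∉ U)
  have hD : ∀ x : {x // x ∈ L}, x ∈ D ↔ (x : Q) ∉ U := by
    intro x
    simp [D]
  have hnup : ∀ x : {x // x ∈ L}, nup i x = nup i (x : Q) := by
    intro x
    unfold nup
    refine Finset.card_bij (fun y _ => (y : Q)) ?_ ?_ ?_
    · intro y hy
      rw [mem_filter] at hy ⊢
      rw [hl] at hy
      exact ⟨mem_univ _, hy.2⟩
    · intro y _ y' _ h
      exact Subtype.ext h
    · intro y hy
      rw [mem_filter] at hy
      refine ⟨⟨y, hL x y hy.2.1 x.2⟩, ?_, rfl⟩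
      rw [mem_filter, hl]
      exact ⟨mem_univ _, hy.2⟩
  rw [Z_drop (D := D) ?_ ?_ ?_]
  · refine Z_iso (P := {x : {x // x ∈ L} // x ∉ D}) (Q := {x // x ∈ U})
      { toFun := fun x => ⟨x.1.1, by
          have := x.2
          rw [hD, not_not] at this
          exact this⟩
        invFun := fun x => ⟨⟨x.1, hUL x.2⟩, by rw [hD, not_not]; exact x.2⟩
        left_inv := fun x => rfl
        right_inv := fun x => rfl
        map_rel_iff' := Iff.rfl } i n
  · intro x y hxy hy
    rw [hD] at hy ⊢
    exact fun h => hy (hU _ _ hxy h)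
  · intro x hx
    rw [hD] at hx
    rw [hl]
    exact hlev x x.2 hx
  · intro x hx
    rw [hD] at hx
    rw [hnup]
    exact hc x x.2 hx

section Site

variable {w : ℕ} {y : Q}

lemma SC_vd_pred (w : ℕ) (Φ : (Q → ℕ) → Prop) [DecidablePred Φ] (n : ℕ) :
    SC (fun (e : Q → ℕ) F => Vd w e F ∧ Φ e) n = ∑ e ∈ ((univ : Finset Q).piAntidiag n).filter Φ,
      (by classical exact if Adm w e then X ^ (nf w e) * (1 + X : ℤ[X]) ^ (Pk w e).card else 0) := by
  classical
  have h1 : ∀ e ∈ ((univ : Finset Q).piAntidiag n).filter Φ,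
      (if Adm w e then X ^ (nf w e) * (1 + X : ℤ[X]) ^ (Pk w e).card else 0) =
      ∑ F : Finset Q, (if Vd w e F then (X : ℤ[X]) ^ F.card else 0) := fun e _ => (sum_vd w e).symm
  rw [Finset.sum_congr rfl h1, Finset.sum_comm]
  unfold SC
  refine Finset.sum_congr rfl fun F _ => ?_
  rw [← Finset.sum_filter, Finset.filter_filter]
  refine Finset.sum_congr ?_ (fun _ _ => rfl)
  ext e
  simp only [mem_filter]
  constructor
  · rintro ⟨a, b, c⟩
    exact ⟨a, c, b⟩
  · rintro ⟨a, b, c⟩
    exact ⟨a, c, b⟩

open Classical in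
/-- a minimal element on the level of the window is excited -/
theorem dvd_site (hgr : GradedBelow Q) (hy : ∀ x, x ≤ y → x = y) (hly : lev y = w)
    (h2 : ∀ p : Q, lev p = w + 1 → ((lv Q w).filter (fun x => p < x)).card ≤ 2)
    (h2' : ∀ p : Q, lev p + 1 = w → ((lv Q w).filter (fun x => x < p)).card ≤ 2)
    (hlow : ∀ p : Q, lev p + 1 < w → ∃ p', p' < p ∧ lev p' = lev p + 1) {n c : ℕ} (hn : n ≤ 2)
    (hc : c + 1 ≤ (lv Q w).card) :
    (1 + X : ℤ[X]) ^ c ∣ SC (fun (e : Q → ℕ) F => Vd w e F ∧ 1 ≤ e y) n := by
  classical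
  rw [SC_vd_pred w (fun e => 1 ≤ e y)]
  refine Finset.dvd_sum fun e he => ?_
  rw [mem_filter, mem_piAntidiag] at he
  obtain ⟨⟨hs, -⟩, hey⟩ := he
  split_ifs with hA
  swap
  · exact dvd_zero _
  refine dvd_mul_of_dvd_right (pow_dvd_pow _ ?_) _
  have hs' : ∑ x, e x = n := hs
  -- other labels
  have hoth : ∀ p p', p ≠ y → p' ≠ y → 1 ≤ e p → 1 ≤ e p' → p = p' := by
    intro p p' hp hp' h1 h3
    by_contra hne
    have h4 : e p + (e p' + e y) ≤ ∑ x, e x := by
      have h5 : ({p, p', y} : Finset Q) ⊆ univ := Finset.subset_univ _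
      have h6 := Finset.sum_le_sum_of_subset (f := e) h5
      rw [Finset.sum_insert (by simp [hne, hp]), Finset.sum_pair hp'] at h6
      exact h6
    omega
  have hone : ∀ p, p ≠ y → e p ≤ 1 := by
    intro p hp
    have h4 : e p + e y ≤ ∑ x, e x := by
      have h6 := Finset.sum_le_sum_of_subset (f := e) (Finset.subset_univ ({p, y} : Finset Q))
      rw [Finset.sum_pair hp] at h6
      exact h6
    omega
  have hrs : ∀ x ∈ lv Q w, rho w e x = e x := by
    intro x hx
    rw [mem_lv] at hx
    unfold rho
    rw [hx, Nat.sub_self]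
    simp
  by_cases hp : ∃ p, p ≠ y ∧ 1 ≤ e p
  swap
  · -- only `y` is excited
    push Not at hp
    have h0 : ∀ x, x ≠ y → e x = 0 := fun x hx => by have := hp x hx; omega
    have h1 : lv Q w ⊆ Pk w e := by
      intro x hx
      have hxl := mem_lv.mp hx
      refine mem_filter.mpr ⟨mem_univ _, ?_, ?_⟩
      · rintro (h | ⟨z, hz, h⟩)
        · rw [hrs x hx] at h
          omega
        · have h3 := lev_strictAnti hz
          rw [hrs x hx, rho_of_lt (by omega), h0 z (by rintro rfl; omega)] at h
          omega
      · rintro ⟨z, hz, h⟩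
        have h3 := lev_strictAnti hz
        rw [hrs x hx] at h
        unfold rho at h
        rw [h0 z (by rintro rfl; omega)] at h
        omega
    have := Finset.card_le_card h1
    omega
  obtain ⟨p, hpy, hep⟩ := hp
  have hep1 : e p = 1 := le_antisymm (hone p hpy) hep
  have h0 : ∀ x, x ≠ y → x ≠ p → e x = 0 := by
    intro x hx hxp
    by_contra hne
    exact hxp (hoth x p hx hpy (Nat.one_le_iff_ne_zero.mpr hne) hep)
  -- sites which are not free
  have hsite : ∀ x ∈ lv Q w, x ∉ Pk w e → (p < x) ∨ (x < p ∧ lev p + 1 = w ∧ x ≠ y) := by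
    intro x hx hxP
    have hxl := mem_lv.mp hx
    have : ¬ (¬ FI w e x ∧ ¬ FA w e x) := fun h => hxP (mem_filter.mpr ⟨mem_univ _, h⟩)
    rw [not_and_or, not_not, not_not] at this
    rcases this with (h | ⟨z, hz, h⟩) | ⟨z, hz, h⟩
    · rw [hrs x hx] at h
      omega
    · have h3 := lev_strictAnti hz
      left
      have hzy : z ≠ y := by rintro rfl; omega
      rw [hrs x hx, rho_of_lt (by omega)] at h
      have : z = p := by
        by_contra hne
        rw [h0 z hzy hne] at h
        omega
      rw [← this]
      exact hz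
    · right
      have h3 := lev_strictAnti hz
      have hzy : z ≠ y := by rintro rfl; omega
      rw [hrs x hx] at h
      unfold rho at h
      have hzp : z = p := by
        by_contra hne
        rw [h0 z hzy hne] at h
        omega
      subst hzp
      rw [hep1] at h
      refine ⟨hz, by omega, ?_⟩
      rintro rfl
      omega
  have hcard : (lv Q w).card ≤ (Pk w e ∩ lv Q w).card + ((lv Q w).filter (fun x => x ∉ Pk w e)).card := by
    have h3 := Finset.card_filter_add_card_filter_not (s := lv Q w) (fun x => x ∈ Pk w e)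
    have h4 : (lv Q w).filter (fun x => x ∈ Pk w e) = Pk w e ∩ lv Q w := by
      ext x
      rw [mem_filter, mem_inter]
      exact and_comm
    rw [h4] at h3
    omega
  have hsub : (Pk w e ∩ lv Q w).card ≤ (Pk w e).card := Finset.card_le_card inter_subset_left
  have hsub' : p ∉ lv Q w → p ∈ Pk w e → (Pk w e ∩ lv Q w).card + 1 ≤ (Pk w e).card := by
    intro hp1 hp2
    have h3 : insert p (Pk w e ∩ lv Q w) ⊆ Pk w e := by
      intro x hx
      rw [mem_insert] at hx
      rcases hx with rfl | hx
      · exact hp2
      · exact (mem_inter.mp hx).1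
    have h4 := Finset.card_le_card h3
    rw [card_insert_of_notMem (fun h => hp1 (mem_inter.mp h).2)] at h4
    exact h4
  rcases Nat.lt_trichotomy (lev p) w with hl | hl | hl
  · -- above the window
    have hno : (lv Q w).filter (fun x => x ∉ Pk w e) ⊆
        ((lv Q w).filter (fun x => x < p)).erase y := by
      intro x hx
      rw [mem_filter] at hx
      rw [mem_erase, mem_filter]
      rcases hsite x hx.1 hx.2 with h | ⟨h, -, h'⟩
      · exfalso
        have := lev_strictAnti h
        have := mem_lv.mp hx.1
        omega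
      · exact ⟨h', hx.1, h⟩
    rcases Nat.lt_or_ge (lev p + 1) w with hl2 | hl2
    · exfalso
      obtain ⟨p', hp', hlp'⟩ := hlow p hl2
      have hp'y : p' ≠ y := by rintro rfl; omega
      have e1 : rho w e p' = -((w - lev p' : ℕ) : ℤ) := by
        unfold rho
        rw [h0 p' hp'y hp'.ne]
        simp
      refine hA p' ⟨Or.inl ?_, ⟨p, hp', ?_⟩⟩
      · rw [e1]; omega
      · rw [e1]
        unfold rho
        rw [hep1]
        omega
    · have hl3 : lev p + 1 = w := by omega
      have h3 := Finset.card_le_card hno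
      by_cases hyp : y < p
      · have h4 : y ∈ (lv Q w).filter (fun x => x < p) := mem_filter.mpr ⟨mem_lv.mpr hly, hyp⟩
        rw [card_erase_of_mem h4] at h3
        have := h2' p hl3
        omega
      · have h5 : p ∈ Pk w e := by
          refine mem_filter.mpr ⟨mem_univ _, ?_, ?_⟩
          · rintro (h | ⟨z, hz, h⟩)
            · unfold rho at h
              rw [hep1] at h
              omega
            · have hzy : z ≠ y := by rintro rfl; exact hyp hz
              unfold rho at h
              rw [hep1, h0 z hzy hz.ne] at h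
              omega
          · rintro ⟨z, hz, h⟩
            have h6 := lev_strictAnti hz
            have hzy : z ≠ y := by rintro rfl; omega
            unfold rho at h
            rw [hep1, h0 z hzy hz.ne'] at h
            omega
        have h6 := hsub' (fun h => by have := mem_lv.mp h; omega) h5
        have h7 := Finset.card_le_card (Finset.erase_subset y ((lv Q w).filter (fun x => x < p)))
        have := h2' p hl3
        omega
  · -- on the window
    have hno : (lv Q w).filter (fun x => x ∉ Pk w e) = ∅ := by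
      rw [Finset.filter_eq_empty_iff]
      intro x hx hxP
      rcases hsite x hx hxP with h | ⟨h, h', -⟩
      · have := lev_strictAnti h
        have := mem_lv.mp hx
        omega
      · omega
    rw [hno, card_empty] at hcard
    omega
  · -- below the window
    rcases Nat.lt_or_ge (w + 1) (lev p) with hl2 | hl2
    · exfalso
      obtain ⟨p', hpp', hp'⟩ := exists_above' (x := p) (show w + 1 ≤ lev p by omega)
      have hlt : p < p' := lt_of_le_of_ne hpp' (by rintro rfl; omega)
      have hp'y : p' ≠ y := by rintro rfl; omega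
      obtain ⟨x, hpx, hx⟩ := exists_above' (x := p') (show w ≤ lev p' by omega)
      have hlt' : p' < x := lt_of_le_of_ne hpx (by rintro rfl; omega)
      have e1 : rho w e p' = 0 := by
        rw [rho_of_lt (by omega), h0 p' hp'y hlt.ne']
        rfl
      refine hA p' ⟨Or.inr ⟨p, hlt, ?_⟩, ⟨x, hlt', ?_⟩⟩
      · rw [e1, rho_of_lt hl, hep1]
        norm_num
      · rw [e1, hrs x (mem_lv.mpr hx)]
        omega
    · have hl3 : lev p = w + 1 := by omega
      have h5 : p ∈ Pk w e := by
        refine mem_filter.mpr ⟨mem_univ _, ?_, ?_⟩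
        · rintro (h | ⟨z, hz, h⟩)
          · rw [rho_of_lt hl, hep1] at h
            norm_num at h
          · have h6 := lev_strictAnti hz
            have hzy : z ≠ y := by rintro rfl; omega
            rw [rho_of_lt hl, hep1, rho_of_lt (by omega), h0 z hzy hz.ne] at h
            norm_num at h
        · rintro ⟨z, hz, h⟩
          have h6 := lev_strictAnti hz
          have hzy : z ≠ y := by
            rintro rfl
            have := hy p hz.le
            exact hpy this
          unfold rho at h
          rw [hep1, h0 z hzy hz.ne'] at h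
          omega
      have h6 := hsub' (fun h => by have := mem_lv.mp h; omega) h5
      have hno : (lv Q w).filter (fun x => x ∉ Pk w e) ⊆ (lv Q w).filter (fun x => p < x) := by
        intro x hx
        rw [mem_filter] at hx ⊢
        rcases hsite x hx.1 hx.2 with h | ⟨h, h', -⟩
        · exact ⟨hx.1, h⟩
        · omega
      have h7 := Finset.card_le_card hno
      have := h2 p hl3
      omega

end Site

end Pool.Agent.GaussPoset
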