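import Pool.Agent.W_448fc_h67.FcG

/-!
A poset with an additional minimal element on the level of the window.
-/

namespace Pool.Agent.GaussPoset

set_option linter.unusedSectionVars false

open Polynomial Finset

universe u

variable {Q : Type u} [Fintype Q] [PartialOrder Q] [DecidableEq Q]

lemma SC_split (T R : (Q → ℕ) → Finset Q → Prop) (n : ℕ) :
    SC T n = SC (fun e F => T e F ∧ R e F) n + SC (fun e F => T e F ∧ ¬ R e F) n := by
  classical
  rw [SC_eq_cfg, SC_eq_cfg, SC_eq_cfg, ← Finset.sum_filter_add_sum_filter_not (cfg T n)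
    (fun x => R x.2 x.1)]
  congr 1
  · refine Finset.sum_congr ?_ (fun _ _ => rfl)
    ext x
    rw [mem_filter, mem_cfg, mem_cfg, and_assoc]
  · refine Finset.sum_congr ?_ (fun _ _ => rfl)
    ext x
    rw [mem_filter, mem_cfg, mem_cfg, and_assoc]

/-- divisibility of the product formula -/
lemma dvd_SC_prod {c n : ℕ} (p : Q → Prop) [DecidablePred p] (T : (Q → ℕ) → Finset Q → Prop)
    (T1 : ({x // p x} → ℕ) → Finset {x // p x} → Prop)
    (T2 : ({x // ¬ p x} → ℕ) → Finset {x // ¬ p x} → Prop)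
    (hT : ∀ e F, T e F ↔ T1 (fun x => e x) (F.subtype p) ∧
      T2 (fun x => e x) (F.subtype (fun x => ¬ p x)))
    (h : ∀ b ≤ n, (1 + X : ℤ[X]) ^ c ∣ SC T2 b) : (1 + X : ℤ[X]) ^ c ∣ SC T n := by
  rw [SC_prod p T T1 T2 hT n]
  refine Finset.dvd_sum fun ab hab => ?_
  rw [HasAntidiagonal.mem_antidiagonal] at hab
  exact dvd_mul_of_dvd_right (h ab.2 (by omega)) _

section Special

variable {w : ℕ} {y : Q}

lemma vd_restrict {e : Q → ℕ} {F : Finset Q} {p : Q → Prop} [DecidablePred p]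
    (hp : ∀ x y, x ≤ y → p x → p y) (hV : Vd w e F) :
    Vd w (fun x : {x // p x} => e x) (F.subtype p) := by
  have hr : ∀ x : {x // p x}, rho w (fun y : {x // p x} => e y) x = rho w e (x : Q) := by
    intro x
    unfold rho
    rw [lev_subtype hp]
  have hm : ∀ x : {x // p x}, x ∈ F.subtype p ↔ (x : Q) ∈ F := fun x => mem_subtype
  obtain ⟨h1, h2, h3, h4⟩ := hV
  refine ⟨?_, ?_, ?_, ?_⟩
  · intro x y hxy hx
    rw [hm] at hx ⊢
    exact h1 x y hxy hx
  · intro x hx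
    rw [hm] at hx
    rw [hr]
    exact h2 x hx
  · intro x y hxy hx hy
    rw [hm] at hx hy
    rw [hr, hr]
    exact h3 x y hxy hx hy
  · intro x y hxy hx hy
    rw [hm] at hx hy
    rw [hr, hr]
    exact h4 x y hxy hx hy

lemma special_A (hy : ∀ x, x ≤ y → x = y) (hly : lev y = w) (e : Q → ℕ) (F : Finset Q) :
    (Vd w e F ∧ (e y = 0 ∧ y ∉ F)) ↔
      ((∀ x : {x // x = y}, e x = 0) ∧ F.subtype (fun x => x = y) = ∅) ∧
      Vd w (fun x : {x // ¬ x = y} => e x) (F.subtype (fun x => ¬ x = y)) := by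
  have hp : ∀ x x' : Q, x ≤ x' → ¬ x = y → ¬ x' = y := by
    intro x x' hxx hx h
    exact hx (hy x (h ▸ hxx))
  have hr : ∀ x : {x // ¬ x = y}, rho w (fun z : {x // ¬ x = y} => e z) x = rho w e (x : Q) := by
    intro x
    unfold rho
    rw [lev_subtype hp]
  have hm : ∀ x : {x // ¬ x = y}, x ∈ F.subtype (fun x => ¬ x = y) ↔ (x : Q) ∈ F :=
    fun x => mem_subtype
  constructor
  · rintro ⟨hV, h0, hyF⟩
    refine ⟨⟨fun x => by rw [x.2]; exact h0, ?_⟩, vd_restrict hp hV⟩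
    rw [Finset.eq_empty_iff_forall_notMem]
    intro x hx
    rw [mem_subtype, x.2] at hx
    exact hyF hx
  · rintro ⟨⟨h0, hF⟩, h1, h2, h3, h4⟩
    have h0' : e y = 0 := h0 ⟨y, rfl⟩
    have hyF : y ∉ F := by
      intro h
      have : (⟨y, rfl⟩ : {x // x = y}) ∈ F.subtype (fun x => x = y) := mem_subtype.mpr h
      rw [hF] at this
      exact absurd this (Finset.notMem_empty _)
    have hne : ∀ x ∈ F, ¬ x = y := fun x hx h => hyF (h ▸ hx)
    have hry : rho w e y = 0 := by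
      unfold rho
      rw [h0', hly, Nat.sub_self]
      rfl
    have h2' : ∀ x, x ∉ F → 0 ≤ rho w e x := by
      intro x hx
      by_cases hxy : x = y
      · rw [hxy, hry]
      · rw [← hr ⟨x, hxy⟩]
        exact h2 _ (fun h => hx ((hm _).mp h))
    refine ⟨⟨?_, h2', ?_, ?_⟩, h0', hyF⟩
    · intro x x' hxx hx
      exact (hm ⟨x', hp x x' hxx (hne x hx)⟩).mp (h1 ⟨x, hne x hx⟩ _ hxx ((hm _).mpr hx))
    · intro x x' hxx hx hx'
      by_cases hxy : x = y
      · rw [hxy, hry]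
        exact h2' x' hx'
      · rw [← hr ⟨x, hxy⟩, ← hr ⟨x', hp x x' hxx hxy⟩]
        exact h3 _ _ hxx (fun h => hx ((hm _).mp h)) (fun h => hx' ((hm _).mp h))
    · intro x x' hxx hx hx'
      rw [← hr ⟨x, hne x hx⟩, ← hr ⟨x', hne x' hx'⟩]
      exact h4 _ _ hxx ((hm _).mpr hx) ((hm _).mpr hx')

lemma special_B (hy : ∀ x, x ≤ y → x = y) (hly : lev y = w) {v0 v1 : Q} (hv0 : y < v0)
    (hv1 : y < v1) (hl0 : lev v0 + 1 = w) (hl1 : lev v1 + 1 = w)
    (hab : ∀ x, y < x → v0 ≤ x ∨ v1 ≤ x) (e : Q → ℕ) (F : Finset Q) :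
    (Vd w e F ∧ (e y = 0 ∧ y ∈ F)) ↔
      ((∀ x : {x // x = y}, e x = 0) ∧ F.subtype (fun x => x = y) = univ) ∧
      (Vd w (fun x : {x // ¬ x = y} => e x) (F.subtype (fun x => ¬ x = y)) ∧
        ((fun x : {x // ¬ x = y} => e x) ⟨v0, hv0.ne'⟩ = 0 ∧
          (fun x : {x // ¬ x = y} => e x) ⟨v1, hv1.ne'⟩ = 0)) := by
  have hp : ∀ x x' : Q, x ≤ x' → ¬ x = y → ¬ x' = y := by
    intro x x' hxx hx h
    exact hx (hy x (h ▸ hxx))
  have hr : ∀ x : {x // ¬ x = y}, rho w (fun z : {x // ¬ x = y} => e z) x = rho w e (x : Q) := by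
    intro x
    unfold rho
    rw [lev_subtype hp]
  have hm : ∀ x : {x // ¬ x = y}, x ∈ F.subtype (fun x => ¬ x = y) ↔ (x : Q) ∈ F :=
    fun x => mem_subtype
  have hry : e y = 0 → rho w e y = 0 := by
    intro h0
    unfold rho
    rw [h0, hly, Nat.sub_self]
    rfl
  constructor
  · rintro ⟨hV, h0, hyF⟩
    have hz : ∀ v, y < v → lev v + 1 = w → e v = 0 := by
      intro v hv hl
      have h5 := hV.2.2.2 y v hv hyF (hV.1 y v hv.le hyF)
      rw [hry h0] at h5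
      unfold rho at h5
      omega
    refine ⟨⟨fun x => by rw [x.2]; exact h0, ?_⟩, vd_restrict hp hV, hz v0 hv0 hl0, hz v1 hv1 hl1⟩
    rw [Finset.eq_univ_iff_forall]
    intro x
    rw [mem_subtype, x.2]
    exact hyF
  · rintro ⟨⟨h0, hF⟩, ⟨h1, h2, h3, h4⟩, g0, g1⟩
    have h0' : e y = 0 := h0 ⟨y, rfl⟩
    have hyF : y ∈ F := by
      have : (⟨y, rfl⟩ : {x // x = y}) ∈ F.subtype (fun x => x = y) := by
        rw [hF]
        exact mem_univ _
      exact mem_subtype.mp this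
    have hrv : ∀ v, (v = v0 ∨ v = v1) → rho w e v = -1 := by
      intro v hv
      unfold rho
      rcases hv with rfl | rfl
      · have : e v = 0 := g0
        rw [this]
        omega
      · have : e v = 0 := g1
        rw [this]
        omega
    have hvF : ∀ v, (v = v0 ∨ v = v1) → v ∈ F := by
      intro v hv
      have hvy : ¬ v = y := by
        rcases hv with rfl | rfl
        · exact hv0.ne'
        · exact hv1.ne'
      by_contra hcon
      have h5 := h2 ⟨v, hvy⟩ (fun h => hcon ((hm _).mp h))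
      rw [hr, hrv v hv] at h5
      omega
    have hup : ∀ x, y < x → ∃ v, (v = v0 ∨ v = v1) ∧ v ≤ x := by
      intro x hx
      rcases hab x hx with h | h
      · exact ⟨v0, Or.inl rfl, h⟩
      · exact ⟨v1, Or.inr rfl, h⟩
    have hT1 : ∀ x x', x ≤ x' → ¬ x = y → x ∈ F → x' ∈ F := by
      intro x x' hxx hxy hx
      exact (hm ⟨x', hp x x' hxx hxy⟩).mp (h1 ⟨x, hxy⟩ _ hxx ((hm _).mpr hx))
    have hvy : ∀ v, (v = v0 ∨ v = v1) → ¬ v = y := by
      intro v hv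
      rcases hv with rfl | rfl
      · exact hv0.ne'
      · exact hv1.ne'
    have habv : ∀ x, y < x → x ∈ F ∧ rho w e x < 0 := by
      intro x hx
      obtain ⟨v, hv, hvx⟩ := hup x hx
      have hxF := hT1 v x hvx (hvy v hv) (hvF v hv)
      refine ⟨hxF, ?_⟩
      rcases eq_or_lt_of_le hvx with h | h
      · rw [← h, hrv v hv]
        norm_num
      · have h5 := h4 ⟨v, hvy v hv⟩ ⟨x, hx.ne'⟩ h ((hm _).mpr (hvF v hv)) ((hm _).mpr hxF)
        rw [hr, hr, hrv v hv] at h5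
        have h6 : rho w e x < -1 := h5
        omega
    refine ⟨⟨?_, ?_, ?_, ?_⟩, h0', hyF⟩
    · intro x x' hxx hx
      by_cases hxy : x = y
      · subst hxy
        rcases eq_or_lt_of_le hxx with h | h
        · rw [← h]; exact hx
        · exact (habv x' h).1
      · exact hT1 x x' hxx hxy hx
    · intro x hx
      have hxy : ¬ x = y := fun h => hx (h ▸ hyF)
      rw [← hr ⟨x, hxy⟩]
      exact h2 _ (fun h => hx ((hm _).mp h))
    · intro x x' hxx hx hx'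
      have hxy : ¬ x = y := fun h => hx (h ▸ hyF)
      rw [← hr ⟨x, hxy⟩, ← hr ⟨x', hp x x' hxx hxy⟩]
      exact h3 _ _ hxx (fun h => hx ((hm _).mp h)) (fun h => hx' ((hm _).mp h))
    · intro x x' hxx hx hx'
      by_cases hxy : x = y
      · subst hxy
        rw [hry h0']
        exact (habv x' hxx).2
      · rw [← hr ⟨x, hxy⟩, ← hr ⟨x', hp x x' hxx.le hxy⟩]
        exact h4 _ _ hxx ((hm _).mpr hx) ((hm _).mpr hx')

open Classical in
/-- **A minimal element on the level of the window**, energies at most two. -/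
theorem dvd_special (hgr : GradedBelow Q) (hy : ∀ x, x ≤ y → x = y) (hly : lev y = w) {v0 v1 : Q}
    (hv0 : y < v0) (hv1 : y < v1) (hl0 : lev v0 + 1 = w) (hl1 : lev v1 + 1 = w)
    (hab : ∀ x, y < x → v0 ≤ x ∨ v1 ≤ x)
    (h2 : ∀ p : Q, lev p = w + 1 → ((lv Q w).filter (fun x => p < x)).card ≤ 2)
    (h2' : ∀ p : Q, lev p + 1 = w → ((lv Q w).filter (fun x => x < p)).card ≤ 2)
    (hlow : ∀ p : Q, lev p + 1 < w → ∃ p', p' < p ∧ lev p' = lev p + 1) {n c : ℕ} (hn : n ≤ 2)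
    (hc : c + 1 ≤ (lv Q w).card)
    (hA : ∀ b ≤ n, (1 + X : ℤ[X]) ^ c ∣ Z {x // ¬ x = y} w b)
    (hB : ∀ b ≤ n, (1 + X : ℤ[X]) ^ c ∣ SC (fun (e : {x // ¬ x = y} → ℕ) F => Vd w e F ∧
      (e ⟨v0, hv0.ne'⟩ = 0 ∧ e ⟨v1, hv1.ne'⟩ = 0)) b) :
    (1 + X : ℤ[X]) ^ c ∣ Z Q w n := by
  rw [Z_eq_SC, SC_split (fun (e : Q → ℕ) F => Vd w e F) (fun e _ => 1 ≤ e y) n]
  refine dvd_add (dvd_site hgr hy hly h2 h2' hlow hn hc) ?_
  rw [SC_split _ (fun _ F => y ∈ F) n]
  refine dvd_add ?_ ?_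
  · have h5 : ∀ (e : Q → ℕ) (F : Finset Q), ((Vd w e F ∧ ¬ 1 ≤ e y) ∧ y ∈ F) ↔
        (Vd w e F ∧ (e y = 0 ∧ y ∈ F)) := by
      intro e F
      constructor
      · rintro ⟨⟨a, b⟩, c⟩
        exact ⟨a, by omega, c⟩
      · rintro ⟨a, b, c⟩
        exact ⟨⟨a, by omega⟩, c⟩
    rw [SC_congr h5]
    refine dvd_SC_prod (fun x => x = y) _ (fun e F => (∀ x, e x = 0) ∧ F = univ)
      (fun e F => Vd w e F ∧ (e ⟨v0, hv0.ne'⟩ = 0 ∧ e ⟨v1, hv1.ne'⟩ = 0)) ?_ hB
    intro e F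
    exact special_B hy hly hv0 hv1 hl0 hl1 hab e F
  · have h5 : ∀ (e : Q → ℕ) (F : Finset Q), ((Vd w e F ∧ ¬ 1 ≤ e y) ∧ y ∉ F) ↔
        (Vd w e F ∧ (e y = 0 ∧ y ∉ F)) := by
      intro e F
      constructor
      · rintro ⟨⟨a, b⟩, c⟩
        exact ⟨a, by omega, c⟩
      · rintro ⟨a, b, c⟩
        exact ⟨⟨a, by omega⟩, c⟩
    rw [SC_congr h5]
    refine dvd_SC_prod (fun x => x = y) _ (fun e F => (∀ x, e x = 0) ∧ F = ∅)
      (fun e F => Vd w e F) ?_ (fun b hb => by rw [← Z_eq_SC]; exact hA b hb)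
    intro e F
    exact special_A hy hly e F

end Special

end Pool.Agent.GaussPoset
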