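import Pool.Agent.W_448fc_h67.FcH

/-!
A common child of the fold end and the straight end of a stair: the component.
-/

namespace Pool.Agent.GaussPoset

set_option linter.unusedSectionVars false

open Polynomial Finset

universe u

lemma TriS.card_lv {T : Type u} [Fintype T] [PartialOrder T] [DecidableEq T] {m g u : ℕ}
    {co : T → ℕ × ℕ} (H : TriS T m co) (hm : m = 2 * g + u) (hu : u ≤ 1) (hg : 1 ≤ g) :
    (lv T (m + u + 1)).card = g + 1 := by
  classical
  have hm1 : 1 ≤ m := by omega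
  rw [← H.card_sites hm hu hg]
  refine Finset.card_bij (fun x _ => OrderDual.toDual x) ?_ ?_ ?_
  · intro x hx
    rw [mem_lv] at hx ⊢
    rw [H.lev_eq] at hx
    rw [H.dlev hm1]
    have e1 : OrderDual.ofDual (OrderDual.toDual x) = x := rfl
    rw [e1]
    omega
  · intro x _ y _ h
    exact h
  · intro a ha
    refine ⟨OrderDual.ofDual a, ?_, rfl⟩
    rw [mem_lv] at ha ⊢
    rw [H.dlev hm1] at ha
    rw [H.lev_eq]
    have := H.sum_le (OrderDual.ofDual a)
    omega

variable {P : Type u} [Fintype P] [PartialOrder P] [DecidableEq P] {r m g u : ℕ}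

/-- `z` covers exactly the fold end `F = (m, m)` and the straight end `S = (0, 2 m)` of a stair -/
structure CEl (t0 : Tops P) (Nc : Finset P) (co : P → ℕ × ℕ) (m : ℕ) (z F S : P) : Prop where
  chart : Chart (t0 : P) (fun c => c.1 ≤ c.2) Nc co
  strip : lowPart (2 * m) (t0 : P) ⊆ Nc
  F_mem : F ∈ Nc
  S_mem : S ∈ Nc
  co_F : co F = (m, m)
  co_S : co S = (0, 2 * m)
  zF : z ⋖ F
  zS : z ⋖ S
  only : ∀ y, z ⋖ y → y = F ∨ y = S

namespace CEl

variable {t0 : Tops P} {Nc : Finset P} {co : P → ℕ × ℕ} {z F S : P}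

lemma lt_iff (C : CEl t0 Nc co m z F S) {x : P} : z < x ↔ F ≤ x ∨ S ≤ x := by
  constructor
  · intro h
    obtain ⟨w, hw, hwx⟩ := exists_covBy_le h
    rcases C.only w hw with rfl | rfl
    · exact Or.inl hwx
    · exact Or.inr hwx
  · rintro (h | h)
    · exact C.zF.1.trans_le h
    · exact C.zS.1.trans_le h

lemma mem_of_lt (C : CEl t0 Nc co m z F S) {x : P} (h : z < x) : x ∈ Nc := by
  rcases C.lt_iff.mp h with h | h
  · exact C.chart.up F C.F_mem x h
  · exact C.chart.up S C.S_mem x h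

lemma lev_z (C : CEl t0 Nc co m z F S) (hgr : GradedBelow P) : lev z = 2 * m + 1 := by
  rw [hgr.lev_covBy C.zF, C.chart.lev F C.F_mem, C.co_F]
  simp only
  omega

lemma lt_cell (C : CEl t0 Nc co m z F S) {x : P} (h : z < x) :
    (co x).1 ≤ (co x).2 ∧ ((co x).2 ≤ m ∨ ((co x).1 = 0 ∧ (co x).2 ≤ 2 * m)) := by
  have hx := C.mem_of_lt h
  refine ⟨C.chart.mem x hx, ?_⟩
  rcases C.lt_iff.mp h with h' | h'
  · left
    have := (C.chart.le_iff F C.F_mem x hx).mp h'
    rw [C.co_F] at this
    exact this.2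
  · right
    have := (C.chart.le_iff S C.S_mem x hx).mp h'
    rw [C.co_S] at this
    exact ⟨Nat.le_zero.mp this.1, this.2⟩

lemma lt_of_cell (C : CEl t0 Nc co m z F S) {x : P} (hx : x ∈ Nc)
    (h : (co x).2 ≤ m ∨ ((co x).1 = 0 ∧ (co x).2 ≤ 2 * m)) : z < x := by
  rw [C.lt_iff]
  have h1 : (co x).1 ≤ (co x).2 := C.chart.mem x hx
  rcases h with h | h
  · left
    rw [C.chart.le_iff F C.F_mem x hx, C.co_F]
    exact ⟨by simp only; omega, h⟩
  · right
    rw [C.chart.le_iff S C.S_mem x hx, C.co_S]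
    exact ⟨by simp only; omega, h.2⟩

lemma ex_cell (C : CEl t0 Nc co m z F S) {s c : ℕ} (hsc : s ≤ c)
    (h : c ≤ m ∨ (s = 0 ∧ c ≤ 2 * m)) : ∃ x ∈ Nc, co x = (s, c) ∧ z < x := by
  rcases h with h | h
  · obtain ⟨y, hy, hcy⟩ := C.chart.low F C.F_mem (s, c) (by
      rw [C.co_F]
      exact ⟨by simp only; omega, h⟩) hsc
    exact ⟨y, hy, hcy, C.lt_of_cell hy (by rw [hcy]; exact Or.inl h)⟩
  · obtain ⟨y, hy, hcy⟩ := C.chart.low S C.S_mem (s, c) (by
      rw [C.co_S]
      exact ⟨by simp only; omega, h.2⟩) hsc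
    exact ⟨y, hy, hcy, C.lt_of_cell hy (by rw [hcy]; exact Or.inr h)⟩

/-- the elements above `z` -/
lemma triS (C : CEl t0 Nc co m z F S) {T : Type u} [Fintype T] [PartialOrder T] (f : T → P)
    (hf : ∀ x y, x ≤ y ↔ f x ≤ f y) (him : ∀ t, z < f t) (hsur : ∀ x, z < x → ∃ t, f t = x) :
    TriS T m (fun t => co (f t)) where
  inj := by
    intro x y h
    have h1 := C.chart.inj _ (C.mem_of_lt (him x)) _ (C.mem_of_lt (him y)) h
    exact le_antisymm ((hf x y).mpr h1.le) ((hf y x).mpr h1.ge)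
  le_iff := by
    intro x y
    rw [hf, C.chart.le_iff _ (C.mem_of_lt (him x)) _ (C.mem_of_lt (him y))]
  fst_le := fun x => (C.lt_cell (him x)).1
  snd_le := fun x => (C.lt_cell (him x)).2
  ex := by
    intro s c hsc h
    obtain ⟨x, -, hcx, hzx⟩ := C.ex_cell hsc h
    obtain ⟨t, rfl⟩ := hsur x hzx
    exact ⟨t, hcx⟩

/-- elements of the component which are not above `z` -/
lemma out (C : CEl t0 Nc co m z F S) (hm : 1 ≤ m) {x : P} (hx : x ≤ (t0 : P)) (hzx : ¬ z ≤ x) :
    m + 2 ≤ lev x := by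
  by_contra hcon
  have hxN : x ∈ Nc := C.strip (mem_lowPart.mpr ⟨hx, by omega⟩)
  have hl := C.chart.lev x hxN
  have h1 : (co x).1 ≤ (co x).2 := C.chart.mem x hxN
  exact hzx (C.lt_of_cell hxN (by omega)).le

/-- the maximal elements of the component which are not above `z` -/
lemma out_max (C : CEl t0 Nc co m z F S) (hm : 4 ≤ m) {y : P} (hy : y ≤ (t0 : P)) (hzy : ¬ z ≤ y)
    (habv : ∀ x, y < x → z ≤ x) : m + 5 ≤ lev y ∨ (y ∈ Nc ∧ co y = (1, m + 1)) := by
  rcases Nat.lt_or_ge (2 * m) (lev y) with h | h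
  · left; omega
  right
  have hyN : y ∈ Nc := C.strip (mem_lowPart.mpr ⟨hy, h⟩)
  refine ⟨hyN, ?_⟩
  have hl := C.chart.lev y hyN
  have h1 : (co y).1 ≤ (co y).2 := C.chart.mem y hyN
  have h2 : ¬ ((co y).2 ≤ m ∨ ((co y).1 = 0 ∧ (co y).2 ≤ 2 * m)) :=
    fun h => hzy (C.lt_of_cell hyN h).le
  have h3 : m < (co y).2 := by omega
  have h4 : 1 ≤ (co y).1 := by omega
  -- the element above in the same column
  have key : ∀ c : ℕ × ℕ, c ≤ co y → c ≠ co y → c.1 ≤ c.2 → c.2 ≤ m ∨ (c.1 = 0 ∧ c.2 ≤ 2 * m) := by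
    intro c hc hne hS
    obtain ⟨x, hx, hcx⟩ := C.chart.low y hyN c hc hS
    have hyx : y ≤ x := by rw [C.chart.le_iff y hyN x hx, hcx]; exact hc
    have hlt : y < x := lt_of_le_of_ne hyx (by
      rintro rfl
      exact hne hcx.symm)
    have hzx := habv x hlt
    have hlt' : z < x := lt_of_le_of_ne hzx (by
      rintro rfl
      exact absurd hlt.le (fun h' => by
        have := lev_strictAnti hlt
        have h5 := C.chart.lev z hx
        have h6 := lev_strictAnti C.zF.1
        have h7 := C.chart.lev F C.F_mem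
        rw [C.co_F] at h7
        simp only at h7
        omega))
    have := (C.lt_cell hlt').2
    rw [hcx] at this
    exact this
  have h5 := key ((co y).1 - 1, (co y).2) ⟨Nat.sub_le _ _, le_rfl⟩ (by
    intro h
    have := congrArg Prod.fst h
    simp only at this
    omega) (by simp only; omega)
  have h6 := key ((co y).1, (co y).2 - 1) ⟨le_rfl, Nat.sub_le _ _⟩ (by
    intro h
    have := congrArg Prod.snd h
    simp only at this
    omega) (by simp only; omega)
  simp only at h5 h6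
  exact Prod.ext (by simp only; omega) (by simp only; omega)

end CEl

section Nup

variable {Q : Type u} [Fintype Q] [PartialOrder Q] [DecidableEq Q]

lemma sub_le_nup {i : ℕ} {x : Q} : lev x - i ≤ nup i x := by
  classical
  have h1 : ∀ k ∈ range (lev x - i), ∃ y, x ≤ y ∧ lev y = i + 1 + k := by
    intro k hk
    rw [mem_range] at hk
    exact exists_above' (by omega)
  haveI : Nonempty Q := ⟨x⟩
  choose! f hf using h1
  unfold nup
  calc lev x - i = (range (lev x - i)).card := (card_range _).symm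
    _ ≤ _ := by
      refine Finset.card_le_card_of_injOn f ?_ ?_
      · intro k hk
        have := hf k (Finset.mem_coe.mp hk)
        rw [Finset.mem_coe, mem_filter]
        exact ⟨mem_univ _, this.1, by omega⟩
      · intro k hk k' hk' h
        have e1 := hf k (Finset.mem_coe.mp hk)
        have e2 := hf k' (Finset.mem_coe.mp hk')
        rw [h] at e1
        omega

/-- two elements on one level give one more -/
lemma sub_lt_nup {i : ℕ} {x a b : Q} (ha : x ≤ a) (hb : x ≤ b) (hab : a ≠ b)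
    (hl : lev a = lev b) (hi : i < lev a) : lev x - i + 1 ≤ nup i x := by
  classical
  have h1 : ∀ k ∈ range (lev x - i), ∃ y, x ≤ y ∧ lev y = i + 1 + k := by
    intro k hk
    rw [mem_range] at hk
    exact exists_above' (by omega)
  haveI : Nonempty Q := ⟨x⟩
  choose! f hf using h1
  have hinj : Set.InjOn f (range (lev x - i)) := by
    intro k hk k' hk' h
    have e1 := hf k (Finset.mem_coe.mp hk)
    have e2 := hf k' (Finset.mem_coe.mp hk')
    rw [h] at e1
    omega
  -- one of `a`, `b` is not in the image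
  have h3 : ∃ c, x ≤ c ∧ lev c = lev a ∧ c ∉ (range (lev x - i)).image f := by
    by_cases hc : a ∈ (range (lev x - i)).image f
    · refine ⟨b, hb, hl.symm, fun hb' => ?_⟩
      rw [mem_image] at hc hb'
      obtain ⟨k, hk, rfl⟩ := hc
      obtain ⟨k', hk', rfl⟩ := hb'
      have e1 := (hf k hk).2
      have e2 := (hf k' hk').2
      apply hab
      have : k = k' := by omega
      rw [this]
    · exact ⟨a, ha, rfl, hc⟩
  obtain ⟨c, hc1, hc2, hc3⟩ := h3
  unfold nup
  have h4 : (insert c ((range (lev x - i)).image f)).card = lev x - i + 1 := by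
    rw [card_insert_of_notMem hc3, card_image_of_injOn hinj, card_range]
  rw [← h4]
  refine Finset.card_le_card fun y hy => ?_
  rw [mem_insert, mem_image] at hy
  rw [mem_filter]
  rcases hy with rfl | ⟨k, hk, rfl⟩
  · exact ⟨mem_univ _, hc1, by omega⟩
  · have := hf k hk
    exact ⟨mem_univ _, this.1, by omega⟩

end Nup

end Pool.Agent.GaussPoset
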