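import Pool.Agent.W_448fc_h67.FcI

/-!
The dangerous part of a common child of the fold end and the straight end, one component.
-/

namespace Pool.Agent.GaussPoset

set_option linter.unusedSectionVars false

open Polynomial Finset

universe u

section General

variable {Q : Type u} [Fintype Q] [PartialOrder Q] [DecidableEq Q]

lemma gradedBelow_sub {L : Finset Q} (hgr : GradedBelow Q)
    (hL : ∀ x y, x ≤ y → x ∈ L → y ∈ L) : GradedBelow {x // x ∈ L} := by
  have hl : ∀ x : {x // x ∈ L}, lev x = lev (x : Q) := lev_subtype (p := fun x => x ∈ L) hL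
  intro z x hzx
  obtain ⟨w, h1, h2, h3⟩ := hgr z x hzx
  refine ⟨⟨w, hL z w h1 z.2⟩, h1, h2, ?_⟩
  rw [hl, hl]
  exact h3

/-- the number of sites of a larger set -/
lemma card_lv_le {T : Type u} [Fintype T] [PartialOrder T] [DecidableEq T] {w : ℕ} (f : T → Q)
    (hinj : Function.Injective f) (hlev : ∀ t, lev (f t) = lev t) :
    (lv T w).card ≤ (lv Q w).card := by
  refine Finset.card_le_card_of_injOn f ?_ hinj.injOn
  intro t ht
  rw [Finset.mem_coe, mem_lv] at ht ⊢
  rw [hlev]
  exact ht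

end General

variable {P : Type u} [Fintype P] [PartialOrder P] [DecidableEq P] {r m g u : ℕ}

namespace CEl

variable {t0 : Tops P} {Nc : Finset P} {co : P → ℕ × ℕ} {z F S : P}

section Comp

variable {Q : Type u} [Fintype Q] [PartialOrder Q] [DecidableEq Q]

/-- an up-closed part of `P` below the top `t0` -/
structure Emb (t0 : Tops P) (z : P) (f : Q → P) : Prop where
  le_iff : ∀ x y, x ≤ y ↔ f x ≤ f y
  up : ∀ x y, f x ≤ y → ∃ y', f y' = y
  le_t : ∀ x, f x ≤ (t0 : P)
  z : ∃ x, f x = z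

variable {f : Q → P}

lemma Emb.inj (E : Emb t0 z f) : Function.Injective f := by
  intro x y h
  exact le_antisymm ((E.le_iff x y).mpr h.le) ((E.le_iff y x).mpr h.ge)

lemma Emb.lt_iff (E : Emb t0 z f) (x y : Q) : x < y ↔ f x < f y := by
  rw [lt_iff_le_not_ge, lt_iff_le_not_ge, ← E.le_iff, ← E.le_iff]

lemma Emb.lev (E : Emb t0 z f) (x : Q) : Pool.Agent.GaussPoset.lev x =
    Pool.Agent.GaussPoset.lev (f x) := by
  refine lev_eq_of (f := fun x => Pool.Agent.GaussPoset.lev (f x)) ?_ ?_ x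
  · intro a b hab
    exact lev_strictAnti ((E.lt_iff a b).mp hab)
  · intro x hx
    obtain ⟨k, hk⟩ := Nat.exists_eq_succ_of_ne_zero hx
    obtain ⟨y, hy, hy2⟩ := exists_lev_succ hk
    obtain ⟨y', rfl⟩ := E.up x y hy.le
    exact ⟨y', (E.lt_iff x y').mpr hy, by simp only [hk, hy2]⟩

lemma Emb.graded (E : Emb t0 z f) (hgr : GradedBelow P) : GradedBelow Q := by
  intro a b hab
  obtain ⟨w, h1, h2, h3⟩ := hgr _ _ ((E.lt_iff a b).mp hab)
  obtain ⟨w', rfl⟩ := E.up a w h1
  refine ⟨w', (E.le_iff _ _).mpr h1, (E.lt_iff _ _).mpr h2, ?_⟩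
  rw [E.lev, E.lev]
  exact h3

open Classical in
/-- the elements above `z` in `Q` -/
noncomputable def upz (z : P) (f : Q → P) : Finset Q := univ.filter (fun x => z ≤ f x)

open Classical in
/-- the elements strictly above `z` in `Q` -/
noncomputable def tz (z : P) (f : Q → P) : Finset Q := univ.filter (fun x => z < f x)

lemma mem_upz {x : Q} : x ∈ upz z f ↔ z ≤ f x := by
  classical
  unfold upz
  simp

lemma mem_tz {x : Q} : x ∈ tz z f ↔ z < f x := by
  classical
  unfold tz
  simp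

lemma Emb.upz_up (E : Emb t0 z f) : ∀ x y, x ≤ y → x ∈ upz z f → y ∈ upz z f := by
  intro x y hxy hx
  rw [mem_upz] at hx ⊢
  exact hx.trans ((E.le_iff x y).mp hxy)

lemma Emb.tz_up (E : Emb t0 z f) : ∀ x y, x ≤ y → x ∈ tz z f → y ∈ tz z f := by
  intro x y hxy hx
  rw [mem_tz] at hx ⊢
  exact hx.trans_le ((E.le_iff x y).mp hxy)

/-- the strict part is a closed stair with a chain -/
lemma triS_tz (C : CEl t0 Nc co m z F S) (E : Emb t0 z f) :
    TriS {x // x ∈ tz z f} m (fun t => co (f t)) := by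
  obtain ⟨z', hz'⟩ := E.z
  refine C.triS (fun t : {x // x ∈ tz z f} => f t) (fun x y => E.le_iff _ _)
    (fun t => mem_tz.mp t.2) ?_
  intro x hx
  obtain ⟨y', hy'⟩ := E.up z' x (by rw [hz']; exact hx.le)
  exact ⟨⟨y', mem_tz.mpr (by rw [hy']; exact hx)⟩, hy'⟩

/-- many elements above `z` -/
lemma nup_z (C : CEl t0 Nc co m z F S) (hgr : GradedBelow P) (E : Emb t0 z f)
    (hmu : m + u + 1 < 2 * m) {x : Q} (hx : f x = z) : m - u + 1 ≤ nup (m + u + 1) x := by
  obtain ⟨a, ha⟩ := E.up x F (by rw [hx]; exact C.zF.1.le)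
  obtain ⟨b, hb⟩ := E.up x S (by rw [hx]; exact C.zS.1.le)
  have hlF := C.chart.lev F C.F_mem
  have hlS := C.chart.lev S C.S_mem
  rw [C.co_F] at hlF
  rw [C.co_S] at hlS
  simp only at hlF hlS
  have hz := C.lev_z hgr
  have h1 := sub_lt_nup (i := m + u + 1) (x := x) (a := a) (b := b)
    ((E.le_iff _ _).mpr (by rw [hx, ha]; exact C.zF.1.le))
    ((E.le_iff _ _).mpr (by rw [hx, hb]; exact C.zS.1.le)) ?_ ?_ ?_
  · rw [E.lev, hx, hz] at h1
    omega
  · rintro rfl
    have : F = S := ha.symm.trans hb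
    have h2 := C.co_F
    rw [this, C.co_S, Prod.mk.injEq] at h2
    omega
  · rw [E.lev, E.lev, ha, hb, hlF, hlS]
    omega
  · rw [E.lev, ha, hlF]
    omega

lemma tz_sub : tz z f ⊆ upz z f := by
  intro x hx
  rw [mem_tz] at hx
  rw [mem_upz]
  exact hx.le

/-- `z` itself is costly -/
lemma Z_upz (C : CEl t0 Nc co m z F S) (hgr : GradedBelow P) (E : Emb t0 z f)
    (hmu : m + u + 1 < 2 * m) {n : ℕ} (hn : n < m - u + 1) :
    Z {x // x ∈ upz z f} (m + u + 1) n = Z {x // x ∈ tz z f} (m + u + 1) n := by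
  refine Z_sub E.tz_up E.upz_up tz_sub ?_ ?_
  · intro x hx hx'
    rw [mem_upz] at hx
    rw [mem_tz] at hx'
    have h1 : f x = z := by
      by_contra hne
      exact hx' (lt_of_le_of_ne hx (Ne.symm hne))
    rw [E.lev, h1, C.lev_z hgr]
    omega
  · intro x hx hx'
    rw [mem_upz] at hx
    rw [mem_tz] at hx'
    have h1 : f x = z := by
      by_contra hne
      exact hx' (lt_of_le_of_ne hx (Ne.symm hne))
    exact hn.trans_le (C.nup_z hgr E hmu h1)

/-- the special element `(1, m + 1)` -/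
lemma special (C : CEl t0 Nc co m z F S) (H : Gr P r) (E : Emb t0 z f) (hm : m = 2 * g + 1)
    (hg : 2 ≤ g) {y : Q} (hyN : f y ∈ Nc) (hcy : co (f y) = (1, m + 1)) {L : Finset Q}
    (hL : ∀ x y, x ≤ y → x ∈ L → y ∈ L) (hLy : ∀ x, x ∈ L ↔ x = y ∨ x ∈ upz z f) {n : ℕ}
    (hn : n ≤ 2) : (1 + X : ℤ[X]) ^ (g + 1) ∣ Z {x // x ∈ L} (m + 2) n := by
  classical
  have hgr := H.gradedBelow
  have hgQ := E.graded hgr
  have hly : lev y = m + 2 := by
    rw [E.lev, C.chart.lev _ hyN, hcy]
    simp only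
    omega
  have hyz : ¬ z < f y := by
    intro h
    have := C.lt_cell h
    rw [hcy] at this
    simp only at this
    omega
  -- the set without `z`
  let K : Finset Q := insert y (tz z f)
  have hK : ∀ x, x ∈ K ↔ x = y ∨ x ∈ tz z f := fun x => mem_insert
  have habove : ∀ x, y < x → x ∈ tz z f := by
    intro x hx
    have h1 : x ∈ L := hL y x hx.le ((hLy y).mpr (Or.inl rfl))
    rcases (hLy x).mp h1 with h | h
    · exact absurd h hx.ne'
    · rw [mem_upz] at h
      rw [mem_tz]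
      refine lt_of_le_of_ne h ?_
      intro h2
      have h3 := lev_strictAnti hx
      rw [E.lev x, ← h2, C.lev_z hgr, hly] at h3
      omega
  have hKup : ∀ x x', x ≤ x' → x ∈ K → x' ∈ K := by
    intro x x' hxx hx
    rw [hK] at hx ⊢
    rcases hx with rfl | hx
    · rcases eq_or_lt_of_le hxx with h | h
      · exact Or.inl h.symm
      · exact Or.inr (habove x' h)
    · exact Or.inr (E.tz_up x x' hxx hx)
  have hKL : K ⊆ L := by
    intro x hx
    rw [hK] at hx
    rw [hLy]
    rcases hx with h | h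
    · exact Or.inl h
    · exact Or.inr (tz_sub h)
  have hout : ∀ x ∈ L, x ∉ K → f x = z := by
    intro x hx hxK
    rw [hK] at hxK
    push Not at hxK
    rcases (hLy x).mp hx with h | h
    · exact absurd h hxK.1
    · rw [mem_upz] at h
      by_contra hne
      exact hxK.2 (mem_tz.mpr (lt_of_le_of_ne h (Ne.symm hne)))
  rw [Z_sub hKup hL hKL (fun x hx hxK => by
      rw [E.lev, hout x hx hxK, C.lev_z hgr]
      omega) (fun x hx hxK => by
      have : m - 1 + 1 ≤ nup (m + 2) x := C.nup_z (u := 1) hgr E (by omega) (hout x hx hxK)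
      omega)]
  -- the poset `K`
  have hl : ∀ x : {x // x ∈ K}, lev x = lev (x : Q) := lev_subtype (p := fun x => x ∈ K) hKup
  let y' : {x // x ∈ K} := ⟨y, (hK y).mpr (Or.inl rfl)⟩
  obtain ⟨V0, hV0, hcV0, hzV0⟩ := C.ex_cell (s := 0) (c := m + 1) (Nat.zero_le _)
    (Or.inr ⟨rfl, by omega⟩)
  obtain ⟨V1, hV1, hcV1, hzV1⟩ := C.ex_cell (s := 1) (c := m) (by omega) (Or.inl le_rfl)
  have hyV0 : f y ≤ V0 := by
    rw [C.chart.le_iff _ hyN _ hV0, hcy, hcV0]
    exact ⟨by simp only; omega, by simp only; omega⟩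
  have hyV1 : f y ≤ V1 := by
    rw [C.chart.le_iff _ hyN _ hV1, hcy, hcV1]
    exact ⟨by simp only; omega, by simp only; omega⟩
  obtain ⟨w0, hw0⟩ := E.up y V0 hyV0
  obtain ⟨w1, hw1⟩ := E.up y V1 hyV1
  let v0 : {x // x ∈ K} := ⟨w0, (hK w0).mpr (Or.inr (mem_tz.mpr (by rw [hw0]; exact hzV0)))⟩
  let v1 : {x // x ∈ K} := ⟨w1, (hK w1).mpr (Or.inr (mem_tz.mpr (by rw [hw1]; exact hzV1)))⟩
  have hlv0 : lev v0 + 1 = m + 2 := by
    rw [hl, E.lev]
    show lev (f w0) + 1 = m + 2
    rw [hw0, C.chart.lev _ hV0, hcV0]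
    simp only
    omega
  have hlv1 : lev v1 + 1 = m + 2 := by
    rw [hl, E.lev]
    show lev (f w1) + 1 = m + 2
    rw [hw1, C.chart.lev _ hV1, hcV1]
    simp only
    omega
  have hly' : lev y' = m + 2 := by
    rw [hl]
    exact hly
  have hyv0 : y' < v0 := by
    refine lt_of_le_of_ne ((E.le_iff y w0).mpr (by rw [hw0]; exact hyV0)) ?_
    intro h
    rw [← h] at hlv0
    omega
  have hyv1 : y' < v1 := by
    refine lt_of_le_of_ne ((E.le_iff y w1).mpr (by rw [hw1]; exact hyV1)) ?_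
    intro h
    rw [← h] at hlv1
    omega
  have hmin : ∀ x, x ≤ y' → x = y' := by
    intro x hx
    rcases (hK x).mp x.2 with h | h
    · exact Subtype.ext h
    · exfalso
      rw [mem_tz] at h
      exact hyz (h.trans_le ((E.le_iff _ _).mp hx))
  have hrest : ∀ x : {x // x ∈ K}, ¬ x = y' → z < f x := by
    intro x hx
    rcases (hK x).mp x.2 with h | h
    · exact absurd (Subtype.ext h) hx
    · exact mem_tz.mp h
  -- the stair
  have hT : TriS {x : {x // x ∈ K} // ¬ x = y'} m (fun t => co (f t.1.1)) := by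
    refine C.triS (fun t : {x : {x // x ∈ K} // ¬ x = y'} => f t.1.1)
      (fun x y => E.le_iff _ _) (fun t => hrest t.1 t.2) ?_
    intro x hx
    obtain ⟨z', hz'⟩ := E.z
    obtain ⟨x', hx'⟩ := E.up z' x (by rw [hz']; exact hx.le)
    have h1 : x' ∈ tz z f := mem_tz.mpr (by rw [hx']; exact hx)
    refine ⟨⟨⟨x', (hK x').mpr (Or.inr h1)⟩, ?_⟩, hx'⟩
    intro h
    have h2 : x' = y := congrArg Subtype.val h
    rw [h2, mem_tz] at h1
    exact hyz h1
  have hle2 : ∀ (s : Finset {x // x ∈ K}) (U : Finset P), U.card ≤ 2 →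
      (∀ x ∈ s, f x.1 ∈ U) → s.card ≤ 2 := by
    intro s U hU hs
    refine le_trans ?_ hU
    refine Finset.card_le_card_of_injOn (fun x => f x.1) (fun x hx => hs x hx) ?_
    intro x _ x' _ h
    exact Subtype.ext (E.inj h)
  refine dvd_special (w := m + 2) (gradedBelow_sub hgQ hKup) hmin hly' hyv0 hyv1 hlv0 hlv1 ?_ ?_ ?_ ?_
    hn ?_ ?_ ?_
  · -- elements above `y`
    intro x hx
    have h1 : f y < f x.1 := (E.lt_iff _ _).mp hx
    have hxN := C.mem_of_lt (hrest x hx.ne')
    have h2 := (C.chart.le_iff _ hyN _ hxN).mp h1.le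
    rw [hcy] at h2
    have h3 := h2.1
    have h4 := h2.2
    simp only at h3 h4
    have h5 := C.chart.lev _ hxN
    have h6 := lev_strictAnti h1
    rw [C.chart.lev _ hyN, hcy, h5] at h6
    simp only at h6
    rcases Nat.eq_zero_or_pos (co (f x.1)).1 with h7 | h7
    · left
      refine (E.le_iff _ _).mpr ?_
      show f w0 ≤ f x.1
      rw [hw0, C.chart.le_iff _ hV0 _ hxN, hcV0]
      exact ⟨h7.le, h4⟩
    · right
      refine (E.le_iff _ _).mpr ?_
      show f w1 ≤ f x.1
      rw [hw1, C.chart.le_iff _ hV1 _ hxN, hcV1]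
      exact ⟨h3, by simp only; omega⟩
  · -- above the elements below the window
    intro p hp
    refine hle2 _ (Win.uc (f p.1)) (Win.uc_card_le H _) ?_
    intro x hx
    rw [mem_filter, mem_lv] at hx
    rw [Win.mem_uc]
    refine covBy_of_lev ((E.lt_iff _ _).mp hx.2) ?_
    rw [← E.lev, ← E.lev, ← hl, ← hl, hx.1, hp]
  · -- below the elements above the window
    intro p hp
    refine hle2 _ (Win.dc (f p.1)) (Win.dc_card_le H _) ?_
    intro x hx
    rw [mem_filter, mem_lv] at hx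
    rw [Win.mem_dc]
    refine covBy_of_lev ((E.lt_iff _ _).mp hx.2) ?_
    rw [← E.lev, ← E.lev, ← hl, ← hl, hx.1, hp]
  · -- lower covers
    intro p hp
    have hpy : ¬ p = y' := by
      rintro rfl
      omega
    have hzp := hrest p hpy
    have hpN := C.mem_of_lt hzp
    have h1 := C.chart.lev _ hpN
    rw [hl, E.lev, h1] at hp
    have h2 := C.lt_cell hzp
    obtain ⟨x, hx, hcx, hzx⟩ := C.ex_cell (s := (co (f p.1)).1) (c := (co (f p.1)).2 + 1)
      (by omega) (by omega)
    have hxp : x ≤ f p.1 := by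
      rw [C.chart.le_iff _ hx _ hpN, hcx]
      exact ⟨le_rfl, Nat.le_succ _⟩
    obtain ⟨z', hz'⟩ := E.z
    obtain ⟨x', hx'⟩ := E.up z' x (by rw [hz']; exact hzx.le)
    refine ⟨⟨x', (hK x').mpr (Or.inr (mem_tz.mpr (by rw [hx']; exact hzx)))⟩, ?_, ?_⟩
    · refine lt_of_le_of_ne ((E.le_iff _ _).mpr (by
        show f x' ≤ f p.1
        rw [hx']; exact hxp)) ?_
      intro h
      have h3 : f x' = f p.1 := congrArg (fun t : {x // x ∈ K} => f t.1) h
      rw [hx'] at h3
      rw [h3] at hcx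
      have := congrArg Prod.snd hcx
      simp only at this
      omega
    · rw [hl, hl, E.lev, E.lev, h1]
      show lev (f x') = _
      rw [hx', C.chart.lev _ hx, hcx]
      simp only
      omega
  · -- number of sites
    have h1 := hT.card_lv hm le_rfl (by omega)
    have h2 : (insert y' ((lv {x : {x // x ∈ K} // ¬ x = y'} (m + 1 + 1)).map
        (Function.Embedding.subtype _))).card = g + 1 + 1 := by
      rw [card_insert_of_notMem, card_map, h1]
      intro h
      rw [mem_map] at h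
      obtain ⟨a, -, ha⟩ := h
      exact a.2 ha
    rw [← h2]
    refine Finset.card_le_card ?_
    intro x hx
    rw [mem_insert, mem_map] at hx
    rw [mem_lv]
    rcases hx with rfl | ⟨a, ha, rfl⟩
    · exact hly'
    · rw [mem_lv] at ha
      have h3 := lev_subtype (P := {x // x ∈ K}) (p := fun x => ¬ x = y') (fun x x' hxx hx h =>
        hx (hmin x (h ▸ hxx))) a
      show lev (a : {x // x ∈ K}) = m + 2
      omega
  · intro b hb
    exact hT.core_lt hm le_rfl (by omega) (by omega) (by omega)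
  · intro b hb
    refine hT.core_frozen hm hg ?_ ?_ b
    · show co (f w0) = (0, m + 1)
      rw [hw0, hcV0]
    · show co (f w1) = (1, m)
      rw [hw1, hcV1]

end Comp

end CEl

end Pool.Agent.GaussPoset
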