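import Pool.Agent.W_448fc_h67.FcJ

/-!
The dangerous part of a common child of the fold end and the straight end: one component.
-/

namespace Pool.Agent.GaussPoset

set_option linter.unusedSectionVars false

open Polynomial Finset

universe u

variable {P : Type u} [Fintype P] [PartialOrder P] [DecidableEq P] {r m g u : ℕ}

namespace CEl

variable {t0 : Tops P} {Nc : Finset P} {co : P → ℕ × ℕ} {z F S : P}

section Comp

variable {Q : Type u} [Fintype Q] [PartialOrder Q] [DecidableEq Q] {f : Q → P}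

/-- the core below the energy of the pole -/
lemma core_lt (C : CEl t0 Nc co m z F S) (hgr : GradedBelow P) (E : Emb t0 z f)
    (hm : m = 2 * g + u) (hu : u ≤ 1) (hg : 1 ≤ g) (hgu : g = 1 → u = 0) {n : ℕ}
    (hn : n < (u + 1) ^ 2) : (1 + X : ℤ[X]) ^ (g + 1) ∣ Z {x // x ∈ upz z f} (m + u + 1) n := by
  have hn' : n < m - u + 1 := by
    rcases Nat.le_one_iff_eq_zero_or_eq_one.mp hu with h | h
    · subst h; simp at hn; omega
    · subst h
      have : g ≠ 1 := fun h => by have := hgu h; omega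
      have : n < 4 := hn
      omega
  rw [C.Z_upz hgr E (by
    have : g = 1 → u = 0 := hgu
    omega) hn']
  exact (C.triS_tz E).core_lt hm hu hg hgu hn

/-- the value at the energy of the pole -/
lemma core_eq (C : CEl t0 Nc co m z F S) (hgr : GradedBelow P) (E : Emb t0 z f)
    (hm : m = 2 * g + u) (hu : u ≤ 1) (hg : 1 ≤ g) (hgu : g = 1 → u = 0) :
    ∃ a, a + 2 * u + 1 = below {x // x ∈ tz z f} (m + u + 1) ∧
      (1 + X : ℤ[X]) ^ (g + 1) ∣ Z {x // x ∈ upz z f} (m + u + 1) ((u + 1) ^ 2) -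
        X ^ a * (1 + X) ^ g := by
  have hn' : (u + 1) ^ 2 < m - u + 1 := by
    rcases Nat.le_one_iff_eq_zero_or_eq_one.mp hu with h | h
    · subst h; simp; omega
    · subst h
      have : g ≠ 1 := fun h => by have := hgu h; omega
      have : (1 + 1) ^ 2 = 4 := by norm_num
      omega
  rw [C.Z_upz hgr E (by
    have : g = 1 → u = 0 := hgu
    omega) hn']
  exact (C.triS_tz E).core_eq hm hu hg hgu

/-- the classes of larger up-sets -/
lemma cls (C : CEl t0 Nc co m z F S) (H : Gr P r) (E : Emb t0 z f)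
    (hm : m = 2 * g + u) (hu : u ≤ 1) (hg : 1 ≤ g) (hgu : g = 1 → u = 0) {L : Finset Q}
    (hL : ∀ x y, x ≤ y → x ∈ L → y ∈ L) (hUL : upz z f ⊆ L) (hne : L ≠ upz z f) {n : ℕ}
    (hn : n + (u + 1) * (L \ upz z f).card ≤ (u + 1) ^ 2) :
    (1 + X : ℤ[X]) ^ (g + 1) ∣ Z {x // x ∈ L} (m + u + 1) n := by
  classical
  have hgr := H.gradedBelow
  have hgQ := E.graded hgr
  have hpos : 1 ≤ (L \ upz z f).card := by
    rw [Nat.one_le_iff_ne_zero]
    intro h
    rw [card_eq_zero, sdiff_eq_empty_iff_subset] at h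
    exact hne (Finset.Subset.antisymm h hUL)
  rcases Nat.eq_zero_or_pos n with h0 | h0
  · subst h0
    rw [Z_zero]
    refine dvd_mul_of_dvd_right (pow_dvd_pow _ ?_) _
    rw [← (C.triS_tz E).card_lv hm hu hg]
    refine card_lv_le (fun t : {x // x ∈ tz z f} => (⟨(t : Q), hUL (tz_sub t.2)⟩ : {x // x ∈ L}))
      ?_ ?_
    · intro a b h
      exact Subtype.ext (congrArg (fun t : {x // x ∈ L} => (t : Q)) h)
    · intro t
      have h1 : ∀ x : {x // x ∈ L}, lev x = lev (x : Q) := lev_subtype (p := fun x => x ∈ L) hL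
      have h2 : ∀ x : {x // x ∈ tz z f}, lev x = lev (x : Q) :=
        lev_subtype (p := fun x => x ∈ tz z f) E.tz_up
      rw [h1, h2]
  · -- one more element, `u = 1`
    rcases Nat.le_one_iff_eq_zero_or_eq_one.mp hu with hu0 | hu1
    · subst hu0
      simp at hn
      omega
    · subst hu1
      have hg2 : 2 ≤ g := by
        have : g ≠ 1 := fun h => by have := hgu h; omega
        omega
      have h4 : (1 + 1) ^ 2 = 4 := by norm_num
      rw [h4] at hn
      have hc : (L \ upz z f).card = 1 := by omega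
      have hn2 : n ≤ 2 := by omega
      obtain ⟨y, hy⟩ := card_eq_one.mp hc
      have hyL : y ∈ L ∧ y ∉ upz z f := by
        have : y ∈ L \ upz z f := by rw [hy]; exact mem_singleton_self y
        exact mem_sdiff.mp this
      have hLy : ∀ x, x ∈ L ↔ x = y ∨ x ∈ upz z f := by
        intro x
        constructor
        · intro hx
          by_cases h : x ∈ upz z f
          · exact Or.inr h
          · left
            have : x ∈ L \ upz z f := mem_sdiff.mpr ⟨hx, h⟩
            rw [hy] at this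
            exact mem_singleton.mp this
        · rintro (h | h)
          · rw [h]; exact hyL.1
          · exact hUL h
      have habv : ∀ x, f y < x → z ≤ x := by
        intro x hx
        obtain ⟨x', rfl⟩ := E.up y x hx.le
        have h5 : y < x' := (E.lt_iff _ _).mpr hx
        rcases (hLy x').mp (hL y x' h5.le hyL.1) with h | h
        · exact absurd h h5.ne'
        · exact mem_upz.mp h
      have hzy : ¬ z ≤ f y := fun h => hyL.2 (mem_upz.mpr h)
      rcases C.out_max (by omega) (E.le_t y) hzy habv with hfar | ⟨hyN, hcy⟩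
      · rw [Z_sub E.upz_up hL hUL]
        · exact C.core_lt hgr E hm le_rfl hg hgu (by omega)
        · intro x hx hx'
          rcases (hLy x).mp hx with h | h
          · rw [h, E.lev]; omega
          · exact absurd h hx'
        · intro x hx hx'
          rcases (hLy x).mp hx with h | h
          · have h6 : lev x - (m + 1 + 1) ≤ nup (m + 1 + 1) x := sub_le_nup
            rw [h, E.lev] at h6
            rw [h]
            omega
          · exact absurd h hx'
      · exact C.special H E hm hg2 hyN hcy hL hLy hn2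

/-- the sum over configurations with dangerous labels on a set, one component -/
theorem comp (C : CEl t0 Nc co m z F S) (H : Gr P r) (E : Emb t0 z f)
    (hm : m = 2 * g + u) (hu : u ≤ 1) (hg : 1 ≤ g) (hgu : g = 1 → u = 0) (Sd : Finset Q)
    {z' : Q} (hz' : f z' = z) (hzS : z' ∈ Sd) :
    (∀ n < (u + 1) ^ 2 + ∑ x ∈ upz z f, min (u + 1) (lev x - m), (1 + X : ℤ[X]) ^ (g + 1) ∣
      SC (fun (e : Q → ℕ) F => Vd m e F ∧ Sd ⊆ upL m (u + 1) e F) n) ∧
    ((∃ x ∈ Sd, ¬ z' ≤ x) → (1 + X : ℤ[X]) ^ (g + 1) ∣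
      SC (fun (e : Q → ℕ) F => Vd m e F ∧ Sd ⊆ upL m (u + 1) e F)
      ((u + 1) ^ 2 + ∑ x ∈ upz z f, min (u + 1) (lev x - m))) ∧
    ((∀ x ∈ Sd, z' ≤ x) → (1 + X : ℤ[X]) ^ (g + 1) ∣
      SC (fun (e : Q → ℕ) F => Vd m e F ∧ Sd ⊆ upL m (u + 1) e F)
      ((u + 1) ^ 2 + ∑ x ∈ upz z f, min (u + 1) (lev x - m)) -
      Z {x // x ∈ upz z f} (m + u + 1) ((u + 1) ^ 2)) := by
  classical
  have hgr := H.gradedBelow
  have hmem : ∀ x : Q, x ∈ upz z f ↔ z' ≤ x := by
    intro x
    rw [mem_upz, ← hz', ← E.le_iff]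
  have key := SC_core (Q := Q) (i := m) (k := u + 1) (B := (u + 1) ^ 2) (b := g + 1)
    (U := upz z f) (by omega) E.upz_up (fun L => Sd ⊆ L) ?_ ?_ ?_ ?_
  · refine ⟨key.1, ?_, ?_⟩
    · rintro ⟨x, hx, hzx⟩
      exact key.2.1 fun h => hzx ((hmem x).mp (h hx))
    · intro h
      exact key.2.2 fun x hx => (hmem x).mpr (h x hx)
  · intro L hL hS x hx
    exact hL z' x ((hmem x).mp hx) (hS hzS)
  · intro x hx
    have h1 := C.out (by omega) (E.le_t x) (fun h => hx (mem_upz.mpr h))
    rw [E.lev]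
    omega
  · intro _ n hn
    exact C.core_lt hgr E hm hu hg hgu hn
  · intro L hL hUL hne n hn
    exact C.cls H E hm hu hg hgu hL hUL hne hn

end Comp

end CEl

end Pool.Agent.GaussPoset
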