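import Pool.Agent.W_448fc_h67.FcK

/-!
Reduction to the component of the stair: the other components contribute their orders.
-/

namespace Pool.Agent.GaussPoset

set_option linter.unusedSectionVars false

open Polynomial Finset

universe u

variable {P : Type u} [Fintype P] [PartialOrder P] [DecidableEq P]

/-- the bound `k` on `Sd` -/
def sgs (Sd : Finset P) (k : ℕ) (x : P) : ℕ := if x ∈ Sd then k else 0

lemma sgs_of {Sd : Finset P} (k : ℕ) {x : P} (h : x ∈ Sd) : sgs Sd k x = k := if_pos h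

lemma sgs_off {Sd : Finset P} (k : ℕ) {x : P} (h : x ∉ Sd) : sgs Sd k x = 0 := if_neg h

lemma sgs_single (z : P) (k : ℕ) : sgs {z} k = sgz z k := by
  funext x
  unfold sgs sgz
  simp only [mem_singleton]

lemma cst_sgs_iff {i : ℕ} {Sd : Finset P} {k : ℕ} (e : P → ℕ) (F : Finset P) :
    Cst i ∅ 0 (sgs Sd k) e F ↔ Vd i e F ∧ Sd ⊆ upL i k e F := by
  rw [cst_empty_iff]
  refine and_congr_right fun hV => ?_
  constructor
  · intro h x hx
    rw [mem_upL]
    by_cases hxF : x ∈ F
    · exact Or.inl hxF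
    · right
      have := h x hxF
      rwa [sgs_of k hx] at this
  · intro h x hxF
    by_cases hx : x ∈ Sd
    · rw [sgs_of k hx]
      exact (mem_upL.mp (h hx)).resolve_left hxF
    · rw [sgs_off k hx]
      simpa using hV.2.1 x hxF

section Red

variable {i : ℕ} {N : Tops P → Finset P} {t0 : Tops P}

open Classical in
/-- unnatural elements below the other tops -/
noncomputable def offN (N : Tops P → Finset P) (t0 : Tops P) : Finset P :=
  univ.filter (fun x => ∃ t : Tops P, t ≠ t0 ∧ x ≤ (t : P) ∧ x ∉ N t)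

lemma mem_offN {x : P} : x ∈ offN N t0 ↔ ∃ t : Tops P, t ≠ t0 ∧ x ≤ (t : P) ∧ x ∉ N t := by
  classical
  unfold offN
  simp

lemma offN_down (HN : NatSys N) : ∀ x y, x ≤ y → y ∈ offN N t0 → x ∈ offN N t0 := by
  intro x y hxy hy
  rw [mem_offN] at hy ⊢
  obtain ⟨t, h1, h2, h3⟩ := hy
  exact ⟨t, h1, hxy.trans h2, fun h => h3 (HN.up t x h y hxy)⟩

lemma offN_sub (HN : NatSys N) : offN N t0 ⊆ unnat N := by
  intro x hx
  rw [mem_offN] at hx
  obtain ⟨t, h1, h2, h3⟩ := hx
  rw [mem_unnat]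
  intro s hs
  have h4 := HN.top_eq hs t.2 h2
  have : t = s := Subtype.ext h4
  rw [this] at h3
  exact h3 hs

lemma not_offN_of_onlyB {x : P} (hx : x ∈ onlyB t0) : x ∉ offN N t0 := by
  intro h
  rw [mem_offN] at h
  obtain ⟨t, h1, h2, h3⟩ := h
  rw [mem_onlyB] at hx
  exact h1 (Subtype.ext (hx t t.2 h2))

lemma mem_of_not_offN {x : P} (hx : x ∉ offN N t0) {t : Tops P} (ht : t ≠ t0)
    (hxt : x ≤ (t : P)) : x ∈ N t := by
  by_contra h
  exact hx (mem_offN.mpr ⟨t, ht, hxt, h⟩)

lemma onlyB_of_not_offN (HN : NatSys N) {x : P} (hx : x ∉ offN N t0) (hx0 : x ≤ (t0 : P)) :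
    x ∈ onlyB t0 := by
  rw [mem_onlyB]
  intro s hs hxs
  by_contra hne
  have h1 : (⟨s, hs⟩ : Tops P) ≠ t0 := fun h => hne (congrArg Subtype.val h)
  have h2 := mem_of_not_offN hx h1 hxs
  have h3 := HN.top_eq h2 t0.2 hx0
  exact h1 (Subtype.ext h3.symm)

/-- the other components -/
theorem dvd_rest {b : Tops P → ℕ} {θ : Tops P → P → ℕ} {B : Tops P → P → Prop}
    (H : ∀ t, NatTop i t (b t) (N t) (θ t) (B t)) (n : ℕ) :
    (1 + X : ℤ[X]) ^ (∑ t ∈ univ.erase t0, b t) ∣
      Z {x : {x : P // x ∉ offN N t0} // ¬ (x : P) ∈ onlyB t0} i n := by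
  classical
  have HN := natSys_of_tops H
  refine dvd_Z_of_dvd_W ?_ n
  have hmemN : ∀ x : {x : {x : P // x ∉ offN N t0} // ¬ (x : P) ∈ onlyB t0},
      (x : P) ∈ N (topOf (x : P)) := by
    intro x
    refine mem_of_not_offN x.1.2 ?_ (le_topOf _)
    intro h
    refine x.2 (onlyB_of_not_offN HN x.1.2 ?_)
    have h1 := le_topOf (x : P)
    rw [h] at h1
    exact h1
  have hs : ∑ t ∈ univ.erase t0, b t = ∑ t, (if t = t0 then 0 else b t) := by
    rw [← Finset.add_sum_erase univ _ (mem_univ t0), if_pos rfl, zero_add]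
    exact Finset.sum_congr rfl fun t ht => by rw [if_neg (ne_of_mem_erase ht)]
  rw [hs]
  refine dvd_W_prod (fun x : {x : {x : P // x ∉ offN N t0} // ¬ (x : P) ∈ onlyB t0} =>
    topOf (x : P)) ?_ i _ fun k => ?_
  · intro x y hxy
    exact HN.cp x y hxy fun h => mem_unnat.mp h _ (hmemN x)
  · by_cases hk : k = t0
    · rw [if_pos hk, pow_zero]
      exact one_dvd _
    · rw [if_neg hk]
      have h1 : CompData (unnat N) topOf k i (b k) (fun x => θ (topOf x) x)
          (fun x => x ∉ unnat N ∧ B (topOf x) x) := by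
        refine (H k).data N HN rfl _ _ ?_ ?_
        · intro x hx
          simp only [HN.topOf_eq hx]
        · intro x hx
          simp only [HN.topOf_eq hx, (HN.mem_iff.mp hx).1, not_false_eq_true, true_and]
      have h2 := h1.clean (unnat N) ⟨HN.lower, Finset.Subset.refl _, fun x hx => by
        by_contra hcon
        exact low_natural H (not_lt.mp hcon) hx, fun x hx h => h.1 hx⟩ inferInstance
      have e : {x : {x : {x : P // x ∉ offN N t0} // ¬ (x : P) ∈ onlyB t0} // topOf (x : P) = k} ≃o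
          {x : {x : P // x ∉ unnat N} // topOf (x : P) = k} :=
        { toFun := fun x => ⟨⟨x.1.1.1, fun h => mem_unnat.mp h _ (hmemN x.1)⟩, x.2⟩
          invFun := fun x => ⟨⟨⟨x.1.1, fun h => x.1.2 (offN_sub HN h)⟩, fun h => by
            have h3 : (x.1.1 : P) ∈ N k := HN.mem_iff.mpr ⟨x.1.2, x.2⟩
            exact hk (Subtype.ext (mem_onlyB.mp h k k.2 (HN.le_t k _ h3)))⟩, x.2⟩
          left_inv := fun x => rfl
          right_inv := fun x => rfl
          map_rel_iff' := Iff.rfl }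
      rw [W_iso e]
      exact h2

/-- the truncated sum splits -/
theorem ZB_reduce (HN : NatSys N) (hlev : ∀ x ∈ unnat N, i < lev x) {Sd : Finset P} {h n : ℕ}
    (hSd : ∀ x ∈ Sd, x ∈ onlyB t0)
    (hcost : ∀ e F, Vd i e F → Sd ⊆ upL i h e F → ∑ x, e x = n → ∀ x ∈ offN N t0,
      x ∉ F ∧ e x = 0) :
    ZB i ∅ 0 (sgs Sd h) n = ∑ ab ∈ antidiagonal n,
      SC (fun (e : {x : {x : P // x ∉ offN N t0} // (x : P) ∈ onlyB t0} → ℕ) F => Vd i e F ∧
        (univ.filter (fun x : {x : {x : P // x ∉ offN N t0} // (x : P) ∈ onlyB t0} =>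
          (x : P) ∈ Sd)) ⊆ upL i h e F) ab.1 *
      Z {x : {x : P // x ∉ offN N t0} // ¬ (x : P) ∈ onlyB t0} i ab.2 := by
  classical
  have hD := offN_down (t0 := t0) HN
  have hsub := offN_sub (t0 := t0) HN
  have h1 : ZB i ∅ 0 (sgs Sd h) n = ZB i (offN N t0) 0 (sgs Sd h) n := by
    rw [ZB_eq_SC, ZB_eq_SC, SC_eq_cfg, SC_eq_cfg]
    refine Finset.sum_congr ?_ (fun _ _ => rfl)
    ext ⟨F, e⟩
    rw [mem_cfg, mem_cfg]
    simp only
    refine and_congr_right fun hs => ?_
    constructor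
    · intro hC
      have h2 := (cst_sgs_iff e F).mp hC
      refine ⟨h2.1, fun x hx => ?_, fun x _ hxF => ?_⟩
      · exact hcost e F h2.1 h2.2 hs x hx
      · exact (cst_empty_iff.mp hC).2 x hxF
    · rintro ⟨hV, h2, h3⟩
      rw [cst_empty_iff]
      refine ⟨hV, fun x hxF => ?_⟩
      by_cases hx : x ∈ offN N t0
      · have hxS : x ∉ Sd := fun h' => not_offN_of_onlyB (hSd x h') hx
        rw [sgs_off h hxS]
        simpa using hV.2.1 x hxF
      · exact h3 x hx hxF
  rw [h1, ZB_off_bound hD (fun x hx => hlev x (hsub hx)), ZB_prod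
    (fun x : {x : P // x ∉ offN N t0} => (x : P) ∈ onlyB t0)]
  · refine Finset.sum_congr rfl fun ab _ => ?_
    refine congrArg₂ (· * ·) ?_ ?_
    · have h2 : (fun x : {x : {x : P // x ∉ offN N t0} // (x : P) ∈ onlyB t0} =>
          sgs Sd h ((x : {x : P // x ∉ offN N t0}) : P)) =
          sgs (univ.filter (fun x : {x : {x : P // x ∉ offN N t0} // (x : P) ∈ onlyB t0} =>
          (x : P) ∈ Sd)) h := by
        funext x
        unfold sgs
        simp only [mem_filter, mem_univ, true_and]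
      rw [h2, ZB_eq_SC]
      exact SC_congr (fun e F => cst_sgs_iff e F) _
    · have h3 : (fun x : {x : {x : P // x ∉ offN N t0} // ¬ (x : P) ∈ onlyB t0} =>
          sgs Sd h ((x : {x : P // x ∉ offN N t0}) : P)) = 0 := by
        funext x
        exact sgs_off h fun hx => x.2 (hSd _ hx)
      rw [h3, Z_eq_ZB]
  · intro x y hxy
    constructor
    · intro hx
      exact onlyB_up hx hxy
    · intro hy
      refine onlyB_of_not_offN HN x.2 (le_trans hxy ?_)
      have h4 := mem_onlyB.mp hy (topOf (y : P)) (topOf (y : P)).2 (le_topOf _)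
      rw [← h4]
      exact le_topOf _

end Red

end Pool.Agent.GaussPoset
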