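import Pool.Agent.W_448fc_h67.FcL

/-!
The pole of a common child of the fold end and the straight end of a stair at window `m`.
-/

namespace Pool.Agent.GaussPoset

set_option linter.unusedSectionVars false

open Polynomial Finset

universe u

/-- number of elements of the low levels -/
lemma TriS.card_lv_low {T : Type u} [Fintype T] [PartialOrder T] [DecidableEq T] {m l : ℕ}
    {co : T → ℕ × ℕ} (H : TriS T m co) (hm : 1 ≤ m) (hl : l ≤ m + 1) :
    (lv T l).card = l / 2 + 1 := by
  classical
  rw [← card_range (l / 2 + 1)]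
  refine Finset.card_bij (fun x _ => (co x).1) ?_ ?_ ?_
  · intro x hx
    rw [mem_lv, H.lev_eq] at hx
    have := H.fst_le x
    rw [mem_range]
    omega
  · intro x hx y hy h
    rw [mem_lv, H.lev_eq] at hx hy
    exact H.inj x y (Prod.ext h (by omega))
  · intro s hs
    rw [mem_range] at hs
    obtain ⟨x, hx⟩ := H.ex s (l - s) (by omega) (by omega)
    refine ⟨x, ?_, by rw [hx]⟩
    rw [mem_lv, H.lev_eq, hx]
    simp only
    omega

lemma below_succ (T : Type u) [Fintype T] [PartialOrder T] [DecidableEq T] (l : ℕ) :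
    below T (l + 1) = below T l + (lv T l).card := by
  classical
  unfold below
  have h1 : (univ.filter (fun x : T => lev x < l + 1)) =
      (univ.filter (fun x : T => lev x < l)) ∪ lv T l := by
    ext x
    rw [mem_union, mem_filter, mem_filter, mem_lv]
    simp only [mem_univ, true_and]
    omega
  rw [h1, card_union_of_disjoint]
  rw [Finset.disjoint_left]
  intro x hx hx'
  rw [mem_filter] at hx
  rw [mem_lv] at hx'
  omega

lemma TriS.below_eq {T : Type u} [Fintype T] [PartialOrder T] [DecidableEq T] {m g u : ℕ}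
    {co : T → ℕ × ℕ} (H : TriS T m co) (hm : m = 2 * g + u) (hu : u ≤ 1) (hg : 1 ≤ g) :
    below T (m + u + 1) = below T m + (u + 1) * g + 2 * u + 1 := by
  rcases Nat.le_one_iff_eq_zero_or_eq_one.mp hu with h | h
  · subst h
    rw [show m + 0 + 1 = m + 1 by omega, below_succ, H.card_lv_low (by omega) (by omega)]
    omega
  · subst h
    rw [show m + 1 + 1 = (m + 1) + 1 by omega, below_succ, below_succ,
      H.card_lv_low (by omega) (by omega), H.card_lv_low (by omega) (by omega)]
    omega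

variable {P : Type u} [Fintype P] [PartialOrder P] [DecidableEq P] {r m g u : ℕ}

namespace CEl

variable {t0 : Tops P} {Nc : Finset P} {co : P → ℕ × ℕ} {z F S : P}
  {N : Tops P → Finset P}

lemma z_only (C : CEl t0 Nc co m z F S) (hgr : GradedBelow P) (HN : NatSys N)
    (hlow : ∀ x ∈ unnat N, 2 * m < lev x) : z ∈ onlyB t0 := by
  have key : ∀ x : P, x ∈ Nc → lev x = 2 * m → x ∈ onlyB t0 := by
    intro x hx hl
    have h1 : x ∉ unnat N := fun h => by have := hlow x h; omega
    have h2 : x ∈ N (topOf x) := HN.mem_iff.mpr ⟨h1, rfl⟩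
    have h3 := HN.top_eq h2 t0.2 (C.chart.le_t x hx)
    rw [mem_onlyB]
    intro s hs hxs
    rw [HN.top_eq h2 hs hxs, h3]
  have hF := key F C.F_mem (by rw [C.chart.lev F C.F_mem, C.co_F]; simp only; omega)
  have hS := key S C.S_mem (by rw [C.chart.lev S C.S_mem, C.co_S]; simp only; omega)
  rw [mem_onlyB]
  intro s hs hzs
  have h1 : z < s := lt_of_le_of_ne hzs (by
    rintro rfl
    have := C.lev_z hgr
    omega)
  rcases C.lt_iff.mp h1 with h | h
  · exact mem_onlyB.mp hF s hs h
  · exact mem_onlyB.mp hS s hs h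

/-- dangerous `z` together with an unnatural element of another component -/
lemma cost (C : CEl t0 Nc co m z F S) (hgr : GradedBelow P) (HN : NatSys N)
    (hlow : ∀ x ∈ unnat N, 2 * m < lev x) {h : ℕ} {e : P → ℕ} {F' : Finset P}
    (hV : Vd m e F') (hzd : z ∈ F' ∨ h ≤ e z) {x0 : P} (hx0 : x0 ∈ offN N t0)
    (hd : x0 ∈ F' ∨ 1 ≤ e x0) : cst m (fun _ => h) z + (m + 1) ≤ ∑ x, e x := by
  classical
  have hzo := C.z_only hgr HN hlow
  have hl0 := hlow x0 (offN_sub HN hx0)
  rw [mem_offN] at hx0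
  obtain ⟨t, ht, hxt, -⟩ := hx0
  have hzl := C.lev_z hgr
  have h1 : ∀ k ∈ range (m + 1), ∃ w, x0 ≤ w ∧ w ≤ (t : P) ∧ lev w = m + 1 + k := by
    intro k hk
    rw [mem_range] at hk
    exact exists_between hgr hxt (by rw [t.2]; omega) (by omega)
  haveI : Nonempty P := ⟨x0⟩
  choose! f hf using h1
  have hinj : Set.InjOn f (range (m + 1)) := by
    intro k hk k' hk' h
    have e1 := hf k (Finset.mem_coe.mp hk)
    have e2 := hf k' (Finset.mem_coe.mp hk')
    rw [h] at e1
    omega
  have hcard : ((range (m + 1)).image f).card = m + 1 := by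
    rw [card_image_of_injOn hinj, card_range]
  have h2 : ∑ x : P, (if x ∈ (range (m + 1)).image f then 1 else 0) = m + 1 := by
    rw [← card_filter]
    rw [filter_mem_eq_inter, univ_inter, hcard]
  unfold cst
  rw [← h2, ← Finset.sum_add_distrib]
  refine Finset.sum_le_sum fun y _ => ?_
  have h3 := ez_le (h := fun _ => h) hV (by omega) hzd y
  have h4 := ez_le (h := fun _ => 1) hV (by omega) hd y
  by_cases hy : y ∈ (range (m + 1)).image f
  · rw [if_pos hy]
    rw [mem_image] at hy
    obtain ⟨k, hk, rfl⟩ := hy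
    obtain ⟨h5, h6, h7⟩ := hf k hk
    have h8 : ¬ z ≤ f k := by
      intro h9
      exact ht (Subtype.ext (mem_onlyB.mp hzo t t.2 (h9.trans h6)))
    unfold ez at h4 ⊢
    rw [if_neg h8]
    rw [if_pos h5, h7] at h4
    have h9 : min 1 (m + 1 + k - m) ≤ e (f k) := h4
    omega
  · rw [if_neg hy, add_zero]
    exact h3

/-- the component of `t0` -/
lemma emb (C : CEl t0 Nc co m z F S) (hgr : GradedBelow P) (HN : NatSys N)
    (hlow : ∀ x ∈ unnat N, 2 * m < lev x) :
    Emb t0 z (fun x : {x : {x : P // x ∉ offN N t0} // (x : P) ∈ onlyB t0} => (x : P)) where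
  le_iff := fun x y => Iff.rfl
  up := fun x y hxy => ⟨⟨⟨y, fun h => x.1.2 (offN_down HN _ _ hxy h)⟩, onlyB_up x.2 hxy⟩, rfl⟩
  le_t := fun x => by
    have h4 := mem_onlyB.mp x.2 (topOf (x : P)) (topOf (x : P)).2 (le_topOf _)
    rw [← h4]
    exact le_topOf _
  z := by
    have hzo := C.z_only hgr HN hlow
    exact ⟨⟨⟨z, not_offN_of_onlyB hzo⟩, hzo⟩, rfl⟩

lemma sum_upz {Q : Type u} [Fintype Q] [PartialOrder Q] [DecidableEq Q] {f : Q → P}
    (E : Emb t0 z f) (k : ℕ) : ∑ x ∈ upz z f, min k (lev x - m) = cst m (fun _ => k) z := by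
  classical
  unfold cst ez
  rw [← Finset.sum_filter]
  refine Finset.sum_bij (fun x _ => f x) ?_ ?_ ?_ ?_
  · intro x hx
    rw [mem_filter]
    exact ⟨mem_univ _, mem_upz.mp hx⟩
  · intro x _ y _ h
    exact E.inj h
  · intro y hy
    rw [mem_filter] at hy
    obtain ⟨z', hz'⟩ := E.z
    obtain ⟨y', rfl⟩ := E.up z' y (by rw [hz']; exact hy.2)
    exact ⟨y', mem_upz.mpr hy.2, rfl⟩
  · intro x _
    rw [E.lev]

lemma lev_rest (HN : NatSys N) (x : {x : {x : P // x ∉ offN N t0} // ¬ (x : P) ∈ onlyB t0}) :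
    lev x = lev (x : P) := by
  have h1 := lev_subtype (P := {x : P // x ∉ offN N t0})
    (p := fun x : {x : P // x ∉ offN N t0} => ¬ (x : P) ∈ onlyB t0) (by
    intro x y hxy hx hy
    refine hx (onlyB_of_not_offN HN x.2 (le_trans hxy ?_))
    have h4 := mem_onlyB.mp hy (topOf (y : P)) (topOf (y : P)).2 (le_topOf _)
    rw [← h4]
    exact le_topOf _) x
  have h2 := lev_subtype (P := P) (p := fun x : P => x ∉ offN N t0) (by
    intro x y hxy hx hy
    exact hx (offN_down HN x y hxy hy)) x.1
  rw [h1, h2]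

/-- counting low elements -/
lemma card_split (C : CEl t0 Nc co m z F S) (hgr : GradedBelow P) (HN : NatSys N)
    (hm : 1 ≤ m) (hlow : ∀ x ∈ unnat N, 2 * m < lev x) (p : ℕ → Prop) [DecidablePred p]
    (hp : ∀ l, p l → l ≤ m + 1) :
    (univ.filter (fun x : P => p (lev x))).card =
      (univ.filter (fun x : {x // x ∈ tz z (fun x : {x : {x : P // x ∉ offN N t0} //
        (x : P) ∈ onlyB t0} => (x : P))} => p (lev x))).card +
      (univ.filter (fun x : {x : {x : P // x ∉ offN N t0} // ¬ (x : P) ∈ onlyB t0} =>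
        p (lev x))).card := by
  classical
  have E := C.emb hgr HN hlow
  have hzo := C.z_only hgr HN hlow
  have hzl := C.lev_z hgr
  rw [← Finset.card_filter_add_card_filter_not (s := univ.filter (fun x : P => p (lev x)))
    (fun x => x ∈ onlyB t0)]
  have hlT : ∀ x : {x // x ∈ tz z (fun x : {x : {x : P // x ∉ offN N t0} //
        (x : P) ∈ onlyB t0} => (x : P))}, lev x = lev ((x : {x : {x : P // x ∉ offN N t0} //
        (x : P) ∈ onlyB t0}) : P) := by
    intro x
    rw [lev_subtype (p := fun x => x ∈ tz z (fun x : {x : {x : P // x ∉ offN N t0} //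
        (x : P) ∈ onlyB t0} => (x : P))) E.tz_up x, E.lev]
  congr 1
  · symm
    refine Finset.card_bij (fun x _ => ((x : {x : {x : P // x ∉ offN N t0} //
        (x : P) ∈ onlyB t0}) : P)) ?_ ?_ ?_
    · intro x hx
      rw [mem_filter, hlT] at hx
      rw [mem_filter, mem_filter]
      exact ⟨⟨mem_univ _, hx.2⟩, x.1.2⟩
    · intro x _ y _ h
      exact Subtype.ext (E.inj h)
    · intro y hy
      rw [mem_filter, mem_filter] at hy
      have hpl := hp _ hy.1.2
      have hyoff : y ∉ offN N t0 := not_offN_of_onlyB hy.2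
      have hyt : y ≤ (t0 : P) := E.le_t ⟨⟨y, hyoff⟩, hy.2⟩
      have hzy : z ≤ y := by
        by_contra hcon
        have := C.out hm hyt hcon
        omega
      have hzy' : z < y := lt_of_le_of_ne hzy (by rintro rfl; omega)
      refine ⟨⟨⟨⟨y, hyoff⟩, hy.2⟩, mem_tz.mpr hzy'⟩, ?_, rfl⟩
      rw [mem_filter, hlT]
      exact ⟨mem_univ _, hy.1.2⟩
  · symm
    refine Finset.card_bij (fun x _ => ((x : {x : P // x ∉ offN N t0}) : P)) ?_ ?_ ?_
    · intro x hx
      rw [mem_filter, lev_rest HN] at hx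
      rw [mem_filter, mem_filter]
      exact ⟨⟨mem_univ _, hx.2⟩, x.2⟩
    · intro x _ y _ h
      exact Subtype.ext (Subtype.ext h)
    · intro y hy
      rw [mem_filter, mem_filter] at hy
      have hpl := hp _ hy.1.2
      have hyoff : y ∉ offN N t0 := fun h => by
        have := hlow y (offN_sub HN h)
        omega
      refine ⟨⟨⟨y, hyoff⟩, hy.2⟩, ?_, rfl⟩
      rw [mem_filter, lev_rest HN]
      exact ⟨mem_univ _, hy.1.2⟩

end CEl

end Pool.Agent.GaussPoset
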