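import Pool.Agent.W_448fc_h67.FcM

/-!
The pole of a common child of the fold end and the straight end of a stair at window `m`:
the theorem.
-/

namespace Pool.Agent.GaussPoset

set_option linter.unusedSectionVars false

open Polynomial Finset

universe u

variable {P : Type u} [Fintype P] [PartialOrder P] [DecidableEq P] {r m g u : ℕ}

namespace CEl

variable {t0 : Tops P} {Nc : Finset P} {co : P → ℕ × ℕ} {z F S : P}
  {N : Tops P → Finset P}

/-- **The pole.**  `z` covers exactly the fold end and the straight end of a stair; all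
elements of levels `≤ 2 m` are natural; `Sd` is a set of dangerous elements below `t0` which
contains `z`. -/
theorem pole (C : CEl t0 Nc co m z F S) (H : Gr P r) {b : Tops P → ℕ}
    {θ : Tops P → P → ℕ} {B : Tops P → P → Prop}
    (HT : ∀ t, NatTop m t (b t) (N t) (θ t) (B t)) (hlow : ∀ x ∈ unnat N, 2 * m < lev x)
    (hm : m = 2 * g + u) (hu : u ≤ 1) (hg : 1 ≤ g) (hgu : g = 1 → u = 0) {Sd : Finset P}
    (hzS : z ∈ Sd) (hSd : ∀ x ∈ Sd, x ∈ onlyB t0) :
    (∀ n < (u + 1) ^ 2 + cst m (fun _ => u + 1) z,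
      (1 + X : ℤ[X]) ^ (g + 1 + ∑ t ∈ univ.erase t0, b t) ∣ ZB m ∅ 0 (sgs Sd (u + 1)) n) ∧
    ((∃ x ∈ Sd, ¬ z ≤ x) → (1 + X : ℤ[X]) ^ (g + 1 + ∑ t ∈ univ.erase t0, b t) ∣
      ZB m ∅ 0 (sgs Sd (u + 1)) ((u + 1) ^ 2 + cst m (fun _ => u + 1) z)) ∧
    ((∀ x ∈ Sd, z ≤ x) → (1 + X : ℤ[X]) ^ (g + 1 + ∑ t ∈ univ.erase t0, b t) ∣
      ZB m ∅ 0 (sgs Sd (u + 1)) ((u + 1) ^ 2 + cst m (fun _ => u + 1) z) -
      X ^ (below P m + (u + 1) * g) * (1 + X) ^ ((lv P m).card - 1)) := by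
  classical
  have hgr := H.gradedBelow
  have HN := natSys_of_tops HT
  have E := C.emb hgr HN hlow
  have hzo := C.z_only hgr HN hlow
  have hzl := C.lev_z hgr
  set E0 := cst m (fun _ => u + 1) z with hE0
  have hsq : (u + 1) ^ 2 < m + 1 := by
    rcases Nat.le_one_iff_eq_zero_or_eq_one.mp hu with h | h
    · subst h; simp; omega
    · subst h
      have : g ≠ 1 := fun h => by have := hgu h; omega
      have : (1 + 1) ^ 2 = 4 := by norm_num
      omega
  have hred : ∀ n ≤ (u + 1) ^ 2 + E0, ZB m ∅ 0 (sgs Sd (u + 1)) n = ∑ ab ∈ antidiagonal n,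
      SC (fun (e : {x : {x : P // x ∉ offN N t0} // (x : P) ∈ onlyB t0} → ℕ) F => Vd m e F ∧
        (univ.filter (fun x : {x : {x : P // x ∉ offN N t0} // (x : P) ∈ onlyB t0} =>
          (x : P) ∈ Sd)) ⊆ upL m (u + 1) e F) ab.1 *
      Z {x : {x : P // x ∉ offN N t0} // ¬ (x : P) ∈ onlyB t0} m ab.2 := by
    intro n hn
    refine ZB_reduce HN (fun x hx => by have := hlow x hx; omega) hSd ?_
    intro e F' hV hS hs x hx
    have hz1 : z ∈ F' ∨ u + 1 ≤ e z := by
      rcases mem_upL.mp (hS hzS) with h | h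
      · exact Or.inl h
      · right
        rw [rho_of_lt (by omega)] at h
        exact_mod_cast h
    by_contra hcon
    have hd : x ∈ F' ∨ 1 ≤ e x := by
      by_contra h
      push Not at h
      exact hcon ⟨h.1, by omega⟩
    have := C.cost hgr HN hlow hV hz1 hx hd
    omega
  set Sd0 := univ.filter (fun x : {x : {x : P // x ∉ offN N t0} // (x : P) ∈ onlyB t0} =>
          (x : P) ∈ Sd) with hSd0
  have hmS : ∀ x, x ∈ Sd0 ↔ (x : P) ∈ Sd := by
    intro x
    rw [hSd0, mem_filter]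
    simp only [mem_univ, true_and]
  have key := C.comp H E hm hu hg hgu Sd0 (z' := ⟨⟨z, not_offN_of_onlyB hzo⟩, hzo⟩) rfl
    ((hmS _).mpr hzS)
  rw [sum_upz E, ← hE0] at key
  obtain ⟨k1, k2, k3⟩ := key
  have hrest := fun n => dvd_rest (t0 := t0) HT n
  have hp1 : ∀ n < (u + 1) ^ 2 + E0, (1 + X : ℤ[X]) ^ (g + 1 + ∑ t ∈ univ.erase t0, b t) ∣
      ZB m ∅ 0 (sgs Sd (u + 1)) n := by
    intro n hn
    rw [hred n hn.le]
    refine Finset.dvd_sum fun ab hab => ?_
    rw [HasAntidiagonal.mem_antidiagonal] at hab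
    rw [pow_add _ (g + 1)]
    exact mul_dvd_mul (k1 ab.1 (by omega)) (hrest _)
  refine ⟨hp1, ?_, ?_⟩
  · rintro ⟨x, hx, hzx⟩
    rw [hred _ le_rfl]
    refine Finset.dvd_sum fun ab hab => ?_
    rw [HasAntidiagonal.mem_antidiagonal] at hab
    rw [pow_add _ (g + 1)]
    refine mul_dvd_mul ?_ (hrest _)
    rcases Nat.lt_or_ge ab.1 ((u + 1) ^ 2 + E0) with h | h
    · exact k1 ab.1 h
    · have h1 : ab.1 = (u + 1) ^ 2 + E0 := by omega
      rw [h1]
      refine k2 ⟨⟨⟨x, not_offN_of_onlyB (hSd x hx)⟩, hSd x hx⟩, (hmS _).mpr hx, hzx⟩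
  · intro hall
    have k3' := k3 (fun x hx => hall _ ((hmS x).mp hx))
    rw [hred _ le_rfl]
    have hmem : (((u + 1) ^ 2 + E0, 0) : ℕ × ℕ) ∈ antidiagonal ((u + 1) ^ 2 + E0) := by
      rw [HasAntidiagonal.mem_antidiagonal]
      exact Nat.add_zero _
    rw [← Finset.add_sum_erase _ _ hmem]
    obtain ⟨a, ha, hcore⟩ := C.core_eq hgr E hm hu hg hgu
    have hT := C.triS_tz E
    have e1 := hT.below_eq hm hu hg
    have e2 := hT.card_lv_low (l := m) (by omega) (by omega)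
    have e3 : below P m = below {x // x ∈ tz z (fun x : {x : {x : P // x ∉ offN N t0} //
        (x : P) ∈ onlyB t0} => (x : P))} m +
        below {x : {x : P // x ∉ offN N t0} // ¬ (x : P) ∈ onlyB t0} m :=
      C.card_split hgr HN (by omega) hlow (fun l => l < m) (by omega)
    have e4 : (lv P m).card = (lv {x // x ∈ tz z (fun x : {x : {x : P // x ∉ offN N t0} //
        (x : P) ∈ onlyB t0} => (x : P))} m).card +
        (lv {x : {x : P // x ∉ offN N t0} // ¬ (x : P) ∈ onlyB t0} m).card :=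
      C.card_split hgr HN (by omega) hlow (fun l => l = m) (by omega)
    have h0 := hrest 0
    rw [Z_zero] at h0
    simp only
    rw [Z_zero]
    have e5 : below P m + (u + 1) * g = a +
        below {x : {x : P // x ∉ offN N t0} // ¬ (x : P) ∈ onlyB t0} m := by omega
    have e6 : (lv P m).card - 1 = g +
        (lv {x : {x : P // x ∉ offN N t0} // ¬ (x : P) ∈ onlyB t0} m).card := by omega
    rw [e5, e6]
    have h1 := dvd_add k3' hcore
    have h2 := mul_dvd_mul h1 h0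
    rw [← pow_add] at h2
    have h3 : (1 + X : ℤ[X]) ^ (g + 1 + ∑ t ∈ univ.erase t0, b t) ∣
        ∑ ab ∈ (antidiagonal ((u + 1) ^ 2 + E0)).erase ((u + 1) ^ 2 + E0, 0),
        SC (fun (e : {x : {x : P // x ∉ offN N t0} // (x : P) ∈ onlyB t0} → ℕ) F => Vd m e F ∧
          Sd0 ⊆ upL m (u + 1) e F) ab.1 *
        Z {x : {x : P // x ∉ offN N t0} // ¬ (x : P) ∈ onlyB t0} m ab.2 := by
      refine Finset.dvd_sum fun ab hab => ?_
      rw [mem_erase, HasAntidiagonal.mem_antidiagonal] at hab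
      rw [pow_add _ (g + 1)]
      refine mul_dvd_mul (k1 ab.1 ?_) (hrest _)
      by_contra hcon
      apply hab.1
      exact Prod.ext (by simp only; omega) (by simp only; omega)
    have h4 := dvd_add h2 h3
    refine h4.trans (dvd_of_eq ?_)
    rw [pow_add X a, pow_add (1 + X) g]
    ring

/-- the same for the single element `z` -/
theorem pole_single (C : CEl t0 Nc co m z F S) (H : Gr P r) {b : Tops P → ℕ}
    {θ : Tops P → P → ℕ} {B : Tops P → P → Prop}
    (HT : ∀ t, NatTop m t (b t) (N t) (θ t) (B t)) (hlow : ∀ x ∈ unnat N, 2 * m < lev x)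
    (hm : m = 2 * g + u) (hu : u ≤ 1) (hg : 1 ≤ g) (hgu : g = 1 → u = 0) (hb : b t0 = g + 1) :
    (∀ n < (u + 1) ^ 2 + cst m (fun _ => u + 1) z,
      (1 + X : ℤ[X]) ^ (∑ t, b t) ∣ ZD m z (u + 1) n) ∧
    (1 + X : ℤ[X]) ^ (∑ t, b t) ∣ ZD m z (u + 1) ((u + 1) ^ 2 + cst m (fun _ => u + 1) z) -
      X ^ (below P m + (u + 1) * g) * (1 + X) ^ ((lv P m).card - 1) := by
  have hs : ∑ t, b t = g + 1 + ∑ t ∈ univ.erase t0, b t := by
    rw [← hb]
    exact (Finset.add_sum_erase univ b (mem_univ t0)).symm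
  have key := C.pole H HT hlow hm hu hg hgu (Sd := {z}) (mem_singleton_self z) (by
    intro x hx
    rw [mem_singleton.mp hx]
    exact C.z_only H.gradedBelow (natSys_of_tops HT) hlow)
  rw [sgs_single, ← hs] at key
  exact ⟨key.1, key.2.2 fun x hx => by rw [mem_singleton.mp hx]⟩

/-- two such elements are dangerous -/
theorem pole_pair (C : CEl t0 Nc co m z F S) (H : Gr P r) {b : Tops P → ℕ}
    {θ : Tops P → P → ℕ} {B : Tops P → P → Prop}
    (HT : ∀ t, NatTop m t (b t) (N t) (θ t) (B t)) (hlow : ∀ x ∈ unnat N, 2 * m < lev x)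
    (hm : m = 2 * g + u) (hu : u ≤ 1) (hg : 1 ≤ g) (hgu : g = 1 → u = 0) (hb : b t0 = g + 1)
    {z' : P} (hz' : ¬ z ≤ z') (hz'o : z' ∈ onlyB t0) {n : ℕ}
    (hn : n ≤ (u + 1) ^ 2 + cst m (fun _ => u + 1) z) :
    (1 + X : ℤ[X]) ^ (∑ t, b t) ∣ ZB m ∅ 0 (sgs {z, z'} (u + 1)) n := by
  have hs : ∑ t, b t = g + 1 + ∑ t ∈ univ.erase t0, b t := by
    rw [← hb]
    exact (Finset.add_sum_erase univ b (mem_univ t0)).symm
  have key := C.pole H HT hlow hm hu hg hgu (Sd := {z, z'}) (by simp) (by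
    intro x hx
    rw [mem_insert, mem_singleton] at hx
    rcases hx with rfl | rfl
    · exact C.z_only H.gradedBelow (natSys_of_tops HT) hlow
    · exact hz'o)
  rw [← hs] at key
  rcases Nat.lt_or_ge n ((u + 1) ^ 2 + cst m (fun _ => u + 1) z) with h | h
  · exact key.1 n h
  · rw [show n = (u + 1) ^ 2 + cst m (fun _ => u + 1) z by omega]
    exact key.2.1 ⟨z', by simp, hz'⟩

end CEl

end Pool.Agent.GaussPoset
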