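import Pool.Agent.W_448fc_h67.FcN
import Pool.Agent.W_448s8_h76.SaM

/-!
The families of joins of the fold end with the straight end, in the context of S8.
-/

namespace Pool.Agent.GaussPoset

set_option linter.unusedSectionVars false

open Polynomial Finset

universe u

variable {P : Type u} [Fintype P] [PartialOrder P] [DecidableEq P] {r m : ℕ}
  {N : Tops P → Finset P} {b : Tops P → ℕ} {θ : Tops P → P → ℕ}

/-- both elements dangerous, as a bounded sum -/
lemma ZP_eq_sgs {i k : ℕ} {h : P → ℕ} {z z' : P} (hz : i < lev z) (hz' : i < lev z')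
    (hk : h z = k) (hk' : h z' = k) (n : ℕ) :
    ZP i h z z' n = ZB i ∅ 0 (sgs {z, z'} k) n := by
  classical
  unfold ZP ZB
  refine Finset.sum_congr rfl fun F _ => Finset.sum_congr ?_ (fun _ _ => rfl)
  refine Finset.filter_congr fun e _ => ?_
  rw [cst_sgs_iff]
  refine and_congr_right fun _ => ?_
  rw [Finset.insert_subset_iff, Finset.singleton_subset_iff, mem_upL, mem_upL, rho_of_lt hz,
    rho_of_lt hz']
  unfold Dgz
  rw [hk, hk']
  norm_cast

/-- the order of a stair component -/
lemma WM.b_stair (W : WM r m N b θ) {x : P} {Nc : Finset P} {co : P → ℕ × ℕ}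
    (hx : InSM m N b θ x Nc co) (hcx : co x = (m, m)) : b (topOf x) = m / 2 + 1 := by
  have hm := W.ten
  have hF : FoldM m N b θ x := ⟨Nc, co, hx, hcx⟩
  have hl := hF.lev
  have h1 := hF.nab (u := 0) (by omega)
  have h2 := W.nab_le_cn (v := x) (by omega) m
  rw [Nat.add_zero] at h1
  have h3 : nF m 0 = m / 2 + 1 := by unfold nF; omega
  rcases W.typ (topOf x) with ⟨-, -, -, -, -, h7⟩ | ⟨Nc', co', h0, -, -, -⟩ |
    ⟨Nc', co', h0, -, -, hb, -⟩ | ⟨-, -, -, h4⟩
  · rcases h7 with ⟨h5, -⟩ | ⟨a, h5, h6⟩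
    · have := h5 m (by omega)
      omega
    · have := h6.cn m (by omega)
      rw [if_neg (by omega)] at this
      omega
  · exfalso
    obtain ⟨y, hy, hcy⟩ := h0.cell
    have hb2 := h0.b_two
    obtain ⟨y1, hy1, hc1⟩ := h0.chart.low y hy (1, 0) (by
      rw [hcy]
      exact ⟨by simp only; omega, Nat.zero_le _⟩) trivial
    obtain ⟨y2, hy2, hc2⟩ := h0.chart.low y hy (0, 1) (by
      rw [hcy]
      exact ⟨Nat.zero_le _, by simp only; omega⟩) trivial
    have l1 := h0.chart.lev y1 hy1
    have l2 := h0.chart.lev y2 hy2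
    rw [hc1] at l1
    rw [hc2] at l2
    simp only at l1 l2
    have g1 := hx.stair.strip (mem_lowPart.mpr ⟨h0.chart.le_t y1 hy1, by omega⟩)
    have g2 := hx.stair.strip (mem_lowPart.mpr ⟨h0.chart.le_t y2 hy2, by omega⟩)
    have k1 : (co y1).1 ≤ (co y1).2 := hx.stair.chart.mem y1 g1
    have k2 : (co y2).1 ≤ (co y2).2 := hx.stair.chart.mem y2 g2
    have q1 := hx.stair.chart.lev y1 g1
    have q2 := hx.stair.chart.lev y2 g2
    have he := hx.stair.chart.inj y1 g1 y2 g2 (Prod.ext (by omega) (by omega))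
    rw [he, hc2, Prod.mk.injEq] at hc1
    omega
  · exact hb
  · exfalso
    have := h4.cn m (by omega)
    rw [if_pos rfl] at this
    omega

/-- the data of a (C) join -/
lemma WM.cel (W : WM r m N b θ) {z F S : P} {Nc : Finset P} {co : P → ℕ × ℕ}
    (hF : InSM m N b θ F Nc co) (hcF : co F = (m, m)) (hS : S ∈ Nc) (hcS : co S = (0, 2 * m))
    (hzF : z ⋖ F) (hzS : z ⋖ S) : CEl (topOf F) Nc co m z F S where
  chart := hF.stair.chart
  strip := hF.stair.strip
  F_mem := hF.mem
  S_mem := hS
  co_F := hcF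
  co_S := hcS
  zF := hzF
  zS := hzS
  only := by
    have hm := W.ten
    have hne : F ≠ S := by
      rintro rfl
      rw [hcF, Prod.mk.injEq] at hcS
      omega
    exact fun y hy => uc_pair W.gt.H hzF hzS hne hy

/-- **The (C) joins: first pole of the family.** -/
theorem WM.fz_cc (W : WM r m N b θ) {z : P} (hz : z ∈ bdR (r2 (2 * m) N))
    (hc : CcM m N b θ z) : Fz m N θ z (E0 m + hh m ^ 2) (sg1 P m) := by
  classical
  have hm := W.ten
  have H := W.gt.H
  obtain ⟨hl, F, S, Nc, co, hF, hcF, hS, hcS, hzF, hzS⟩ := hc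
  choose B hB using W.natTop
  have hlow : ∀ x ∈ unnat N, 2 * m < lev x := fun x hx => W.lt_lev hx
  obtain ⟨g, u, hu, hmu, hg⟩ : ∃ g u, u ≤ 1 ∧ m = 2 * g + u ∧ 5 ≤ g :=
    ⟨m / 2, m % 2, by omega, by omega, by omega⟩
  have hhu : hh m = u + 1 := by unfold hh; omega
  have hb : b (topOf F) = g + 1 := by rw [W.b_stair hF hcF]; omega
  -- the elements of the family
  have hfam : ∀ y ∈ fam m N z, CEl (topOf F) Nc co m y F S ∧ lev y = 2 * m + 1 ∧
      h2 (2 * m) N θ y = u + 1 ∧ cst m (fun _ => u + 1) y = E0 m := by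
    intro y hy
    rw [mem_fam] at hy
    have hyF := (cov_of_up hy.2).mp hzF
    have hyS := (cov_of_up hy.2).mp hzS
    have hly : lev y = 2 * m + 1 := by
      rw [← lev_eq_of_up hy.2]
      exact hl
    obtain ⟨s, hn⟩ := W.num_cc (bd_mem hy.1) hly hF hcF hS hcS hyF hyS
    have hlab := hn.lab
    rw [hhu] at hlab
    have hcst := hn.cst
    rw [cst_ct hlab] at hcst
    exact ⟨W.cel hF hcF hS hcS hyF hyS, hly, hlab, hcst⟩
  have hsingle := fun y (hy : y ∈ fam m N z) =>
    (hfam y hy).1.pole_single H hB hlow hmu hu (by omega) (by omega) hb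
  have hB' : ∑ t, b t = (lv P m).card := W.sum_b
  have hE : (u + 1) ^ 2 + E0 m = E0 m + hh m ^ 2 := by rw [hhu]; omega
  have hsign : (-1 : ℤ) ^ (below P m + (u + 1) * g) = sg1 P m := by
    unfold sg1 sgF
    rw [hhu]
    rcases Nat.le_one_iff_eq_zero_or_eq_one.mp hu with h | h
    · subst h
      rw [Finset.sum_range_one, show below P m + nF m 0 + (0 + 1) =
        below P m + (0 + 1) * g + 2 by unfold nF; omega, pow_add _ _ 2]
      norm_num
    · subst h
      rw [Finset.sum_range_succ, Finset.sum_range_one, show below P m + (nF m 0 + nF m 1) + (1 + 1) =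
        below P m + (1 + 1) * g + 2 * 2 by unfold nF; omega, pow_add _ _ (2 * 2)]
      norm_num
  have hself := self_mem_fam hz
  by_cases hone : fam m N z = {z}
  · -- one element
    have h1 := hfam z hself
    have f2 := hsingle z hself
    rw [h1.2.2.2, hB', hE] at f2
    constructor
    · intro n hn
      rw [hone, ZF_singleton (by omega), h1.2.2.1]
      exact f2.1 n hn
    · refine ⟨fun _ => below P m + (u + 1) * g, ?_, fun _ _ => hsign⟩
      rw [hone, ZF_singleton (by omega), h1.2.2.1, Finset.sum_singleton]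
      exact f2.2
  · -- two elements
    obtain ⟨y, hy, hyz⟩ : ∃ y ∈ fam m N z, y ≠ z := by
      by_contra hcon
      push Not at hcon
      apply hone
      ext x
      rw [mem_singleton]
      exact ⟨fun h => hcon x h, fun h => h ▸ hself⟩
    have htwo : fam m N z = {z, y} := by
      ext x
      rw [mem_insert, mem_singleton]
      constructor
      · intro hx
        by_contra hcon
        push Not at hcon
        exact Win.dc_three H (hfam x hx).1.zF hzF (hfam y hy).1.zF hcon.1 hcon.2 hyz.symm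
      · rintro (h | h)
        · rw [h]; exact hself
        · rw [h]; exact hy
    have h1 := hfam z hself
    have f2 := hsingle z hself
    have g1 := hfam y hy
    have g2 := hsingle y hy
    have hzy : ¬ z ≤ y := by
      intro h
      have := lev_strictAnti (lt_of_le_of_ne h hyz.symm)
      omega
    have hP := fun n (hn : n ≤ (u + 1) ^ 2 + cst m (fun _ => u + 1) z) =>
      h1.1.pole_pair H hB hlow hmu hu (by omega) (by omega) hb hzy
        (g1.1.z_only H.gradedBelow (natSys_of_tops hB) hlow) hn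
    rw [h1.2.2.2, hB', hE] at f2
    rw [g1.2.2.2, hB', hE] at g2
    rw [h1.2.2.2, hB', hE] at hP
    have key : ∀ n, ZF m (h2 (2 * m) N θ) {z, y} n = ZD m z (u + 1) n + ZD m y (u + 1) n -
        ZB m ∅ 0 (sgs {z, y} (u + 1)) n := by
      intro n
      have h3 := ZF_pair (i := m) (h := Pool.Agent.GaussPoset.h2 (2 * m) N θ) (z := z) (z' := y)
        (by omega) (by omega) n
      rw [ZP_eq_sgs (by omega) (by omega) h1.2.2.1 g1.2.2.1, h1.2.2.1, g1.2.2.1] at h3
      rw [← h3]
      ring
    constructor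
    · intro n hn
      rw [htwo, key]
      exact dvd_sub (dvd_add (f2.1 n hn) (g2.1 n hn)) (hP n hn.le)
    · refine ⟨fun _ => below P m + (u + 1) * g, ?_, fun _ _ => hsign⟩
      rw [htwo, key, Finset.sum_pair hyz.symm]
      have h5 := dvd_sub (dvd_add f2.2 g2.2) (hP _ le_rfl)
      refine h5.trans (dvd_of_eq ?_)
      ring

end Pool.Agent.GaussPoset
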