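import Pool.Agent.W_448fc_h67.FcO

/-!
(C) elements: cost, families, and the standalone kill.
-/

namespace Pool.Agent.GaussPoset

set_option linter.unusedSectionVars false

open Polynomial Finset

universe u

variable {P : Type u} [Fintype P] [PartialOrder P] [DecidableEq P] {r m g u : ℕ}
  {N : Tops P → Finset P}

namespace CEl

variable {t0 : Tops P} {Nc : Finset P} {co : P → ℕ × ℕ} {z F S : P}

lemma lev_F (C : CEl t0 Nc co m z F S) : lev F = 2 * m := by
  rw [C.chart.lev F C.F_mem, C.co_F]
  simp only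
  omega

lemma lev_S (C : CEl t0 Nc co m z F S) : lev S = 2 * m := by
  rw [C.chart.lev S C.S_mem, C.co_S]
  simp only
  omega

lemma nab_F (C : CEl t0 Nc co m z F S) {u : ℕ} (hu : u ≤ m) : nab (m + u) F = nF m u := by
  rw [nab_chart C.chart C.F_mem, C.co_F]
  have := card_cellsAt_shift (l := m + u) (p := (m, m)) le_rfl (by simp only; omega)
  simp only at this
  unfold nF
  omega

lemma nab_S (C : CEl t0 Nc co m z F S) {l : ℕ} (hl : l ≤ 2 * m) : nab l S = 1 := by
  rw [nab_chart C.chart C.S_mem, C.co_S]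
  have := card_cellsAt_shift (l := l) (p := (0, 2 * m)) (Nat.zero_le _) (by simp only; omega)
  simp only at this
  omega

/-- elements of the middle levels above `z` -/
lemma nab_z (C : CEl t0 Nc co m z F S) :
    nab m z = nF m 0 ∧ ∀ u, 1 ≤ u → u ≤ m → nab (m + u) z = nF m u + 1 := by
  classical
  have hS : ∀ y, S ≤ y → y ∈ Nc ∧ co y = (0, lev y) := by
    intro y hy
    have hyN := C.chart.up S C.S_mem y hy
    have h1 := (C.chart.le_iff S C.S_mem y hyN).mp hy
    have h2 : (co y).1 ≤ (co S).1 := h1.1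
    rw [C.co_S] at h2
    simp only at h2
    have h3 := C.chart.lev y hyN
    exact ⟨hyN, Prod.ext (by simp only; omega) (by simp only; omega)⟩
  have hzF := C.zF.1
  have hzS := C.zS.1
  have hup : ∀ y, lev y ≤ 2 * m → z ≤ y → F ≤ y ∨ S ≤ y := by
    intro y hy hzy
    have hlt : z < y := lt_of_le_of_ne hzy (by
      rintro rfl
      have := lev_strictAnti hzF
      have := C.lev_F
      omega)
    exact C.lt_iff.mp hlt
  constructor
  · have h1 := C.nab_F (u := 0) (Nat.zero_le _)
    rw [Nat.add_zero] at h1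
    rw [← h1]
    unfold nab
    congr 1
    ext y
    rw [mem_filter, mem_filter, mem_lv]
    refine and_congr_right fun h2 => ⟨fun h3 => ?_, fun h3 => hzF.le.trans h3⟩
    rcases hup y (by omega) h3 with h | h
    · exact h
    · obtain ⟨hy, hcy⟩ := hS y h
      rw [C.chart.le_iff F C.F_mem y hy, hcy, C.co_F, h2]
      exact ⟨Nat.zero_le _, le_rfl⟩
  · intro u hu hum
    rw [← C.nab_F hum, ← C.nab_S (l := m + u) (by omega)]
    unfold nab
    rw [← Finset.card_union_of_disjoint]
    · congr 1
      ext y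
      rw [mem_union, mem_filter, mem_filter, mem_filter, mem_lv]
      constructor
      · rintro ⟨h3, h4⟩
        rcases hup y (by omega) h4 with h | h
        · exact Or.inl ⟨h3, h⟩
        · exact Or.inr ⟨h3, h⟩
      · rintro (⟨h3, h4⟩ | ⟨h3, h4⟩)
        · exact ⟨h3, hzF.le.trans h4⟩
        · exact ⟨h3, hzS.le.trans h4⟩
    · rw [Finset.disjoint_left]
      intro y hy hy'
      rw [mem_filter, mem_lv] at hy hy'
      obtain ⟨hyN, hcy⟩ := hS y hy'.2
      have h3 := (C.chart.le_iff F C.F_mem y hyN).mp hy.2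
      have h4 : (co y).2 ≤ (co F).2 := h3.2
      rw [hcy, C.co_F, hy.1] at h4
      simp only at h4
      omega

/-- the energy of the first visible configuration -/
lemma cst_eq (C : CEl t0 Nc co m z F S) (hgr : GradedBelow P) (hm : 1 ≤ m) :
    cst m (fun _ => hh m) z = E0 m := by
  have hz := C.lev_z hgr
  obtain ⟨h1, h2⟩ := C.nab_z
  have hh2 := hh_le m
  have h3 : cst m (fun _ => hh m) z = ct m (hh m) z := rfl
  rw [h3, ct_top hz (by omega)]
  unfold E0 vs NF NL
  rw [← Finset.sum_add_distrib]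
  congr 1
  refine Finset.sum_congr rfl fun u hu => ?_
  rw [mem_range] at hu
  rcases Nat.eq_zero_or_pos u with h0 | h0
  · subst h0
    simp
  · rw [h2 u h0 (by omega)]
    ring

/-- two (C) elements below one top have the same covers -/
lemma same (H : Gr P r) (hm : 2 ≤ m) {z' F' S' : P} {Nc' : Finset P} {co' : P → ℕ × ℕ}
    (C : CEl t0 Nc co m z F S) (C' : CEl t0 Nc' co' m z' F' S') : F' = F ∧ S' = S := by
  have hF1 : nab m F = m / 2 + 1 := by
    have := C.nab_F (u := 0) (Nat.zero_le _)
    rw [Nat.add_zero] at this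
    rw [this]; unfold nF; omega
  have hF2 : nab m F' = m / 2 + 1 := by
    have := C'.nab_F (u := 0) (Nat.zero_le _)
    rw [Nat.add_zero] at this
    rw [this]; unfold nF; omega
  have hS1 := C.nab_S (l := m) (by omega)
  have hS2 := C'.nab_S (l := m) (by omega)
  -- elements with one cover
  have hone : ∀ {Nc' : Finset P} {co' : P → ℕ × ℕ} {z' F' S' : P},
      CEl t0 Nc' co' m z' F' S' → ∀ x, x = F' ∨ x = S' → (Win.uc x).card ≤ 1 := by
    intro Nc' co' z' F' S' C' x hx
    rw [Finset.card_le_one]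
    intro a ha b hb
    rw [Win.mem_uc] at ha hb
    have hxN : x ∈ Nc' := by
      rcases hx with h | h
      · rw [h]; exact C'.F_mem
      · rw [h]; exact C'.S_mem
    have haN := C'.chart.up x hxN a ha.le
    have hbN := C'.chart.up x hxN b hb.le
    have h1 := (chart_cov C'.chart H hxN haN).mp ha
    have h2 := (chart_cov C'.chart H hxN hbN).mp hb
    have h3 : (co' a).1 ≤ (co' a).2 := C'.chart.mem a haN
    have h4 : (co' b).1 ≤ (co' b).2 := C'.chart.mem b hbN
    apply C'.chart.inj a haN b hbN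
    unfold Prd at h1 h2
    rcases hx with h | h
    · rw [h, C'.co_F] at h1 h2
      simp only at h1 h2
      exact Prod.ext (by omega) (by omega)
    · rw [h, C'.co_S] at h1 h2
      simp only at h1 h2
      exact Prod.ext (by omega) (by omega)
  have key : ∀ x, x ≤ (t0 : P) → lev x = 2 * m → (Win.uc x).card ≤ 1 → x = F ∨ x = S := by
    intro x hxt hl hc
    have hxN : x ∈ Nc := C.strip (mem_lowPart.mpr ⟨hxt, hl.le⟩)
    have h1 := C.chart.lev x hxN
    have h2 : (co x).1 ≤ (co x).2 := C.chart.mem x hxN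
    rcases Nat.eq_zero_or_pos (co x).1 with h3 | h3
    · right
      exact C.chart.inj x hxN S C.S_mem (by rw [C.co_S]; exact Prod.ext h3 (by simp only; omega))
    · rcases Nat.lt_or_ge (co x).1 (co x).2 with h4 | h4
      · have := chartS_inner_uc C.chart H hxN h3 h4
        omega
      · left
        exact C.chart.inj x hxN F C.F_mem (by
          rw [C.co_F]; exact Prod.ext (by simp only; omega) (by simp only; omega))
  constructor
  · rcases key F' (C'.chart.le_t F' C'.F_mem) C'.lev_F (hone C' F' (Or.inl rfl)) with h | h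
    · exact h
    · rw [h] at hF2; omega
  · rcases key S' (C'.chart.le_t S' C'.S_mem) C'.lev_S (hone C' S' (Or.inr rfl)) with h | h
    · rw [h] at hS2; omega
    · exact h

/-- the first pole of a family of (C) elements with the same covers -/
theorem fam_pole (C : CEl t0 Nc co m z F S) (H : Gr P r) {b : Tops P → ℕ}
    {θ : Tops P → P → ℕ} {B : Tops P → P → Prop}
    (HT : ∀ t, NatTop m t (b t) (N t) (θ t) (B t)) (hlow : ∀ x ∈ unnat N, 2 * m < lev x)
    (hm : m = 2 * g + u) (hu : u ≤ 1) (hg : 1 ≤ g) (hgu : g = 1 → u = 0) (hb : b t0 = g + 1)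
    {h : P → ℕ} {A : Finset P} (hzA : z ∈ A) (hA : ∀ y ∈ A, ∀ w, z < w ↔ y < w)
    (hh' : ∀ y ∈ A, h y = u + 1) :
    (∀ n < E0 m + hh m ^ 2, (1 + X : ℤ[X]) ^ (∑ t, b t) ∣ ZF m h A n) ∧
    (1 + X : ℤ[X]) ^ (∑ t, b t) ∣ ZF m h A (E0 m + hh m ^ 2) -
      ∑ _y ∈ A, X ^ (below P m + (u + 1) * g) * (1 + X) ^ ((lv P m).card - 1) := by
  classical
  have hgr := H.gradedBelow
  have hhu : hh m = u + 1 := by unfold hh; omega
  have hE : (u + 1) ^ 2 + E0 m = E0 m + hh m ^ 2 := by rw [hhu]; omega
  have hfam : ∀ y ∈ A, CEl t0 Nc co m y F S ∧ lev y = 2 * m + 1 ∧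
      cst m (fun _ => u + 1) y = E0 m := by
    intro y hy
    have hyF := (cov_of_up (hA y hy)).mp C.zF
    have hyS := (cov_of_up (hA y hy)).mp C.zS
    have C' : CEl t0 Nc co m y F S := ⟨C.chart, C.strip, C.F_mem, C.S_mem, C.co_F, C.co_S, hyF,
      hyS, fun w hw => C.only w ((cov_of_up (hA y hy)).mpr hw)⟩
    refine ⟨C', C'.lev_z hgr, ?_⟩
    rw [← hhu]
    exact C'.cst_eq hgr (by omega)
  have hsingle := fun y (hy : y ∈ A) => (hfam y hy).1.pole_single H HT hlow hm hu hg hgu hb
  have hlz := (hfam z hzA).2.1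
  by_cases hone : A = {z}
  · have h1 := hfam z hzA
    have f2 := hsingle z hzA
    rw [h1.2.2, hE] at f2
    constructor
    · intro n hn
      rw [hone, ZF_singleton (by omega), hh' z hzA]
      exact f2.1 n hn
    · rw [hone, ZF_singleton (by omega), hh' z hzA, Finset.sum_singleton]
      exact f2.2
  · obtain ⟨y, hy, hyz⟩ : ∃ y ∈ A, y ≠ z := by
      by_contra hcon
      push Not at hcon
      apply hone
      ext x
      rw [mem_singleton]
      exact ⟨fun h => hcon x h, fun h => h ▸ hzA⟩
    have htwo : A = {z, y} := by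
      ext x
      rw [mem_insert, mem_singleton]
      constructor
      · intro hx
        by_contra hcon
        push Not at hcon
        exact Win.dc_three H (hfam x hx).1.zF C.zF (hfam y hy).1.zF hcon.1 hcon.2 hyz.symm
      · rintro (h | h)
        · rw [h]; exact hzA
        · rw [h]; exact hy
    have h1 := hfam z hzA
    have f2 := hsingle z hzA
    have g1 := hfam y hy
    have g2 := hsingle y hy
    have hzy : ¬ z ≤ y := by
      intro h
      have := lev_strictAnti (lt_of_le_of_ne h hyz.symm)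
      omega
    have hP := fun n (hn : n ≤ (u + 1) ^ 2 + cst m (fun _ => u + 1) z) =>
      h1.1.pole_pair H HT hlow hm hu hg hgu hb hzy
        (g1.1.z_only hgr (natSys_of_tops HT) hlow) hn
    rw [h1.2.2, hE] at f2
    rw [g1.2.2, hE] at g2
    rw [h1.2.2, hE] at hP
    have key : ∀ n, ZF m h {z, y} n = ZD m z (u + 1) n + ZD m y (u + 1) n -
        ZB m ∅ 0 (sgs {z, y} (u + 1)) n := by
      intro n
      have h3 := ZF_pair (i := m) (h := h) (z := z) (z' := y) (by omega) (by omega) n
      rw [ZP_eq_sgs (by omega) (by omega) (hh' z hzA) (hh' y hy), hh' z hzA, hh' y hy] at h3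
      rw [← h3]
      ring
    constructor
    · intro n hn
      rw [htwo, key]
      exact dvd_sub (dvd_add (f2.1 n hn) (g2.1 n hn)) (hP n hn.le)
    · rw [htwo, key, Finset.sum_pair hyz.symm]
      have h5 := dvd_sub (dvd_add f2.2 g2.2) (hP _ le_rfl)
      refine h5.trans (dvd_of_eq ?_)
      ring

end CEl

end Pool.Agent.GaussPoset
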