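import Pool.Agent.W_448fc_h67.FcP

/-!
(C) elements do not exist if everything else is expensive.
-/

namespace Pool.Agent.GaussPoset

set_option linter.unusedSectionVars false

open Polynomial Finset

universe u

variable {P : Type u} [Fintype P] [PartialOrder P] [DecidableEq P] {r m g u : ℕ}
  {N : Tops P → Finset P}

/-- `z` covers exactly the fold end and the straight end of a stair of full order -/
def IsC (b : Tops P → ℕ) (m : ℕ) (z : P) : Prop :=
  ∃ t Nc co F S, CEl (P := P) t Nc co m z F S ∧ b t = m / 2 + 1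

lemma E0_gt (hm : m = 2 * g + u) (hu : u ≤ 1) (hg : 1 ≤ g) (hgu : g = 1 → u = 0) :
    hh m ^ 2 < E0 m := by
  rcases Nat.le_one_iff_eq_zero_or_eq_one.mp hu with h | h
  · subst h
    rw [hm, Nat.add_zero, hh_even, E0_even]
    nlinarith
  · subst h
    have hg2 : 2 ≤ g := by
      have : g ≠ 1 := fun h => by have := hgu h; omega
      omega
    rw [hm, hh_odd, E0_odd]
    nlinarith

/-- **Standalone kill of the (C) elements.**  `N` is a system of natural sets at window `m` which
contains all elements of level `≤ 2 m`; every boundary element is expensive or a (C) element.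
Then there is no (C) element. -/
theorem cc_dead (H : Gr P r) {b : Tops P → ℕ} {θ : Tops P → P → ℕ} {B : Tops P → P → Prop}
    (HT : ∀ t, NatTop m t (b t) (N t) (θ t) (B t)) (hlow : ∀ x ∈ unnat N, 2 * m < lev x)
    (hm : m = 2 * g + u) (hu : u ≤ 1) (hg : 1 ≤ g) (hgu : g = 1 → u = 0)
    (hsum : ∑ t, b t = (lv P m).card) {R : Finset P} {h : P → ℕ} {n0 : ℕ}
    (FT : FarT P m R (lv P m).card h n0) (hn0 : E0 m + hh m ^ 2 < n0)
    (hbd : ∀ z ∈ bdR R, E0 m + hh m ^ 2 < cst m h z ∨ (h z = hh m ∧ IsC b m z)) :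
    ∀ z ∈ bdR R, E0 m + hh m ^ 2 < cst m h z := by
  classical
  have hgr := H.gradedBelow
  have hhu : hh m = u + 1 := by unfold hh; omega
  have HN := natSys_of_tops HT
  have hm2 : 2 ≤ m := by omega
  set E := E0 m + hh m ^ 2 with hE
  have hEE := E0_gt hm hu hg hgu
  intro z0 hz0
  by_contra hcon
  set Cs := (bdR R).filter (fun z => h z = hh m ∧ IsC b m z) with hCs
  have hCm : ∀ z, z ∈ Cs ↔ z ∈ bdR R ∧ h z = hh m ∧ IsC b m z := by
    intro z
    rw [hCs, mem_filter]
  have hz0C : z0 ∈ Cs := (hCm z0).mpr ⟨hz0, (hbd z0 hz0).resolve_left hcon⟩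
  let fm : P → Finset P := fun z => Cs.filter (fun y => ∀ w, z < w ↔ y < w)
  have hfm : ∀ z y, y ∈ fm z ↔ y ∈ Cs ∧ ∀ w, z < w ↔ y < w := by
    intro z y
    simp only [fm, mem_filter]
  have hself : ∀ z ∈ Cs, z ∈ fm z := fun z hz => (hfm z z).mpr ⟨hz, fun _ => Iff.rfl⟩
  have hfeq : ∀ z y, y ∈ fm z → fm y = fm z := by
    intro z y hy
    have h1 := ((hfm z y).mp hy).2
    ext w
    rw [hfm, hfm]
    exact and_congr_right fun _ => ⟨fun h2 v => (h1 v).trans (h2 v),
      fun h2 v => (h1 v).symm.trans (h2 v)⟩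
  set Fam := Cs.image fm with hFam
  -- costs
  have hcst : ∀ z ∈ Cs, cst m h z = E0 m := by
    intro z hz
    obtain ⟨-, h1, t, Nc, co, F, S, C, -⟩ := (hCm z).mp hz
    rw [cst_ct h1]
    exact C.cst_eq hgr (by omega)
  have hunion : ∀ z ∈ Cs, ∀ z' ∈ bdR R, z' ∉ fm z →
      E < ∑ x, max (ez m h z x) (ez m h z' x) := by
    intro z hz z' hz' hne
    by_cases hC' : z' ∈ Cs
    · -- different stairs
      obtain ⟨-, h1, t, Nc, co, F, S, C, -⟩ := (hCm z).mp hz
      obtain ⟨-, h1', t', Nc', co', F', S', C', -⟩ := (hCm z').mp hC'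
      have htt : t ≠ t' := by
        rintro rfl
        obtain ⟨e1, e2⟩ := C.same H hm2 C'
        refine hne ((hfm z z').mpr ⟨hC', fun w => ?_⟩)
        rw [C.lt_iff, C'.lt_iff, e1, e2]
      have ho := C.z_only hgr HN hlow
      have ho' := C'.z_only hgr HN hlow
      have h2 : ∀ x, max (ez m h z x) (ez m h z' x) = ez m h z x + ez m h z' x := by
        intro x
        by_cases hx : z ≤ x
        · have hx' : ¬ z' ≤ x := by
            intro hx'
            have e1 := mem_onlyB.mp (onlyB_up ho hx) (topOf x) (topOf x).2 (le_topOf x)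
            have e2 := mem_onlyB.mp (onlyB_up ho' hx') (topOf x) (topOf x).2 (le_topOf x)
            exact htt (Subtype.ext (e1.symm.trans e2))
          have : ez m h z' x = 0 := by unfold ez; rw [if_neg hx']
          rw [this]
          simp
        · have : ez m h z x = 0 := by unfold ez; rw [if_neg hx]
          rw [this]
          simp
      rw [Finset.sum_congr rfl fun x _ => h2 x, Finset.sum_add_distrib]
      have e1 : ∑ x, ez m h z x = E0 m := hcst z hz
      have e2 : ∑ x, ez m h z' x = E0 m := hcst z' hC'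
      rw [e1, e2]
      omega
    · have h3 : E < cst m h z' := by
        rcases hbd z' hz' with h4 | h4
        · exact h4
        · exact absurd ((hCm z').mpr ⟨hz', h4⟩) hC'
      refine h3.trans_le ?_
      unfold cst
      exact Finset.sum_le_sum fun x _ => le_max_right _ _
  have key := FT.plusF (n := E) hn0 Fam ?_ ?_ ?_ ?_
  · have hempty : (bdR R).filter (fun z => (∀ A ∈ Fam, z ∉ A) ∧ cst m h z = E) = ∅ := by
      rw [Finset.filter_eq_empty_iff]
      rintro z hz ⟨h1, h2⟩
      rcases hbd z hz with h3 | h3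
      · omega
      · have hzC := (hCm z).mpr ⟨hz, h3⟩
        exact h1 (fm z) (mem_image_of_mem _ hzC) (hself z hzC)
    rw [hempty, Finset.sum_empty, add_zero] at key
    have hZ := dvd_Z H.gauss m E
    have h1 : (1 + X : ℤ[X]) ^ (lv P m).card ∣ ∑ A ∈ Fam, ZF m h A E := by
      have := dvd_sub hZ key
      rwa [sub_sub_cancel] at this
    have h2 : (1 + X : ℤ[X]) ^ (lv P m).card ∣ ∑ A ∈ Fam, (ZF m h A E -
        ∑ _y ∈ A, X ^ (below P m + (u + 1) * g) * (1 + X) ^ ((lv P m).card - 1)) := by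
      refine Finset.dvd_sum fun A hA => ?_
      obtain ⟨z, hz, rfl⟩ := mem_image.mp hA
      obtain ⟨-, h3, t, Nc, co, F, S, C, hb⟩ := (hCm z).mp hz
      have h4 := C.fam_pole H HT hlow hm hu hg hgu (by rw [hb]; omega) (h := h) (hself z hz)
        (fun y hy => ((hfm z y).mp hy).2) (fun y hy => by
          rw [← hhu]
          exact ((hCm y).mp ((hfm z y).mp hy).1).2.1)
      rw [hsum] at h4
      exact h4.2
    rw [Finset.sum_sub_distrib] at h2
    have h3 := dvd_sub h1 h2
    rw [sub_sub_cancel, Finset.sum_sigma'] at h3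
    have hB : 1 ≤ (lv P m).card := by
      obtain ⟨-, -, t, Nc, co, F, S, C, hb⟩ := (hCm z0).mp hz0C
      rw [← hsum]
      have := Finset.single_le_sum (f := b) (fun _ _ => Nat.zero_le _) (mem_univ t)
      omega
    have h4 := sum_empty hB _ (fun _ => below P m + (u + 1) * g)
      (σ := (-1) ^ (below P m + (u + 1) * g)) (pow_ne_zero _ (by norm_num)) (fun _ _ => rfl) h3
    have h5 : (⟨fm z0, z0⟩ : (_ : Finset P) × P) ∈ Fam.sigma (fun A => A) := by
      rw [mem_sigma]
      exact ⟨mem_image_of_mem _ hz0C, hself z0 hz0C⟩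
    rw [h4] at h5
    exact absurd h5 (Finset.notMem_empty _)
  · intro A hA z hz
    obtain ⟨y, hy, rfl⟩ := mem_image.mp hA
    exact ((hCm z).mp ((hfm y z).mp hz).1).1
  · intro z hz h1
    rcases hbd z hz with h3 | h3
    · exact h3.le
    · have hzC := (hCm z).mpr ⟨hz, h3⟩
      exact absurd (hself z hzC) (h1 (fm z) (mem_image_of_mem _ hzC))
  · intro A hA z hz z' hz' hne
    obtain ⟨y, hy, rfl⟩ := mem_image.mp hA
    refine hunion z ((hfm y z).mp hz).1 z' hz' ?_
    rw [hfeq y z hz]
    exact hne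
  · intro A hA A' hA' hne z hz hz'
    obtain ⟨y, hy, rfl⟩ := mem_image.mp hA
    obtain ⟨y', hy', rfl⟩ := mem_image.mp hA'
    exact hne ((hfeq y z hz).symm.trans (hfeq y' z hz'))

end Pool.Agent.GaussPoset
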