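import Pool.Agent.W_448fc_h67.FcQ

/-!
(C) elements are unnatural; case B (no joins) in the context of S8.
-/

namespace Pool.Agent.GaussPoset

set_option linter.unusedSectionVars false

open Polynomial Finset

universe u

variable {P : Type u} [Fintype P] [PartialOrder P] [DecidableEq P] {r m g u : ℕ}
  {N : Tops P → Finset P} {b : Tops P → ℕ} {θ : Tops P → P → ℕ}

/-- elements of level `2 m + 1` below the fold end and the straight end are unnatural -/
lemma CEl.not_nat {t0 : Tops P} {Nc : Finset P} {co : P → ℕ × ℕ} {z F S : P}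
    (C : CEl t0 Nc co m z F S) (HN : NatSys N) (hN : N t0 = natS Nc co) (hm : 2 ≤ m) {y : P}
    (hyF : y < F) (hyS : y < S) (hl : lev y = 2 * m + 1) : y ∈ unnat N := by
  rw [mem_unnat]
  intro s hs
  have h1 := HN.top_eq hs t0.2 (hyF.le.trans (C.chart.le_t F C.F_mem))
  have h2 : s = t0 := Subtype.ext h1.symm
  rw [h2, hN, mem_natS] at hs
  rcases hs with h | h
  · have e1 := (C.chart.le_iff y h F C.F_mem).mp hyF.le
    have e2 := (C.chart.le_iff y h S C.S_mem).mp hyS.le
    have e3 := C.chart.lev y h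
    rw [C.co_F] at e1
    rw [C.co_S] at e2
    have e4 := e1.1
    have e5 := e2.2
    simp only at e4 e5
    omega
  · obtain ⟨x1, hE, hj⟩ := mem_junk.mp h
    have hj2 := (mem_jset.mp hj).2
    have h0 := hE.fst
    have hx1 := hE.mem
    rcases hj2 F hyF.le with h3 | h3
    · have e1 := (C.chart.le_iff F C.F_mem x1 hx1).mp h3
      rw [C.co_F] at e1
      have e2 := e1.2
      simp only at e2
      have e3 := hE.lt F C.F_mem (by rw [C.co_F]; simp only; omega)
      rw [C.co_F] at e3
      simp only at e3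
      omega
    · have e1 := (C.chart.le_iff x1 hx1 F C.F_mem).mp h3
      rw [C.co_F] at e1
      have e2 := e1.1
      simp only at e2
      omega

/-- **Case B, `10 ≤ m`.**  If no element of level `2 m + 1` is below two tops then there are no
(C) elements. -/
theorem WM.no_cc (W : WM r m N b θ) (hno : ∀ z : P, lev z = 2 * m + 1 → ¬ Hul.Jn z) {z : P}
    (hc : CcM m N b θ z) : False := by
  classical
  have H := W.gt.H
  have hm := W.ten
  have I := numI W.ten
  have hjn : ∀ z x x' : P, lev z = 2 * m + 1 → z ⋖ x → z ⋖ x' → topOf x ≠ topOf x' → False := by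
    intro z x x' hl hx hx' hne
    refine hno z hl ⟨topOf x, topOf x', (topOf x).2, (topOf x').2, ?_, ?_, ?_⟩
    · intro h
      exact hne (Subtype.ext h)
    · exact hx.1.le.trans (le_topOf x)
    · exact hx'.1.le.trans (le_topOf x')
  obtain ⟨hl, F, S, Nc, co, hF, hcF, hS, hcS, hzF, hzS⟩ := hc
  have C := W.cel hF hcF hS hcS hzF hzS
  have hzR : z ∈ r2 (2 * m) N := by
    refine mem_sdiff.mpr ⟨C.not_nat W.natSys hF.nat (by omega) hzF.1 hzS.1 hl, ?_⟩
    intro hY
    obtain ⟨-, -, y, hy, hyz⟩ := mem_twY.mp hY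
    refine hy (C.not_nat W.natSys hF.nat (by omega) ((hyz F).mpr hzF.1) ((hyz S).mpr hzS.1) ?_)
    rw [lev_eq_of_up hyz]
    exact hl
  have hzb := W.mem_bd hzR hl
  have S7 : S7M m N b θ := fun z x x' hl hx hx' hne => (hjn z x x' hl hx hx' hne).elim
  rcases W.rows3 S7 (σ := 1) one_ne_zero (fun z hz hc => W.fz_cc hz hc) (fun z hz hs => by
    obtain ⟨hl, x, x', -, -, -, hne, h1, h2, -⟩ := hs
    exact (hjn z x x' hl h1 h2 hne).elim) hzb with h | ⟨-, x, x', -, -, hne, h1, h2⟩
  · obtain ⟨s, hn⟩ := W.num_cc hzR hl hF hcF hS hcS hzF hzS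
    have := hn.cst
    have := I.i4
    omega
  · exact hjn z x x' hl h1 h2 hne

end Pool.Agent.GaussPoset
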