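import Pool.Agent.W_448fc_h67.FcW

/-!
Case B, `m = 2` or `9 ≤ m`, `m = 8` without the complete strip of type E7: no (C) elements.
-/

namespace Pool.Agent.GaussPoset

set_option linter.unusedSectionVars false

open Polynomial Finset

universe u

variable {P : Type u} [Fintype P] [PartialOrder P] [DecidableEq P] {r m : ℕ}
  {lo hi : Tops P → ℕ → ℕ} {e : Tops P → ℕ → ℕ → P}

open Cp

theorem caseB_no_cc_big (hm : m = 2 ∨ 9 ≤ m) (h : Win.GoodTo P r (2 * m))
    (C : ∀ t : Tops P, Comp (2 * m) (t : P) (lo t) (hi t) (e t))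
    (hS : ∀ t, Wd.Shape (2 * m) (lo t) (hi t))
    (hnj : ∀ z : P, lev z = 2 * m + 1 → ¬ Hul.Jn z) {t : Tops P} {z : P}
    (S : StairShape (2 * m) (lo t) (hi t)) (h0 : lo t (2 * m) = 0)
    (hz1 : z ⋖ e t (2 * m) m) (hz2 : z ⋖ e t (2 * m) 0) : False := by
  refine caseB_no_cc (by omega) (by omega) h C hS (fun t a ha D hw => ?_) hnj S h0 hz1 hz2
  exfalso
  have h1 := Wd.late_len_all hw
  rw [Wd.word_length] at h1
  have := D.h0
  omega

theorem caseB_no_cc_eight (hm : m = 8) (h : Win.GoodTo P r (2 * m))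
    (C : ∀ t : Tops P, Comp (2 * m) (t : P) (lo t) (hi t) (e t))
    (hS : ∀ t, Wd.Shape (2 * m) (lo t) (hi t))
    (hE7 : ∀ t, ¬ Wd.LateD (2 * m) 4 (lo t) (hi t))
    (hnj : ∀ z : P, lev z = 2 * m + 1 → ¬ Hul.Jn z) {t : Tops P} {z : P}
    (S : StairShape (2 * m) (lo t) (hi t)) (h0 : lo t (2 * m) = 0)
    (hz1 : z ⋖ e t (2 * m) m) (hz2 : z ⋖ e t (2 * m) 0) : False := by
  refine caseB_no_cc (by omega) (by omega) h C hS (fun t a ha D hw => ?_) hnj S h0 hz1 hz2
  exfalso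
  have h1 := Wd.late_len_all hw
  rw [Wd.word_length] at h1
  have := D.h0
  obtain rfl : a = 4 := by omega
  exact hE7 t D

end Pool.Agent.GaussPoset
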