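import Pool.Agent.W_448s8f_h76.FiB
import Pool.Agent.W_448fc_h67.FcO
import Pool.Agent.W_448fc_h67.FcP

/-!
The families of joins of the fold end with the straight end, generic window `m`.
-/

namespace Pool.Agent.GaussPoset.Fi

set_option linter.unusedSectionVars false

open Polynomial Finset

universe u

variable {P : Type u} [Fintype P] [PartialOrder P] [DecidableEq P] {r m K : ℕ}
  {N : Tops P → Finset P} {b : Tops P → ℕ} {θ : Tops P → P → ℕ}

/-- the (C) joins -/
def CcI (m : ℕ) (N : Tops P → Finset P) (b : Tops P → ℕ) (θ : Tops P → P → ℕ) (z : P) : Prop :=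
  lev z = 2 * m + 1 ∧ ∃ x x' Nc co, InS m m N b θ x Nc co ∧ co x = (m, m) ∧ x' ∈ Nc ∧
    co x' = (0, 2 * m) ∧ z ⋖ x ∧ z ⋖ x'

/-- the label of an element of level `2 m + 1` -/
lemma WI.h2_eqc (W : WI r m m K N b θ) {z x : P} (hz : z ∈ r2 (2 * m) N)
    (hl : lev z = 2 * m + 1)
    (hzx : z ⋖ x) (hmin : ∀ y, z ⋖ y → θ (topOf x) x ≤ θ (topOf y) y) :
    h2 (2 * m) N θ z = θ (topOf x) x + 1 := by
  classical
  have H := W.gt.H
  have hlev : ∀ y, z ⋖ y → lev y = 2 * m := by
    intro y hy
    have := (H.covBy_iff.mp hy).2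
    omega
  have hnY : ∀ y, z ⋖ y → y ∉ twY (2 * m) N := by
    intro y hy h
    have h1 := hlev y hy
    have h2 := (mem_twY.mp h).2.1
    omega
  have hnR : ∀ y, z ⋖ y → y ∉ r2 (2 * m) N := fun y hy h =>
    W.low (hlev y hy).le (mem_sdiff.mp h).1
  have hbd : z ∈ bdR (r2 (2 * m) N) := mem_filter.mpr ⟨hz, x, hnR x hzx, hzx⟩
  refine le_antisymm ?_ ?_
  · refine (hcan_le (θ := thX (twY (2 * m) N) (twT N) (fun x => θ (topOf x) x)) (hnR x hzx)
      hzx).trans ?_
    rw [thX_not (hnY x hzx)]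
  · obtain ⟨y, hy, hzy, hh⟩ := hcan_spec
      (θ := thX (twY (2 * m) N) (twT N) (fun x => θ (topOf x) x)) hbd
    rw [thX_not (hnY y hzy)] at hh
    have h3 := hmin y hzy
    show _ ≤ hcan _ _ z
    omega

/-- the data of a (C) join -/
lemma WI.cel (W : WI r m m K N b θ) {z F S : P} {Nc : Finset P} {co : P → ℕ × ℕ}
    (hF : InS m m N b θ F Nc co) (hcF : co F = (m, m)) (hS : S ∈ Nc) (hcS : co S = (0, 2 * m))
    (hzF : z ⋖ F) (hzS : z ⋖ S) : CEl (topOf F) Nc co m z F S where
  chart := hF.stair.chart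
  strip := hF.stair.strip
  F_mem := hF.mem
  S_mem := hS
  co_F := hcF
  co_S := hcS
  zF := hzF
  zS := hzS
  only := by
    have hm := W.hi
    have hne : F ≠ S := by
      rintro rfl
      rw [hcF, Prod.mk.injEq] at hcS
      omega
    exact fun y hy => uc_pair W.gt.H hzF hzS hne hy

/-- the label and the cost of a (C) join -/
lemma WI.cc_lab (W : WI r m m K N b θ) {z F S : P} {Nc : Finset P} {co : P → ℕ × ℕ}
    (hz : z ∈ r2 (2 * m) N) (hl : lev z = 2 * m + 1)
    (hF : InS m m N b θ F Nc co) (hcF : co F = (m, m)) (hS : S ∈ Nc) (hcS : co S = (0, 2 * m))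
    (hzF : z ⋖ F) (hzS : z ⋖ S) :
    h2 (2 * m) N θ z = hh m ∧ cst m (fun _ => hh m) z = E0 m := by
  have hm := W.hi
  have C := W.cel hF hcF hS hcS hzF hzS
  have hlS : lev S = 2 * m := by
    have := (W.gt.H.covBy_iff.mp hzS).2
    omega
  have hSN : S ∈ N (topOf F) := by
    rw [hF.nat]
    exact mem_natS.mpr (Or.inl hS)
  have htS : topOf S = topOf F := W.natSys.topOf_eq hSN
  have hthF : θ (topOf F) F + 1 = hh m := by
    rw [hF.th, hcF]
    unfold hh
    simp only
    omega
  have hthS : θ (topOf S) S = m := by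
    rw [htS, hF.thf]
    unfold thS
    rw [hcS, hlS]
    simp only
    split_ifs <;> omega
  refine ⟨?_, C.cst_eq W.gt.H.gradedBelow (by omega)⟩
  rw [W.h2_eqc hz hl hzF (fun y hy => ?_), hthF]
  rcases C.only y hy with h | h
  · rw [h]
  · rw [h, hthS]
    have := hh_le m
    omega

/-- **The (C) joins: first pole of the family.** -/
theorem WI.fz_cc (W : WI r m m K N b θ) {z : P} (hz : z ∈ bdR (r2 (2 * m) N))
    (hc : CcI m N b θ z) : Fz m N θ z (E0 m + hh m ^ 2) (sg1 P m) := by
  classical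
  have hm := W.hi
  have H := W.gt.H
  obtain ⟨hl, F, S, Nc, co, hF, hcF, hS, hcS, hzF, hzS⟩ := hc
  choose B hB using W.natTop
  have hlow : ∀ x ∈ unnat N, 2 * m < lev x := fun x hx => W.lt_lev hx
  obtain ⟨g, u, hu, hmu, hg⟩ : ∃ g u, u ≤ 1 ∧ m = 2 * g + u ∧ 2 ≤ g :=
    ⟨m / 2, m % 2, by omega, by omega, by omega⟩
  have hhu : hh m = u + 1 := by unfold hh; omega
  have hb : b (topOf F) = g + 1 := by rw [hF.bb]; omega
  -- the elements of the family
  have hfam : ∀ y ∈ fam m N z, CEl (topOf F) Nc co m y F S ∧ lev y = 2 * m + 1 ∧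
      h2 (2 * m) N θ y = u + 1 ∧ cst m (fun _ => u + 1) y = E0 m := by
    intro y hy
    rw [mem_fam] at hy
    have hyF := (cov_of_up hy.2).mp hzF
    have hyS := (cov_of_up hy.2).mp hzS
    have hly : lev y = 2 * m + 1 := by
      rw [← lev_eq_of_up hy.2]
      exact hl
    obtain ⟨hlab, hcst⟩ := W.cc_lab (bd_mem hy.1) hly hF hcF hS hcS hyF hyS
    rw [hhu] at hlab hcst
    exact ⟨W.cel hF hcF hS hcS hyF hyS, hly, hlab, hcst⟩
  have hsingle := fun y (hy : y ∈ fam m N z) =>
    (hfam y hy).1.pole_single H hB hlow hmu hu (by omega) (by omega) hb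
  have hB' : ∑ t, b t = (lv P m).card := W.sum_b
  have hE : (u + 1) ^ 2 + E0 m = E0 m + hh m ^ 2 := by rw [hhu]; omega
  have hsign : (-1 : ℤ) ^ (below P m + (u + 1) * g) = sg1 P m := by
    unfold sg1 sgF
    rw [hhu]
    rcases Nat.le_one_iff_eq_zero_or_eq_one.mp hu with h | h
    · subst h
      rw [Finset.sum_range_one, show below P m + nF m 0 + (0 + 1) =
        below P m + (0 + 1) * g + 2 by unfold nF; omega, pow_add _ _ 2]
      norm_num
    · subst h
      rw [Finset.sum_range_succ, Finset.sum_range_one, show below P m + (nF m 0 + nF m 1) + (1 + 1) =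
        below P m + (1 + 1) * g + 2 * 2 by unfold nF; omega, pow_add _ _ (2 * 2)]
      norm_num
  have hself := self_mem_fam hz
  by_cases hone : fam m N z = {z}
  · -- one element
    have h1 := hfam z hself
    have f2 := hsingle z hself
    rw [h1.2.2.2, hB', hE] at f2
    constructor
    · intro n hn
      rw [hone, ZF_singleton (by omega), h1.2.2.1]
      exact f2.1 n hn
    · refine ⟨fun _ => below P m + (u + 1) * g, ?_, fun _ _ => hsign⟩
      rw [hone, ZF_singleton (by omega), h1.2.2.1, Finset.sum_singleton]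
      exact f2.2
  · -- two elements
    obtain ⟨y, hy, hyz⟩ : ∃ y ∈ fam m N z, y ≠ z := by
      by_contra hcon
      push Not at hcon
      apply hone
      ext x
      rw [mem_singleton]
      exact ⟨fun h => hcon x h, fun h => h ▸ hself⟩
    have htwo : fam m N z = {z, y} := by
      ext x
      rw [mem_insert, mem_singleton]
      constructor
      · intro hx
        by_contra hcon
        push Not at hcon
        exact Win.dc_three H (hfam x hx).1.zF hzF (hfam y hy).1.zF hcon.1 hcon.2 hyz.symm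
      · rintro (h | h)
        · rw [h]; exact hself
        · rw [h]; exact hy
    have h1 := hfam z hself
    have f2 := hsingle z hself
    have g1 := hfam y hy
    have g2 := hsingle y hy
    have hzy : ¬ z ≤ y := by
      intro h
      have := lev_strictAnti (lt_of_le_of_ne h hyz.symm)
      omega
    have hP := fun n (hn : n ≤ (u + 1) ^ 2 + cst m (fun _ => u + 1) z) =>
      h1.1.pole_pair H hB hlow hmu hu (by omega) (by omega) hb hzy
        (g1.1.z_only H.gradedBelow (natSys_of_tops hB) hlow) hn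
    rw [h1.2.2.2, hB', hE] at f2
    rw [g1.2.2.2, hB', hE] at g2
    rw [h1.2.2.2, hB', hE] at hP
    have key : ∀ n, ZF m (h2 (2 * m) N θ) {z, y} n = ZD m z (u + 1) n + ZD m y (u + 1) n -
        ZB m ∅ 0 (sgs {z, y} (u + 1)) n := by
      intro n
      have h3 := ZF_pair (i := m) (h := Pool.Agent.GaussPoset.h2 (2 * m) N θ) (z := z) (z' := y)
        (by omega) (by omega) n
      rw [ZP_eq_sgs (by omega) (by omega) h1.2.2.1 g1.2.2.1, h1.2.2.1, g1.2.2.1] at h3
      rw [← h3]
      ring
    constructor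
    · intro n hn
      rw [htwo, key]
      exact dvd_sub (dvd_add (f2.1 n hn) (g2.1 n hn)) (hP n hn.le)
    · refine ⟨fun _ => below P m + (u + 1) * g, ?_, fun _ _ => hsign⟩
      rw [htwo, key, Finset.sum_pair hyz.symm]
      have h5 := dvd_sub (dvd_add f2.2 g2.2) (hP _ le_rfl)
      refine h5.trans (dvd_of_eq ?_)
      ring

end Pool.Agent.GaussPoset.Fi
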